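import Pool.Agent.Work.MP_376faf_co_neps.Irr
import Pool.Agent.Work.MP_376faf_co_hw.Decomp

/-! Module Rec: the chain recursion in one dyadic block (section 6 of note 2994). -/

set_option autoImplicit false

namespace Pool.Agent.Work.MP_376faf_co_neps

open Pool.Agent.Work.MP_376faf_co_lower Pool.Agent.Work.MP_376faf_co_hw
open scoped ENNReal

theorem HL_mono {n M M' : ℕ} (h : M ≤ M') {l : List Pt} (hl : HL n M l) : HL n M' l :=
  ⟨⟨hl.1.1, fun i hi => (hl.1.2 i hi).trans (by exact_mod_cast h)⟩, hl.2⟩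

/-- continuations of a bridge `c` with weight `z ^ s(c)` -/
noncomputable def YY (x y z : ℝ≥0∞) (n M : ℕ) : ℝ≥0∞ :=
  ∑' c : Br, wz x z c.1 * mass y (fun r => HL n M r ∧ Walk (c.1 ++ ng r))

theorem YY_mono (x y z : ℝ≥0∞) (n : ℕ) {M M' : ℕ} (h : M ≤ M') : YY x y z n M ≤ YY x y z n M' :=
  ENNReal.tsum_le_tsum fun _ => mul_le_mul' le_rfl (mass_mono y fun _ hr => ⟨HL_mono h hr.1, hr.2⟩)

theorem HL_le_YY (x y z : ℝ≥0∞) (n M : ℕ) : mass y (HL n M) ≤ YY x y z n M := by
  refine le_trans ?_ (ENNReal.le_tsum (f := fun c : Br => wz x z c.1 *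
    mass y (fun r => HL n M r ∧ Walk (c.1 ++ ng r))) ⟨[], bridge_nil⟩)
  have h : wz x z [] = 1 := by simp [wz, sp]
  simp only [h, one_mul]
  refine mass_mono y fun r hr => ⟨hr, ?_⟩
  rw [List.nil_append]
  exact ng_walk hr.1.1.1

theorem HL_nil (n M : ℕ) : HL n M [] := by
  refine ⟨⟨bridge_nil.half, fun i hi => ?_⟩, by simp⟩
  have : i = 0 := by simpa using hi
  subst this
  simp

/-- splitting off the first bridge, if its span is at least `N` (cf. `q_split`) -/
theorem q_split2 {y : ℝ≥0∞} {n M N : ℕ} (hN : 1 ≤ N) {Q : List Pt → Prop}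
    (hQ : ∀ l, Q l → HL n M l) :
    mass y Q ≤ mass y (fun l => HL n (N - 1) l ∧ Q l) + ∑ A ∈ Finset.Ico N (M + 1), ∑' b : BW A,
      y ^ b.1.length * mass y (fun r => HL n (A - 1) r ∧ Q (b.1 ++ ng r)) := by
  classical
  have hch : ∀ l : {l // Q l}, ∃ (A : ℕ) (b r : List Pt), ¬ HL n (N - 1) l.1 →
      A ∈ Finset.Ico N (M + 1) ∧ l.1 = b ++ ng r ∧ BridgeW A b ∧ HL n (A - 1) r ∧
      b.length + r.length = l.1.length := by
    intro l
    by_cases h : HL n (N - 1) l.1
    · exact ⟨0, [], [], fun h' => absurd h h'⟩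
    · have h0 : l.1 ≠ [] := by
        intro h0
        apply h
        rw [h0]
        exact HL_nil n _
      obtain ⟨A, hA, b, r, h1, h2, h3, h4⟩ := dec_one (hQ l.1 l.2) h0
      refine ⟨A + 1, b, r, fun _ => ⟨?_, h1, h2, by simpa using h3, h4⟩⟩
      rw [Finset.mem_Ico]
      refine ⟨?_, by omega⟩
      by_contra hlt
      apply h
      refine ⟨⟨(hQ l.1 l.2).1.1, fun i hi => ?_⟩, (hQ l.1 l.2).2⟩
      rw [h1] at hi ⊢
      rw [List.length_append, ng_length] at hi
      rcases le_total i b.length with hib | hib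
      · rw [pos_append_left _ _ hib]
        have h5 := h2.1.le_end hib
        rw [pos_len, h2.2] at h5
        push_cast at h5
        omega
      · obtain ⟨k, rfl⟩ := Nat.exists_eq_add_of_le hib
        rw [pos_append_right, pos_ng]
        have h6 : 0 ≤ (pos r k).1 := by
          rcases Nat.eq_zero_or_pos k with hk | hk
          · rw [hk]; simp
          · exact (h3.1.1.2 k hk (by omega)).le
        have h7 := h2.2
        simp only [Prod.fst_add, Prod.fst_neg]
        rw [h7]
        push_cast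
        omega
  choose A b r hab using hch
  let T : Type := {l // HL n (N - 1) l ∧ Q l} ⊕ (Σ A : Finset.Ico N (M + 1), Σ b : BW A.1,
    {r : List Pt // HL n (A.1 - 1) r ∧ Q (b.1 ++ ng r)})
  let w : T → ℝ≥0∞ := Sum.elim (fun l => y ^ l.1.length)
    (fun p => y ^ p.2.1.1.length * y ^ p.2.2.1.length)
  let φ : {l // Q l} → T := fun l =>
    if h : HL n (N - 1) l.1 then Sum.inl ⟨l.1, h, l.2⟩
    else Sum.inr ⟨⟨A l, (hab l h).1⟩, ⟨b l, (hab l h).2.2.1⟩, ⟨r l, (hab l h).2.2.2.1, by
      have := (hab l h).2.1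
      rw [← this]; exact l.2⟩⟩
  have hw : ∑' t, w t = mass y (fun l => HL n (N - 1) l ∧ Q l) +
      ∑ A ∈ Finset.Ico N (M + 1), ∑' b : BW A,
      y ^ b.1.length * mass y (fun r => HL n (A - 1) r ∧ Q (b.1 ++ ng r)) := by
    rw [ENNReal.summable.tsum_sum ENNReal.summable]
    congr 1
    simp only [w, Sum.elim_inr]
    rw [ENNReal.tsum_sigma']
    rw [tsum_fintype, ← Finset.sum_coe_sort (Finset.Ico N (M + 1))]
    refine Finset.sum_congr rfl (fun A _ => ?_)
    rw [ENNReal.tsum_sigma']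
    refine tsum_congr (fun b => ?_)
    simp only
    rw [ENNReal.tsum_mul_left]
    rfl
  rw [← hw]
  refine tsum_le_inj φ ?_ ?_
  · intro l l' hll
    simp only [φ] at hll
    split_ifs at hll with h1 h2 h2
    · have := congrArg (fun t : {l // HL n (N - 1) l ∧ Q l} => t.1) (Sum.inl.inj hll)
      exact Subtype.ext this
    · have h3 := Sum.inr.inj hll
      simp only [Sigma.mk.injEq, Subtype.mk.injEq] at h3
      obtain ⟨h4, h5⟩ := h3
      have e1 : b l = b l' ∧ r l = r l' := by
        revert h5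
        have gen : ∀ (a a' : ℕ) (ha : a ∈ Finset.Ico N (M + 1)) (ha' : a' ∈ Finset.Ico N (M + 1))
          (e : a = a') (c : BW a) (c' : BW a')
          (s : {r : List Pt // HL n (a - 1) r ∧ Q (c.1 ++ ng r)})
          (s' : {r : List Pt // HL n (a' - 1) r ∧ Q (c'.1 ++ ng r)}),
          HEq (⟨c, s⟩ : Σ b : BW a, {r : List Pt // HL n (a - 1) r ∧ Q (b.1 ++ ng r)})
            (⟨c', s'⟩ : Σ b : BW a', {r : List Pt // HL n (a' - 1) r ∧ Q (b.1 ++ ng r)}) →
          c.1 = c'.1 ∧ s.1 = s'.1 := by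
          intro a a' ha ha' e
          subst e
          intro c c' s s' hh
          have hh := eq_of_heq hh
          simp only [Sigma.mk.injEq] at hh
          obtain ⟨hc, hs⟩ := hh
          subst hc
          have hs := eq_of_heq hs
          exact ⟨rfl, congrArg _ hs⟩
        intro h5
        exact gen _ _ (hab l h1).1 (hab l' h2).1 h4 _ _ _ _ h5
      apply Subtype.ext
      rw [(hab l h1).2.1, (hab l' h2).2.1, e1.1, e1.2]
  · intro l
    simp only [φ, w]
    split_ifs with h1
    · simp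
    · simp only [Sum.elim_inr]
      rw [← pow_add, (hab l h1).2.2.2.2]

/-- hairpins to the left of `e`, to the right of `c` -/
noncomputable def VL (x z : ℝ≥0∞) (e : List Pt) : ℝ≥0∞ := by
  classical
  exact ∑' c : Br, if Walk (c.1 ++ ng e) then wz x z c.1 else 0

noncomputable def VR (x z : ℝ≥0∞) (c : List Pt) : ℝ≥0∞ := by
  classical
  exact ∑' e : Br, if Walk (c ++ ng e.1) then wz x z e.1 else 0

open Classical in
/-- indicator of hairpins -/
noncomputable def wi (c e : List Pt) : ℝ≥0∞ := if Walk (c ++ ng e) then 1 else 0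

theorem VR_eq (x z : ℝ≥0∞) (c : List Pt) : VR x z c = ∑' e : Br, wi c e.1 * wz x z e.1 := by
  unfold VR wi
  refine tsum_congr fun e => ?_
  split_ifs <;> simp

theorem VV_eq (x z : ℝ≥0∞) : VV x z = ∑' c : Br, wz x z c.1 * VR x z c.1 := by
  classical
  unfold VV
  rw [ENNReal.tsum_prod' (f := fun p : Br × Br =>
    if Walk (p.1.1 ++ ng p.2.1) then wz x z p.1.1 * wz x z p.2.1 else 0)]
  refine tsum_congr fun c => ?_
  rw [VR_eq, ← ENNReal.tsum_mul_left]
  refine tsum_congr fun e => ?_
  unfold wi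
  split_ifs <;> simp

theorem walk_prefix {a b : List Pt} (h : Walk (a ++ b)) : Walk a := by
  have := h.take a.length
  rwa [List.take_left'] at this
  rfl

theorem walk_suffix {a b : List Pt} (h : Walk (a ++ b)) : Walk b := by
  have := h.drop (j := a.length) (by simp)
  rwa [List.drop_left'] at this
  rfl

theorem wi_left (c e f : List Pt) : wi c (e ++ f) ≤ wi c e := by
  unfold wi
  split_ifs with h1 h2 h2
  · exact le_rfl
  · exfalso
    apply h2
    rw [ng_append, ← List.append_assoc] at h1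
    exact walk_prefix h1
  · exact zero_le
  · exact zero_le

theorem hc_right (y : ℝ≥0∞) (n M : ℕ) (e f c : List Pt) :
    mass y (fun r => HL n M r ∧ Walk ((e ++ (f ++ c)) ++ ng r)) ≤
    mass y (fun r => HL n M r ∧ Walk (c ++ ng r)) := by
  refine mass_mono y fun r hr => ⟨hr.1, ?_⟩
  have h := hr.2
  rw [← List.append_assoc, List.append_assoc] at h
  exact walk_suffix h

/-- first bridge long or short -/
theorem split_c {x y K : ℝ≥0∞} {m n N M : ℕ} (hN : 1 ≤ N)
    (hK : ∀ l < m, y ^ l ≤ K * x ^ l) (c : List Pt) :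
    mass y (fun r => HL n M r ∧ Walk (c ++ ng r)) ≤ mass y (HL n (N - 1)) +
      ∑ A ∈ Finset.Ico N (M + 1), (mass y (LoB m n A) * mass y (HL n (A - 1)) +
        K * ∑' b : BW A, x ^ b.1.length * (wi c b.1 *
          mass y (fun r => HL n (A - 1) r ∧ Walk (b.1 ++ ng r)))) := by
  classical
  refine (q_split2 (N := N) (M := M) (Q := fun r => HL n M r ∧ Walk (c ++ ng r)) hN
    (fun l h => h.1)).trans ?_
  refine add_le_add (mass_mono y fun r hr => hr.1) (Finset.sum_le_sum fun A hA => ?_)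
  have key : ∀ b : BW A, y ^ b.1.length *
      mass y (fun r => HL n (A - 1) r ∧ (HL n M (b.1 ++ ng r) ∧ Walk (c ++ ng (b.1 ++ ng r)))) ≤
      (if m ≤ b.1.length ∧ b.1.length ≤ n then y ^ b.1.length else 0) * mass y (HL n (A - 1)) +
      K * (x ^ b.1.length * (wi c b.1 *
          mass y (fun r => HL n (A - 1) r ∧ Walk (b.1 ++ ng r)))) := by
    intro b
    by_cases hex : ∃ r, HL n (A - 1) r ∧ (HL n M (b.1 ++ ng r) ∧ Walk (c ++ ng (b.1 ++ ng r)))
    · obtain ⟨r0, hr0, hq0⟩ := hex
      by_cases hb : b.1.length < m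
      · refine le_trans ?_ le_add_self
        have hw1 : wi c b.1 = 1 := by
          unfold wi
          rw [if_pos]
          have h1 := hq0.2
          rw [ng_append, ← List.append_assoc] at h1
          exact walk_prefix h1
        rw [hw1, one_mul, ← mul_assoc]
        refine mul_le_mul' (hK _ hb) (mass_mono y ?_)
        intro r hr
        exact ⟨hr.1, hr.2.1.1.1.1⟩
      · refine le_trans ?_ le_self_add
        have hn : b.1.length ≤ n := by
          have := hq0.1.2
          rw [List.length_append] at this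
          omega
        rw [if_pos ⟨not_lt.1 hb, hn⟩]
        exact mul_le_mul' le_rfl (mass_mono y fun r hr => hr.1)
    · have : mass y (fun r => HL n (A - 1) r ∧
          (HL n M (b.1 ++ ng r) ∧ Walk (c ++ ng (b.1 ++ ng r)))) = 0 := by
        unfold mass
        have : IsEmpty {r : List Pt // HL n (A - 1) r ∧
            (HL n M (b.1 ++ ng r) ∧ Walk (c ++ ng (b.1 ++ ng r)))} :=
          ⟨fun r => hex ⟨r.1, r.2⟩⟩
        simp
      rw [this, mul_zero]
      exact zero_le
  refine (ENNReal.tsum_le_tsum key).trans ?_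
  rw [ENNReal.tsum_add]
  refine add_le_add ?_ ?_
  · rw [ENNReal.tsum_mul_right]
    refine mul_le_mul' ?_ le_rfl
    have e1 : ∑' b : BW A, (if m ≤ b.1.length ∧ b.1.length ≤ n then y ^ b.1.length else 0)
        = ∑' b : {b : BW A | m ≤ b.1.length ∧ b.1.length ≤ n}, y ^ b.1.1.length := by
      rw [tsum_subtype {b : BW A | m ≤ b.1.length ∧ b.1.length ≤ n}
        (fun b : BW A => y ^ b.1.length)]
      refine tsum_congr (fun b => ?_)
      simp [Set.indicator_apply]
    rw [e1]
    exact tsum_le_inj (fun b : {b : BW A | m ≤ b.1.length ∧ b.1.length ≤ n} =>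
      (⟨b.1.1, b.1.2, b.2.1, b.2.2⟩ : {l : List Pt // LoB m n A l}))
      (fun b b' hbb => by
        have := congrArg (fun t : {l : List Pt // LoB m n A l} => t.1) hbb
        exact Subtype.ext (Subtype.ext this)) (fun b => le_rfl)
  · rw [ENNReal.tsum_mul_left]


/-- weight of a decomposition `b = e j c` -/
noncomputable def kp (x z : ℝ≥0∞) (q : Br × Ir × Br) : ℝ≥0∞ :=
  wz x z q.1.1 * (x ^ q.2.1.1.length * (1 - z ^ sp q.2.1.1)) * wz x z q.2.2.1

/-- span of a decomposition -/
def sq (q : Br × Ir × Br) : ℕ := sp q.1.1 + sp q.2.1.1 + sp q.2.2.1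

theorem sum_kp (x z : ℝ≥0∞) (f g : List Pt → ℝ≥0∞) :
    ∑' q : Br × Ir × Br, kp x z q * (f q.1.1 * g q.2.2.1) =
      (∑' e : Br, f e.1 * wz x z e.1) * kap x z * ∑' c : Br, wz x z c.1 * g c.1 := by
  have h : ∀ q : Br × Ir × Br, kp x z q * (f q.1.1 * g q.2.2.1) =
      (f q.1.1 * wz x z q.1.1) * ((fun p : Ir × Br => (x ^ p.1.1.length * (1 - z ^ sp p.1.1)) *
        (wz x z p.2.1 * g p.2.1)) q.2) := by
    intro q
    unfold kp
    ring
  rw [tsum_congr h]
  rw [tsum_mul (fun e : Br => f e.1 * wz x z e.1)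
    (fun p : Ir × Br => (x ^ p.1.1.length * (1 - z ^ sp p.1.1)) * (wz x z p.2.1 * g p.2.1))]
  rw [tsum_mul (fun j : Ir => x ^ j.1.length * (1 - z ^ sp j.1))
    (fun c : Br => wz x z c.1 * g c.1), ← mul_assoc]
  rfl

theorem sum_ind {α : Type*} (s : Finset ℕ) (g : α → ℕ) (f : α → ℝ≥0∞) :
    ∑ A ∈ s, ∑' q, (if g q = A then f q else 0) ≤ ∑' q, f q := by
  classical
  rw [← Summable.tsum_finsetSum (fun _ _ => ENNReal.summable)]
  refine ENNReal.tsum_le_tsum fun q => ?_
  rw [Finset.sum_ite_eq]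
  split_ifs
  · exact le_rfl
  · exact zero_le

/-- short bridges: cutting -/
theorem short_cut (x y : ℝ≥0∞) {n N A M : ℕ} (hN : 1 ≤ N) (hA : A ∈ Finset.Ico N (2 * N))
    (hM : A - 1 ≤ M) (c : List Pt) :
    ∑' b : BW A, x ^ b.1.length * (wi c b.1 *
          mass y (fun r => HL n (A - 1) r ∧ Walk (b.1 ++ ng r))) ≤
    16 * ∑' q : Br × Ir × Br, if sq q = A then kp x (zN N) q * (wi c q.1.1 *
      mass y (fun r => HL n M r ∧ Walk (q.2.2.1 ++ ng r))) else 0 := by
  rw [Finset.mem_Ico] at hA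
  refine (cut_avg x hN hA.1 hA.2 (fun b => wi c b *
    mass y (fun r => HL n (A - 1) r ∧ Walk (b ++ ng r)))).trans ?_
  refine mul_le_mul' le_rfl (ENNReal.tsum_le_tsum fun q => ?_)
  unfold sq
  split_ifs with h
  · unfold kp
    refine mul_le_mul' le_rfl (mul_le_mul' (wi_left _ _ _) ((hc_right y n (A - 1) _ _ _).trans ?_))
    exact mass_mono y fun r hr => ⟨HL_mono hM hr.1, hr.2⟩
  · exact le_rfl

/-- one step: the continuations of `c` -/
theorem step_one {x y K : ℝ≥0∞} {m n N M : ℕ} (hN : 1 ≤ N) (hM : M < 2 * N)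
    (hK : ∀ l < m, y ^ l ≤ K * x ^ l) {c : List Pt} (hc : Bridge c) :
    mass y (fun r => HL n M r ∧ Walk (c ++ ng r)) ≤ mass y (HL n (N - 1)) +
      (∑ A ∈ Finset.Ico N (2 * N), mass y (LoB m n A)) * YY x y (zN N) n M +
      16 * K * (VR x (zN N) c * kap x (zN N) * YY x y (zN N) n M) := by
  have _ := hc
  refine (split_c (N := N) (M := M) hN hK c).trans ?_
  rw [add_assoc]
  refine add_le_add le_rfl ?_
  rw [Finset.sum_add_distrib]
  refine add_le_add ?_ ?_
  · rw [Finset.sum_mul]
    refine le_trans (Finset.sum_le_sum fun A hA => ?_)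
      (Finset.sum_le_sum_of_subset (Finset.Ico_subset_Ico_right (by omega : M + 1 ≤ 2 * N)))
    rw [Finset.mem_Ico] at hA
    exact mul_le_mul' le_rfl ((HL_le_YY x y (zN N) n (A - 1)).trans (YY_mono _ _ _ _ (by omega)))
  · calc ∑ A ∈ Finset.Ico N (M + 1), K * ∑' b : BW A, x ^ b.1.length * (wi c b.1 *
          mass y (fun r => HL n (A - 1) r ∧ Walk (b.1 ++ ng r)))
        ≤ ∑ A ∈ Finset.Ico N (M + 1), K * (16 * ∑' q : Br × Ir × Br,
          if sq q = A then kp x (zN N) q * (wi c q.1.1 *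
            mass y (fun r => HL n M r ∧ Walk (q.2.2.1 ++ ng r))) else 0) := by
          refine Finset.sum_le_sum fun A hA => mul_le_mul' le_rfl ?_
          rw [Finset.mem_Ico] at hA
          exact short_cut x y hN (Finset.mem_Ico.2 ⟨hA.1, by omega⟩) (by omega) c
      _ = 16 * K * ∑ A ∈ Finset.Ico N (M + 1), ∑' q : Br × Ir × Br,
          (if sq q = A then kp x (zN N) q * (wi c q.1.1 *
            mass y (fun r => HL n M r ∧ Walk (q.2.2.1 ++ ng r))) else 0) := by
          rw [Finset.mul_sum]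
          refine Finset.sum_congr rfl fun A _ => ?_
          ring
      _ ≤ 16 * K * ∑' q : Br × Ir × Br, kp x (zN N) q * (wi c q.1.1 *
            mass y (fun r => HL n M r ∧ Walk (q.2.2.1 ++ ng r))) :=
          mul_le_mul' le_rfl (sum_ind _ _ _)
      _ = _ := by
          rw [sum_kp x (zN N) (fun e => wi c e)
            (fun c' => mass y (fun r => HL n M r ∧ Walk (c' ++ ng r))), ← VR_eq]
          rfl

/-- the recursion -/
theorem YY_rec {x y K : ℝ≥0∞} {m n N : ℕ} (hN : 1 ≤ N) (hK : ∀ l < m, y ^ l ≤ K * x ^ l) :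
    ∃ f1 f2 : ℕ → ℝ≥0∞,
      (∑ A ∈ Finset.Ico N (2 * N), f1 A ≤ VV x (zN N) * kap x (zN N) * UU x (zN N)) ∧
      (∑ A ∈ Finset.Ico N (2 * N), f2 A ≤ VV x (zN N) * kap x (zN N) * VV x (zN N)) ∧
      ∀ M, N - 1 ≤ M → M < 2 * N → YY x y (zN N) n M ≤ UU x (zN N) * mass y (HL n (N - 1)) +
        ∑ A ∈ Finset.Ico N (M + 1), (UU x (zN N) * mass y (LoB m n A) * YY x y (zN N) n (A - 1) +
          16 * K * (f1 A * mass y (HL n (N - 1)) +
            f1 A * (∑ B ∈ Finset.Ico N (2 * N), mass y (LoB m n B)) * YY x y (zN N) n (A - 1) +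
            16 * K * (f2 A * kap x (zN N) * YY x y (zN N) n (A - 1)))) := by
  set z := zN N with hz
  set f : (List Pt → ℝ≥0∞) → ℕ → ℝ≥0∞ := fun g A => ∑' c : Br, wz x z c.1 *
    ∑' q : Br × Ir × Br, if sq q = A then kp x z q * (wi c.1 q.1.1 * g q.2.2.1) else 0 with hf
  have hsum : ∀ g : List Pt → ℝ≥0∞, ∑ A ∈ Finset.Ico N (2 * N), f g A ≤
      VV x z * kap x z * ∑' c : Br, wz x z c.1 * g c.1 := by
    intro g
    simp only [hf]
    rw [← Summable.tsum_finsetSum (fun _ _ => ENNReal.summable)]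
    calc ∑' c : Br, ∑ A ∈ Finset.Ico N (2 * N), wz x z c.1 *
          ∑' q : Br × Ir × Br, (if sq q = A then kp x z q * (wi c.1 q.1.1 * g q.2.2.1) else 0)
        ≤ ∑' c : Br, wz x z c.1 * ∑' q : Br × Ir × Br, kp x z q * (wi c.1 q.1.1 * g q.2.2.1) := by
          refine ENNReal.tsum_le_tsum fun c => ?_
          rw [← Finset.mul_sum]
          exact mul_le_mul' le_rfl (sum_ind _ _ _)
      _ = ∑' c : Br, (wz x z c.1 * VR x z c.1) * (kap x z * ∑' c : Br, wz x z c.1 * g c.1) := by
          refine tsum_congr fun c => ?_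
          rw [sum_kp x z (fun e => wi c.1 e) g, ← VR_eq]
          ring
      _ = _ := by
          rw [ENNReal.tsum_mul_right, ← VV_eq, mul_assoc]
  refine ⟨f (fun _ => 1), f (fun c => VR x z c), ?_, ?_, ?_⟩
  · refine (hsum (fun _ => 1)).trans (le_of_eq ?_)
    simp only [mul_one]
    rfl
  · refine (hsum (fun c => VR x z c)).trans (le_of_eq ?_)
    rw [← VV_eq]
  · intro M _ hM2
    set H := mass y (HL n (N - 1)) with hH
    set L := ∑ B ∈ Finset.Ico N (2 * N), mass y (LoB m n B) with hL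
    calc YY x y z n M ≤ ∑' c : Br, wz x z c.1 * (H + ∑ A ∈ Finset.Ico N (M + 1),
          (mass y (LoB m n A) * mass y (HL n (A - 1)) +
          K * ∑' b : BW A, x ^ b.1.length * (wi c.1 b.1 *
            mass y (fun r => HL n (A - 1) r ∧ Walk (b.1 ++ ng r))))) := by
          unfold YY
          exact ENNReal.tsum_le_tsum fun c => mul_le_mul' le_rfl (split_c hN hK c.1)
      _ ≤ ∑' c : Br, (wz x z c.1 * H + ∑ A ∈ Finset.Ico N (M + 1),
          (wz x z c.1 * (mass y (LoB m n A) * YY x y z n (A - 1)) +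
          16 * K * (wz x z c.1 * ∑' q : Br × Ir × Br, (if sq q = A then kp x z q *
            (wi c.1 q.1.1 * (H + L * YY x y z n (A - 1) +
              16 * K * (VR x z q.2.2.1 * kap x z * YY x y z n (A - 1)))) else 0)))) := by
          refine ENNReal.tsum_le_tsum fun c => ?_
          rw [mul_add, Finset.mul_sum]
          refine add_le_add le_rfl (Finset.sum_le_sum fun A hA => ?_)
          rw [Finset.mem_Ico] at hA
          rw [mul_add]
          refine add_le_add (mul_le_mul' le_rfl (mul_le_mul' le_rfl (HL_le_YY x y z n (A - 1)))) ?_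
          calc wz x z c.1 * (K * ∑' b : BW A, x ^ b.1.length * (wi c.1 b.1 *
                mass y (fun r => HL n (A - 1) r ∧ Walk (b.1 ++ ng r))))
              ≤ wz x z c.1 * (K * (16 * ∑' q : Br × Ir × Br,
                if sq q = A then kp x z q * (wi c.1 q.1.1 *
                  mass y (fun r => HL n (A - 1) r ∧ Walk (q.2.2.1 ++ ng r))) else 0)) := by
                refine mul_le_mul' le_rfl (mul_le_mul' le_rfl ?_)
                exact short_cut x y hN (Finset.mem_Ico.2 ⟨hA.1, by omega⟩) le_rfl c.1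
            _ ≤ wz x z c.1 * (K * (16 * ∑' q : Br × Ir × Br,
                if sq q = A then kp x z q * (wi c.1 q.1.1 * (H + L * YY x y z n (A - 1) +
                  16 * K * (VR x z q.2.2.1 * kap x z * YY x y z n (A - 1)))) else 0)) := by
                refine mul_le_mul' le_rfl (mul_le_mul' le_rfl (mul_le_mul' le_rfl
                  (ENNReal.tsum_le_tsum fun q => ?_)))
                split_ifs
                · refine mul_le_mul' le_rfl (mul_le_mul' le_rfl ?_)
                  exact step_one hN (by omega) hK q.2.2.2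
                · exact le_rfl
            _ = _ := by ring
      _ = UU x z * H + ∑ A ∈ Finset.Ico N (M + 1),
          (UU x z * (mass y (LoB m n A) * YY x y z n (A - 1)) +
          16 * K * ∑' c : Br, wz x z c.1 * ∑' q : Br × Ir × Br, (if sq q = A then kp x z q *
            (wi c.1 q.1.1 * (H + L * YY x y z n (A - 1) +
              16 * K * (VR x z q.2.2.1 * kap x z * YY x y z n (A - 1)))) else 0)) := by
          rw [ENNReal.tsum_add, ENNReal.tsum_mul_right,
            Summable.tsum_finsetSum (fun _ _ => ENNReal.summable)]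
          congr 1
          refine Finset.sum_congr rfl fun A _ => ?_
          rw [ENNReal.tsum_add, ENNReal.tsum_mul_right, ENNReal.tsum_mul_left]
          rfl
      _ = _ := by
          congr 1
          refine Finset.sum_congr rfl fun A _ => ?_
          congr 1
          · ring
          · congr 1
            have e : ∀ c : Br, wz x z c.1 * ∑' q : Br × Ir × Br, (if sq q = A then kp x z q *
                (wi c.1 q.1.1 * (H + L * YY x y z n (A - 1) +
                16 * K * (VR x z q.2.2.1 * kap x z * YY x y z n (A - 1)))) else 0) =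
                (wz x z c.1 * ∑' q : Br × Ir × Br, (if sq q = A then kp x z q *
                  (wi c.1 q.1.1 * 1) else 0)) * (H + L * YY x y z n (A - 1)) +
                (wz x z c.1 * ∑' q : Br × Ir × Br, (if sq q = A then kp x z q *
                  (wi c.1 q.1.1 * VR x z q.2.2.1) else 0)) *
                  (16 * K * (kap x z * YY x y z n (A - 1))) := by
              intro c
              rw [mul_assoc, mul_assoc, ← mul_add, ← ENNReal.tsum_mul_right,
                ← ENNReal.tsum_mul_right, ← ENNReal.tsum_add]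
              congr 1
              refine tsum_congr fun q => ?_
              split_ifs
              · ring
              · simp
            rw [tsum_congr e, ENNReal.tsum_add, ENNReal.tsum_mul_right, ENNReal.tsum_mul_right]
            simp only [hf]
            ring

/-- product and exponential function -/
theorem prod_exp {s : Finset ℕ} {g : ℕ → ℝ≥0∞} {G : ℝ} (hG0 : 0 ≤ G)
    (hG : ∑ A ∈ s, g A ≤ ENNReal.ofReal G) :
    ∏ A ∈ s, (1 + g A) ≤ ENNReal.ofReal (Real.exp G) := by
  classical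
  have hfin : ∀ A ∈ s, g A ≠ ⊤ := by
    intro A hA
    refine ne_top_of_le_ne_top ENNReal.ofReal_ne_top (le_trans ?_ hG)
    exact Finset.single_le_sum (f := g) (fun _ _ => zero_le) hA
  have h1 : ∀ A ∈ s, 1 + g A ≤ ENNReal.ofReal (Real.exp (g A).toReal) := by
    intro A hA
    have h2 := Real.add_one_le_exp (g A).toReal
    calc 1 + g A = ENNReal.ofReal ((g A).toReal + 1) := by
          rw [ENNReal.ofReal_add ENNReal.toReal_nonneg zero_le_one,
            ENNReal.ofReal_toReal (hfin A hA), ENNReal.ofReal_one, add_comm]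
      _ ≤ _ := ENNReal.ofReal_le_ofReal h2
  calc ∏ A ∈ s, (1 + g A) ≤ ∏ A ∈ s, ENNReal.ofReal (Real.exp (g A).toReal) :=
        Finset.prod_le_prod' h1
    _ = ENNReal.ofReal (Real.exp (∑ A ∈ s, (g A).toReal)) := by
        rw [Real.exp_sum, ENNReal.ofReal_prod_of_nonneg (fun _ _ => (Real.exp_pos _).le)]
    _ ≤ ENNReal.ofReal (Real.exp G) := by
        refine ENNReal.ofReal_le_ofReal (Real.exp_le_exp.2 ?_)
        rw [← ENNReal.toReal_sum hfin]
        exact ENNReal.toReal_le_of_le_ofReal hG0 hG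

/-- Grönwall -/
theorem gron {N : ℕ} {Y g : ℕ → ℝ≥0∞} {P : ℝ≥0∞} {G : ℝ} (hG0 : 0 ≤ G)
    (hG : ∑ A ∈ Finset.Ico N (2 * N), g A ≤ ENNReal.ofReal G)
    (h : ∀ M, N - 1 ≤ M → M < 2 * N → Y M ≤ P + ∑ A ∈ Finset.Ico N (M + 1), g A * Y (A - 1))
    (hN : 1 ≤ N) : Y (2 * N - 1) ≤ P * ENNReal.ofReal (Real.exp G) := by
  have key : ∀ k, k ≤ N → P + ∑ A ∈ Finset.Ico N (N + k), g A * Y (A - 1) ≤
      P * ∏ A ∈ Finset.Ico N (N + k), (1 + g A) := by
    intro k
    induction k with
    | zero => simp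
    | succ k ih =>
      intro hk
      have h1 := ih (by omega)
      rw [← add_assoc, Finset.sum_Ico_succ_top (by omega), Finset.prod_Ico_succ_top (by omega),
        ← add_assoc]
      have h2 : Y (N + k - 1) ≤ P + ∑ A ∈ Finset.Ico N (N + k), g A * Y (A - 1) := by
        have := h (N + k - 1) (by omega) (by omega)
        rwa [show N + k - 1 + 1 = N + k by omega] at this
      calc P + ∑ A ∈ Finset.Ico N (N + k), g A * Y (A - 1) + g (N + k) * Y (N + k - 1)
          ≤ P * ∏ A ∈ Finset.Ico N (N + k), (1 + g A) +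
            g (N + k) * (P * ∏ A ∈ Finset.Ico N (N + k), (1 + g A)) :=
            add_le_add h1 (mul_le_mul' le_rfl (h2.trans h1))
        _ = _ := by ring
  have h1 := h (2 * N - 1) (by omega) (by omega)
  rw [show 2 * N - 1 + 1 = N + N by omega] at h1
  refine h1.trans ((key N le_rfl).trans (mul_le_mul' le_rfl ?_))
  rw [← two_mul]
  exact prod_exp hG0 hG

theorem block {x y K : ℝ≥0∞} {m n N : ℕ} (hN : 1 ≤ N) (hu : ∀ t, uu x t ≤ 1)
    (hK : ∀ l < m, y ^ l ≤ K * x ^ l) {lam : ℝ≥0∞}
    (hl : ∑ A ∈ Finset.Ico N (2 * N), mass y (LoB m n A) ≤ lam) {G : ℝ} (hG0 : 0 ≤ G)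
    (hG : UU x (zN N) * lam + 16 * K * lam * VV x (zN N) +
      (16 * K * (VV x (zN N) / UU x (zN N))) ^ 2 ≤ ENNReal.ofReal G) :
    mass y (HL n (2 * N - 1)) ≤ mass y (HL n (N - 1)) * (UU x (zN N) + 16 * K * VV x (zN N)) *
      ENNReal.ofReal (Real.exp G) := by
  obtain ⟨f1, f2, h1, h2, h3⟩ := YY_rec (x := x) (y := y) (K := K) (m := m) (n := n) hN hK
  set z := zN N with hz
  set U := UU x z with hU
  set V := VV x z with hV
  set κ := kap x z with hκ
  set H := mass y (HL n (N - 1)) with hH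
  set L := ∑ B ∈ Finset.Ico N (2 * N), mass y (LoB m n B) with hL
  have hUκ : U * κ ≤ 1 := UU_kap hu (zN_lt_one N)
  have hU1 : 1 ≤ U := one_le_UU x z
  have hU0 : U ≠ 0 := (lt_of_lt_of_le one_pos hU1).ne'
  have hUt : U ≠ ⊤ := ne_top_of_le_ne_top (ENNReal.add_ne_top.2
    ⟨ENNReal.natCast_ne_top N, ENNReal.one_ne_top⟩) (UU_le hu N)
  have hκ1 : κ ≤ U⁻¹ := by
    rw [← one_div, ENNReal.le_div_iff_mul_le (Or.inl hU0) (Or.inl hUt), mul_comm]
    exact hUκ
  have hF1 : ∑ A ∈ Finset.Ico N (2 * N), f1 A ≤ V := by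
    refine h1.trans ?_
    rw [mul_assoc, mul_comm κ]
    exact mul_le_of_le_one_right' hUκ
  have hF2 : (∑ A ∈ Finset.Ico N (2 * N), f2 A) * κ ≤ (V / U) ^ 2 := by
    calc (∑ A ∈ Finset.Ico N (2 * N), f2 A) * κ ≤ (V * U⁻¹ * V) * U⁻¹ := by
          refine mul_le_mul' (h2.trans ?_) hκ1
          gcongr
      _ = (V / U) ^ 2 := by
          rw [div_eq_mul_inv]
          ring
  have hg := gron (N := N) (Y := fun M => YY x y z n M)
    (g := fun A => U * mass y (LoB m n A) + 16 * K * (f1 A * L + 16 * K * (f2 A * κ)))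
    (P := H * (U + 16 * K * V)) hG0 ?_ ?_ hN
  · exact (HL_le_YY x y z n (2 * N - 1)).trans hg
  · refine le_trans ?_ hG
    rw [Finset.sum_add_distrib, ← Finset.mul_sum, ← Finset.mul_sum, Finset.sum_add_distrib,
      ← Finset.sum_mul, ← Finset.mul_sum, ← Finset.sum_mul, ← hL]
    calc U * L + 16 * K * ((∑ A ∈ Finset.Ico N (2 * N), f1 A) * L +
          16 * K * ((∑ A ∈ Finset.Ico N (2 * N), f2 A) * κ))
        ≤ U * lam + 16 * K * (V * lam + 16 * K * (V / U) ^ 2) := by
          gcongr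
      _ = _ := by ring
  · intro M hM1 hM2
    refine (h3 M hM1 hM2).trans ?_
    have e1 : ∑ A ∈ Finset.Ico N (M + 1), (U * mass y (LoB m n A) * YY x y z n (A - 1) +
          16 * K * (f1 A * H + f1 A * L * YY x y z n (A - 1) +
            16 * K * (f2 A * κ * YY x y z n (A - 1)))) =
        16 * K * H * ∑ A ∈ Finset.Ico N (M + 1), f1 A + ∑ A ∈ Finset.Ico N (M + 1),
          (U * mass y (LoB m n A) + 16 * K * (f1 A * L + 16 * K * (f2 A * κ))) *
            YY x y z n (A - 1) := by
      rw [Finset.mul_sum, ← Finset.sum_add_distrib]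
      refine Finset.sum_congr rfl fun A _ => ?_
      ring
    rw [e1, ← add_assoc]
    refine add_le_add ?_ le_rfl
    have h4 : ∑ A ∈ Finset.Ico N (M + 1), f1 A ≤ V :=
      (Finset.sum_le_sum_of_subset (Finset.Ico_subset_Ico_right (by omega : M + 1 ≤ 2 * N))).trans
        hF1
    calc U * H + 16 * K * H * ∑ A ∈ Finset.Ico N (M + 1), f1 A ≤ U * H + 16 * K * H * V := by
          gcongr
      _ = _ := by ring

end Pool.Agent.Work.MP_376faf_co_neps
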