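import Pool.Agent.Work.MP_376faf_co_neps.Defs
import Pool.Agent.Work.MP_376faf_co_hw.Crit

/-! Module Gen: generating functions; hairpins and fold points (sections 0, 5 of note 2994). -/

set_option autoImplicit false

namespace Pool.Agent.Work.MP_376faf_co_neps

open Pool.Agent.Work.MP_376faf_co_lower Pool.Agent.Work.MP_376faf_co_hw
open scoped ENNReal

theorem zN_le_one (N : ℕ) : zN N ≤ 1 := by
  unfold zN
  exact ENNReal.div_le_of_le_mul (by rw [one_mul]; exact le_self_add)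

theorem zN_lt_one (N : ℕ) : zN N < 1 := by
  unfold zN
  refine ENNReal.div_lt_of_lt_mul' ?_
  rw [mul_one]
  have h : (N : ℝ≥0∞) ≠ ⊤ := ENNReal.natCast_ne_top N
  exact ENNReal.lt_add_right h one_ne_zero

theorem wz_nil (x z : ℝ≥0∞) : wz x z [] = 1 := by
  simp [wz, sp]

theorem one_le_UU (x z : ℝ≥0∞) : 1 ≤ UU x z := by
  unfold UU
  rw [← wz_nil x z]
  exact ENNReal.le_tsum (f := fun b : Br => wz x z b.1) ⟨[], bridge_nil⟩

theorem sp_eq {l : List Pt} (h : Bridge l) : ((sp l : ℕ) : ℤ) = l.sum.1 := by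
  unfold sp
  have := sum_nonneg h
  omega

/-- the bridges according to their span -/
theorem tsum_sp (F : List Pt → ℝ≥0∞) :
    ∑' b : Br, F b.1 = ∑' t : ℕ, ∑' l : {l // BridgeW t l}, F l.1 := by
  refine le_antisymm ?_ ?_
  · refine sigma_ge (fun t : ℕ => BridgeW t) Bridge (fun l hl => ⟨sp l, hl, ?_⟩) F
    exact (sp_eq hl).symm
  · refine sigma_le (x := 1) (fun t : ℕ => BridgeW t) Bridge (fun t l hl => hl.1) ?_ F
    intro i j l hi hj
    have h1 := hi.2
    rw [hj.2] at h1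
    exact_mod_cast h1.symm

theorem sp_of_W {t : ℕ} {l : List Pt} (h : BridgeW t l) : sp l = t := by
  have h1 := sp_eq h.1
  rw [h.2] at h1
  exact_mod_cast h1

theorem UU_eq (x z : ℝ≥0∞) : UU x z = ∑' t : ℕ, uu x t * z ^ t := by
  unfold UU
  rw [tsum_sp (wz x z)]
  refine tsum_congr (fun t => ?_)
  unfold uu mass
  rw [← ENNReal.tsum_mul_right]
  refine tsum_congr (fun l => ?_)
  unfold wz
  rw [sp_of_W l.2]

theorem geom_zN (N : ℕ) : ∑' t : ℕ, zN N ^ t = (N : ℝ≥0∞) + 1 := by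
  rw [ENNReal.tsum_geometric]
  have h0 : (N : ℝ≥0∞) + 1 ≠ 0 := by simp
  have h1 : (N : ℝ≥0∞) + 1 ≠ ⊤ := by simp
  have h2 : 1 - zN N = ((N : ℝ≥0∞) + 1)⁻¹ := by
    refine ENNReal.sub_eq_of_eq_add (ne_of_lt ((zN_lt_one N).trans ENNReal.one_lt_top)) ?_
    unfold zN
    rw [div_eq_mul_inv]
    nth_rw 1 [← one_mul (((N : ℝ≥0∞) + 1)⁻¹)]
    rw [← add_mul, add_comm, ENNReal.mul_inv_cancel h0 h1]
  rw [h2, inv_inv]

theorem UU_le {x : ℝ≥0∞} (hu : ∀ t, uu x t ≤ 1) (N : ℕ) : UU x (zN N) ≤ (N : ℝ≥0∞) + 1 := by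
  rw [UU_eq, ← geom_zN N]
  exact ENNReal.tsum_le_tsum (fun t => (mul_le_mul' (hu t) le_rfl).trans (by rw [one_mul]))

/-- the first moment of the span -/
theorem UU_mom {x : ℝ≥0∞} (hu : ∀ t, uu x t ≤ 1) (N : ℕ) :
    ∑' b : Br, wz x (zN N) b.1 * ((sp b.1 : ℝ≥0∞) + 1) ≤ ((N : ℝ≥0∞) + 1) ^ 2 := by
  rw [tsum_sp (fun l => wz x (zN N) l * ((sp l : ℝ≥0∞) + 1))]
  have h1 : ∀ t : ℕ, ∑' l : {l // BridgeW t l}, wz x (zN N) l.1 * ((sp l.1 : ℝ≥0∞) + 1) ≤
      zN N ^ t * ((t : ℝ≥0∞) + 1) := by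
    intro t
    have h2 : ∀ l : {l // BridgeW t l}, wz x (zN N) l.1 * ((sp l.1 : ℝ≥0∞) + 1) =
        x ^ l.1.length * (zN N ^ t * ((t : ℝ≥0∞) + 1)) := by
      intro l
      unfold wz
      rw [sp_of_W l.2, mul_assoc]
    rw [tsum_congr h2, ENNReal.tsum_mul_right]
    exact (mul_le_mul' (hu t) le_rfl).trans (by rw [one_mul])
  refine (ENNReal.tsum_le_tsum h1).trans ?_
  have h3 : (∑' t : ℕ, zN N ^ t * ((t : ℝ≥0∞) + 1)) = (∑' t : ℕ, zN N ^ t) * ∑' t : ℕ, zN N ^ t := by
    rw [← tsum_mul]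
    rw [← Finset.HasAntidiagonal.sigmaAntidiagonalEquivProd.tsum_eq, ENNReal.tsum_sigma']
    refine tsum_congr (fun t => ?_)
    rw [tsum_fintype]
    have : ∀ p : (Finset.HasAntidiagonal.antidiagonal t : Finset (ℕ × ℕ)),
        zN N ^ (Finset.HasAntidiagonal.sigmaAntidiagonalEquivProd ⟨t, p⟩).1 *
          zN N ^ (Finset.HasAntidiagonal.sigmaAntidiagonalEquivProd ⟨t, p⟩).2 = zN N ^ t := by
      intro p
      rw [← pow_add]
      congr 1
      exact Finset.HasAntidiagonal.mem_antidiagonal.1 p.2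
    rw [Finset.sum_congr rfl (fun p _ => this p), Finset.sum_const, Finset.card_univ,
      Fintype.card_coe, Finset.Nat.card_antidiagonal, nsmul_eq_mul, mul_comm]
    push_cast
    rfl
  rw [h3, geom_zN, sq]

/-! ### hairpins -/

theorem sum_fo (x z : ℝ≥0∞) : ∑' b : Br, wz x z b.1 * (fo b.1).card =
    ∑' p : (Σ b : Br, {t // t ∈ fo b.1}), wz x z p.1.1 := by
  rw [ENNReal.tsum_sigma' (f := fun p : (Σ b : Br, {t // t ∈ fo b.1}) => wz x z p.1.1)]
  refine tsum_congr (fun b => ?_)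
  simp only
  rw [tsum_fintype, Finset.sum_const, Finset.card_univ, Fintype.card_coe, nsmul_eq_mul, mul_comm]

theorem cut_col_inj {w : List Pt} (hw : Bridge w) {i j : ℕ} (hi : i ≤ w.length)
    (hj : j ≤ w.length) (h1 : Cut w i) (h2 : Cut w j) (h : col w i = col w j) : i = j := by
  have a1 := hw.nonneg hi
  have a2 := hw.nonneg hj
  unfold col at h
  rcases lt_trichotomy i j with h3 | h3 | h3
  · have := h1.2 j h3 hj; omega
  · exact h3
  · have := h2.2 i h3 hi; omega

/-- the pair `c`, `e` is a hairpin whose last step before the turn is `(0, 1)` -/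
def Cp (c e : List Pt) : Prop := Walk (c ++ ng e) ∧ c ≠ [] ∧ e ≠ [] ∧
  pos c c.length = pos c (c.length - 1) + (0, 1)

theorem wz_append {x z : ℝ≥0∞} {c e : List Pt} (hc : Bridge c) (he : Bridge e) :
    wz x z (c ++ e) = wz x z c * wz x z e := by
  have h1 : sp (c ++ e) = sp c + sp e := by
    have h2 := sp_eq (bridge_append hc he)
    rw [List.sum_append, Prod.fst_add, ← sp_eq hc, ← sp_eq he] at h2
    exact_mod_cast h2
  unfold wz
  rw [h1, List.length_append, pow_add, pow_add]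
  ring

theorem sp_ry (l : List Pt) : sp (ry l) = sp l := by
  unfold sp
  rw [ry_sum]

theorem wz_ry (x z : ℝ≥0∞) (l : List Pt) : wz x z (ry l) = wz x z l := by
  unfold wz
  rw [sp_ry, ry_length]

theorem Cp.FP {c e : List Pt} (hc : Bridge c) (he : Bridge e) (h : Cp c e) :
    FP (c ++ ry e) c.length := by
  have hc0 : 0 < c.length := List.length_pos_iff.2 h.2.1
  have he0 : 0 < e.length := List.length_pos_iff.2 h.2.2.1
  refine ⟨hc0, ?_, ⟨?_, ?_⟩, ?_, ?_⟩
  · rw [List.length_append, ry_length]; omega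
  · intro j hj
    rw [pos_append_left _ _ hj, pos_append_left _ _ le_rfl]
    exact hc.le_end hj
  · intro j h1 h2
    rw [List.length_append, ry_length] at h2
    obtain ⟨i, rfl⟩ : ∃ i, j = c.length + i := ⟨j - c.length, by omega⟩
    rw [pos_append_right, pos_append_left _ _ le_rfl, pos_len, Prod.fst_add]
    have := ((ry_bridge he).2 i (by omega) (by rw [ry_length]; omega)).1
    omega
  · rw [List.take_left', List.drop_left', map_fl_ry]
    · exact h.1
    · rfl
    · rfl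
  · rw [pos_append_left _ _ le_rfl, pos_append_left _ _ (by omega)]
    exact h.2.2.2

theorem Cp_sum (x z : ℝ≥0∞) : ∑' p : {p : Br × Br // Cp p.1.1 p.2.1},
    wz x z p.1.1.1 * wz x z p.1.2.1 ≤ ∑' b : Br, wz x z b.1 * (fo b.1).card := by
  rw [sum_fo]
  have hF : ∀ p : {p : Br × Br // Cp p.1.1 p.2.1},
      col (p.1.1.1 ++ ry p.1.2.1) p.1.1.1.length ∈ fo (p.1.1.1 ++ ry p.1.2.1) := by
    classical
    intro p
    unfold fo
    refine Finset.mem_image.2 ⟨p.1.1.1.length, Finset.mem_filter.2 ⟨?_, ?_⟩, rfl⟩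
    · rw [Finset.mem_range, List.length_append]; omega
    · exact Cp.FP p.1.1.2 p.1.2.2 p.2
  refine tsum_le_inj (fun p : {p : Br × Br // Cp p.1.1 p.2.1} =>
    (⟨⟨p.1.1.1 ++ ry p.1.2.1, bridge_append p.1.1.2 (ry_bridge p.1.2.2)⟩, ⟨_, hF p⟩⟩ :
      (Σ b : Br, {t // t ∈ fo b.1}))) ?_ ?_
  · rintro ⟨⟨⟨c, hc⟩, ⟨e, he⟩⟩, h⟩ ⟨⟨⟨c', hc'⟩, ⟨e', he'⟩⟩, h'⟩ hab
    simp only at h h' hab
    have h1 : c ++ ry e = c' ++ ry e' :=
      congrArg (fun p : (Σ b : Br, {t // t ∈ fo b.1}) => p.1.1) hab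
    have h2 : col (c ++ ry e) c.length = col (c' ++ ry e') c'.length :=
      congrArg (fun p : (Σ b : Br, {t // t ∈ fo b.1}) => p.2.1) hab
    have f1 := Cp.FP hc he h
    have f2 := Cp.FP hc' he' h'
    rw [← h1] at h2 f2
    have h3 := cut_col_inj (bridge_append hc (ry_bridge he)) f1.2.1.le f2.2.1.le f1.2.2.1
      f2.2.2.1 h2
    obtain ⟨h4, h5⟩ := List.append_inj h1 h3
    have h6 : e = e' := by rw [← ry_ry e, h5, ry_ry]
    subst h4 h6
    rfl
  · intro p
    simp only
    rw [wz_append p.1.1.2 (ry_bridge p.1.2.2), wz_ry]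

theorem pos_ng_cons {e : List Pt} (he : Bridge e) (h0 : e ≠ []) : ∃ e', e = eE :: e' := by
  cases e with
  | nil => exact absurd rfl h0
  | cons s l => exact ⟨l, by rw [head_eq he]⟩

/-- a hairpin turns after a vertical step -/
theorem hairpin_cases {c e : List Pt} (hc : Bridge c) (he : Bridge e) (h : Walk (c ++ ng e))
    (h1 : c ≠ []) (h2 : e ≠ []) : Cp c e ∨ Cp (ry c) (ry e) := by
  have hc0 : 0 < c.length := List.length_pos_iff.2 h1
  have he0 : 0 < e.length := List.length_pos_iff.2 h2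
  obtain ⟨n, hn⟩ : ∃ n, c.length = n + 1 := ⟨c.length - 1, by omega⟩
  have hn1 : n < c.length := by omega
  have e1 := pos_succ c hn1
  have hu := hc.1.1 _ (List.getElem_mem hn1)
  obtain ⟨e', he'⟩ := pos_ng_cons he h2
  have hm := hc.le_end hn1.le
  rw [hn] at hm
  rw [e1, Prod.fst_add] at hm
  obtain ⟨s, hs⟩ : ∃ s : Pt, s = (c)[n] := ⟨_, rfl⟩
  rw [← hs] at e1 hu hm
  -- the vertices before and after the turn
  have p1 : pos (c ++ ng e) n = pos c n := pos_append_left _ _ (by omega)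
  have p2 : pos (c ++ ng e) (n + 2) = pos c n + s - eE := by
    have := pos_append_right c (ng e) 1
    rw [hn] at this
    rw [show n + 2 = n + 1 + 1 from rfl, this, ← pos_len, hn, e1, pos_ng, he']
    simp [pos, sub_eq_add_neg]
  have hne : s ≠ eE := by
    intro hse
    have hh := h.2 (show n ∈ Set.Iic (c ++ ng e).length by
      simp only [Set.mem_Iic, List.length_append]; omega)
      (show n + 2 ∈ Set.Iic (c ++ ng e).length by
      simp only [Set.mem_Iic, List.length_append, ng_length]; omega)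
      (by rw [p1, p2, hse]; abel)
    omega
  have hs2 : s = (0, 1) ∨ s = (0, -1) := by
    unfold Un at hu
    have a1 := abs_nonneg s.2
    have a2 := abs_nonneg s.1
    have b1 : s.1 = 0 := by
      by_contra hb
      have : s.1 ≠ 0 := hb
      have c1 : |s.1| ≠ 0 := abs_ne_zero.2 this
      have c2 : |s.2| = 0 := by omega
      have c3 : |s.1| = 1 := by omega
      have c4 : s.2 = 0 := abs_eq_zero.1 c2
      have c5 : 0 ≤ s.1 := by omega
      rw [abs_of_nonneg c5] at c3
      exact hne (Prod.ext c3 c4)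
    rw [b1, abs_zero, zero_add] at hu
    rcases (abs_eq one_pos.le).1 hu with h3 | h3
    · exact Or.inl (Prod.ext b1 h3)
    · exact Or.inr (Prod.ext b1 h3)
  rcases hs2 with h3 | h3
  · left
    refine ⟨h, h1, h2, ?_⟩
    rw [hn, Nat.add_sub_cancel, e1, h3]
  · right
    refine ⟨?_, ?_, ?_, ?_⟩
    · have : ry c ++ ng (ry e) = ry (c ++ ng e) := by
        rw [ry_append]
        congr 1
        unfold ry ng
        rw [List.map_map, List.map_map]
        congr 1
      rw [this]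
      exact ry_walk h
    · rw [← List.length_pos_iff, ry_length]; exact hc0
    · rw [← List.length_pos_iff, ry_length]; exact he0
    · rw [ry_length, pos_ry, pos_ry, hn, Nat.add_sub_cancel, e1, h3]
      refine Prod.ext ?_ ?_
      · simp
      · simp only [Prod.snd_add]
        ring

/-- reflection of pairs of bridges -/
def ryE : Br × Br ≃ Br × Br where
  toFun p := (⟨ry p.1.1, ry_bridge p.1.2⟩, ⟨ry p.2.1, ry_bridge p.2.2⟩)
  invFun p := (⟨ry p.1.1, ry_bridge p.1.2⟩, ⟨ry p.2.1, ry_bridge p.2.2⟩)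
  left_inv p := by simp
  right_inv p := by simp

/-- hairpins are fold points: pairs `(c, e)` with `c = []` or `e = []`; the last step of `c` is
`(0, 1)`: pair `(c, ry e)` gives the bridge `c ++ ry e` with the fold point `c.length`; the last step
of `c` is `(0, -1)`: reflect. -/
theorem VV_le_fo (x z : ℝ≥0∞) :
    VV x z ≤ 2 * UU x z + 2 * ∑' b : Br, wz x z b.1 * (fo b.1).card := by
  classical
  set G : Br × Br → ℝ≥0∞ := fun p => if Cp p.1.1 p.2.1 then wz x z p.1.1 * wz x z p.2.1 else 0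
    with hG
  set n0 : Br := ⟨[], bridge_nil⟩ with hn0
  have hVV : VV x z = ∑' p : Br × Br,
      if Walk (p.1.1 ++ ng p.2.1) then wz x z p.1.1 * wz x z p.2.1 else 0 := by
    unfold VV
    refine tsum_congr (fun p => ?_)
    by_cases h : Walk (p.1.1 ++ ng p.2.1) <;> simp [h]
  have h1 : ∀ p : Br × Br,
      (if Walk (p.1.1 ++ ng p.2.1) then wz x z p.1.1 * wz x z p.2.1 else 0) ≤
      (if p.1 = n0 then 1 else 0) * wz x z p.2.1 + wz x z p.1.1 * (if p.2 = n0 then 1 else 0) +
        (G p + G (ryE p)) := by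
    rintro ⟨c, e⟩
    by_cases h : Walk (c.1 ++ ng e.1)
    · simp only [h, if_true]
      by_cases hc : c = n0
      · refine le_trans ?_ (le_trans le_self_add le_self_add)
        simp only [hc, if_true, hn0, wz_nil, one_mul]
        exact le_rfl
      by_cases he : e = n0
      · refine le_trans ?_ (le_trans le_add_self le_self_add)
        simp only [he, if_true, hn0, wz_nil, mul_one]
        exact le_rfl
      have hc1 : c.1 ≠ [] := fun h => hc (Subtype.ext h)
      have he1 : e.1 ≠ [] := fun h => he (Subtype.ext h)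
      rcases hairpin_cases c.2 e.2 h hc1 he1 with h2 | h2
      · refine le_trans ?_ (le_trans le_self_add le_add_self)
        simp only [hG, h2, if_true]
        exact le_rfl
      · refine le_trans ?_ (le_trans le_add_self le_add_self)
        simp only [hG, ryE, Equiv.coe_fn_mk, h2, if_true, wz_ry]
        exact le_rfl
    · simp [h]
  have h2 : ∑' a : Br, (if a = n0 then (1 : ℝ≥0∞) else 0) = 1 := tsum_ite_eq n0 (fun _ => 1)
  have h3 : ∑' p, G p ≤ ∑' b : Br, wz x z b.1 * (fo b.1).card := by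
    have h4 : ∑' p, G p = ∑' p : {p : Br × Br // Cp p.1.1 p.2.1},
        wz x z p.1.1.1 * wz x z p.1.2.1 := by
      have := tsum_subtype {p : Br × Br | Cp p.1.1 p.2.1} (fun p => wz x z p.1.1 * wz x z p.2.1)
      refine Eq.trans ?_ this.symm
      refine tsum_congr (fun p => ?_)
      simp only [hG, Set.indicator, Set.mem_ofPred_eq]
    rw [h4]
    exact Cp_sum x z
  rw [hVV]
  refine (ENNReal.tsum_le_tsum h1).trans ?_
  rw [ENNReal.tsum_add, ENNReal.tsum_add, ENNReal.tsum_add,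
    tsum_mul (fun a : Br => if a = n0 then (1 : ℝ≥0∞) else 0) (fun b : Br => wz x z b.1),
    tsum_mul (fun b : Br => wz x z b.1) (fun a : Br => if a = n0 then (1 : ℝ≥0∞) else 0), h2,
    one_mul, mul_one, ryE.tsum_eq G, two_mul, two_mul]
  exact add_le_add le_rfl (add_le_add h3 h3)

end Pool.Agent.Work.MP_376faf_co_neps
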