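import Mathlib

/-! The S-lemma: folding a bridge at two fold points of the same sign gives a self-avoiding
walk. Parity argument. -/

set_option autoImplicit false

namespace Pool.Agent.Work.MP_376faf_co_neps.Abs

open Finset

/-- indicator (mod 2): step i of the path (a, y) is a horizontal edge between columns
c - 1 and c, below height h -/
def ee (a y : ℕ → ℤ) (c h : ℤ) (i : ℕ) : ZMod 2 :=
  if y i < h ∧ ((a i = c - 1 ∧ a (i + 1) = c) ∨ (a i = c ∧ a (i + 1) = c - 1)) then 1 else 0

/-- indicator (mod 2): the point with index i is in column c below height h -/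
def gg (a y : ℕ → ℤ) (c h : ℤ) (i : ℕ) : ZMod 2 := if a i = c ∧ y i < h then 1 else 0

/-- indicator (mod 2): step i is the vertical edge from (c, h-1) to (c, h) or back -/
def vv (a y : ℕ → ℤ) (c h : ℤ) (i : ℕ) : ZMod 2 :=
  if a i = c ∧ a (i + 1) = c ∧ ((y i = h ∧ y (i + 1) = h - 1) ∨ (y i = h - 1 ∧ y (i + 1) = h))
    then 1 else 0

/-- unit step -/
def US (a y : ℕ → ℤ) (i : ℕ) : Prop := |a (i + 1) - a i| + |y (i + 1) - y i| = 1

theorem US.cases {a y : ℕ → ℤ} {i : ℕ} (h : US a y i) :
    (a (i + 1) = a i + 1 ∧ y (i + 1) = y i) ∨ (a (i + 1) = a i - 1 ∧ y (i + 1) = y i) ∨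
    (a (i + 1) = a i ∧ y (i + 1) = y i + 1) ∨ (a (i + 1) = a i ∧ y (i + 1) = y i - 1) := by
  unfold US at h
  rcases abs_cases (a (i + 1) - a i) with h1 | h1 <;>
  rcases abs_cases (y (i + 1) - y i) with h2 | h2 <;> omega

theorem two_zero : (1 : ZMod 2) + 1 = 0 := by decide

theorem tele_step {a y : ℕ → ℤ} {i : ℕ} (hs : US a y i) (c h : ℤ) :
    gg a y c h (i + 1) + gg a y c h i = ee a y c h i + ee a y (c + 1) h i + vv a y c h i := by
  unfold gg ee vv
  rcases hs.cases with ⟨h1, h2⟩ | ⟨h1, h2⟩ | ⟨h1, h2⟩ | ⟨h1, h2⟩ <;> rw [h1, h2] <;>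
  split_ifs <;> first | omega | decide

theorem tele {a y : ℕ → ℤ} (m : ℕ) (hs : ∀ i < m, US a y i) (c h : ℤ) :
    gg a y c h m + gg a y c h 0 = ∑ i ∈ range m, ee a y c h i + ∑ i ∈ range m, ee a y (c + 1) h i +
      ∑ i ∈ range m, vv a y c h i := by
  induction m with
  | zero => simp only [range_zero, sum_empty, add_zero]; exact CharTwo.add_self_eq_zero _
  | succ m ih =>
    have h1 := ih (fun i hi => hs i (by omega))
    have h2 := tele_step (hs m (by omega)) c h
    rw [sum_range_succ, sum_range_succ, sum_range_succ]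
    have h3 : gg a y c h (m + 1) + gg a y c h 0 =
        (gg a y c h (m + 1) + gg a y c h m) + (gg a y c h m + gg a y c h 0) := by
      have := CharTwo.add_self_eq_zero (gg a y c h m)
      linear_combination (-1 : ZMod 2) * this
    rw [h3, h1, h2]
    ring

/-- parity of the number of horizontal edges between columns c-1 and c below height h -/
def NN (n : ℕ) (a y : ℕ → ℤ) (c h : ℤ) : ZMod 2 := ∑ i ∈ range n, ee a y c h i

theorem NN_vert {n : ℕ} {a y : ℕ → ℤ} (c h : ℤ)
    (he : ∀ i < n, ¬ (y i = h ∧ ((a i = c - 1 ∧ a (i + 1) = c) ∨ (a i = c ∧ a (i + 1) = c - 1)))) :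
    NN n a y c (h + 1) = NN n a y c h := by
  unfold NN
  refine sum_congr rfl (fun i hi => ?_)
  have := he i (mem_range.1 hi)
  unfold ee
  split_ifs with h1 h2 h2
  · rfl
  · exfalso
    apply this
    refine ⟨?_, h1.2⟩
    have h3 : ¬ (y i < h) := fun h3 => h2 ⟨h3, h1.2⟩
    have := h1.1
    omega
  · exfalso
    apply h1
    exact ⟨by have := h2.1; omega, h2.2⟩
  · rfl

theorem NN_hor {n : ℕ} {a y : ℕ → ℤ} (hs : ∀ i < n, US a y i) (c h : ℤ)
    (hA : ∀ i ≤ n, ¬ (a i = c ∧ y i = h)) (h0 : a 0 ≠ c) (hn : a n ≠ c) :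
    NN n a y (c + 1) h = NN n a y c h := by
  have h1 := tele n hs c h
  have h2 : gg a y c h n = 0 := by unfold gg; rw [if_neg]; exact fun h => hn h.1
  have h3 : gg a y c h 0 = 0 := by unfold gg; rw [if_neg]; exact fun h => h0 h.1
  have h4 : ∑ i ∈ range n, vv a y c h i = 0 := by
    refine sum_eq_zero (fun i hi => ?_)
    have hi := mem_range.1 hi
    unfold vv
    rw [if_neg]
    rintro ⟨h5, h6, h7 | h7⟩
    · exact hA i (by omega) ⟨h5, h7.1⟩
    · exact hA (i + 1) (by omega) ⟨h6, h7.2⟩
  rw [h2, h3, h4, add_zero, add_zero] at h1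
  change 0 = NN n a y c h + NN n a y (c + 1) h at h1
  have := CharTwo.add_self_eq_zero (NN n a y c h)
  linear_combination (-1 : ZMod 2) * h1 + (-1 : ZMod 2) * this

/-- The S-lemma (only the part which is not one of the two single folds). -/
theorem s_core (n : ℕ) (x y : ℕ → ℤ) (hs : ∀ i < n, US x y i)
    (hinj : ∀ i ≤ n, ∀ j ≤ n, x i = x j → y i = y j → i = j)
    (x0 : x 0 = 0) (σ τ ρ ρ' : ℕ) (t t' d d' : ℤ)
    (hρσ : ρ ≤ σ) (hστ : σ < τ) (hτρ : τ ≤ ρ') (hρn : ρ' ≤ n)
    (hσ0 : 0 < σ) (hτn : τ < n)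
    (hσx : x σ = t) (hσl : ∀ i ≤ σ, x i ≤ t) (hσr : ∀ i ≤ n, σ < i → t < x i)
    (hτx : x τ = t') (hτl : ∀ i ≤ τ, x i ≤ t') (hτr : ∀ i ≤ n, τ < i → t' < x i)
    (hσu : x (σ - 1) = x σ ∧ y (σ - 1) + 1 = y σ) (hτu : x (τ - 1) = x τ ∧ y (τ - 1) + 1 = y τ)
    (hft : ∀ i ≤ σ, ∀ j ≤ n, σ < j → x i = 2 * t - x j → y i = y j → False)
    (hft' : ∀ i ≤ τ, ∀ j ≤ n, τ < j → x i = 2 * t' - x j → y i = y j → False)
    (hT1 : t' - t < t) (hT3 : t' - t ≤ x n - t')
    (hd : t' - t ≤ d) (hd2 : d ≤ x n - t) (hρl : ∀ i ≤ ρ, x i ≤ t - d)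
    (hρr : ∀ i ≤ n, ρ < i → t - d < x i)
    (hd' : t' - t ≤ d') (hd2' : d' ≤ t') (hρl' : ∀ i ≤ ρ', x i ≤ t' + d')
    (hρr' : ∀ i ≤ n, ρ' < i → t' + d' < x i) :
    ∀ i ≤ σ, ∀ k ≤ n, τ < k → x i = x k - 2 * (t' - t) → y i = y k → False := by
  have htt : t < t' := by rw [← hτx]; exact hσr τ (by omega) hστ
  set a : ℕ → ℤ := fun i => 2 * t - x i with ha
  have hsa : ∀ i < n, US a y i := by
    intro i hi
    have := hs i hi
    unfold US at this ⊢
    rw [← this]
    congr 1
    rw [ha]
    simp only
    rw [show 2 * t - x (i + 1) - (2 * t - x i) = -(x (i + 1) - x i) by ring, abs_neg]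
  have ha0 : a 0 = 2 * t := by rw [ha]; simp [x0]
  have han : a n = 2 * t - x n := rfl
  have hai : ∀ i, a i = 2 * t - x i := fun i => rfl
  -- R' avoids A
  have hR : ∀ k ≤ n, τ < k → ∀ m ≤ n, ¬ (a m = x k - 2 * (t' - t) ∧ y m = y k) := by
    rintro k hk hτk m hm ⟨h1, h2⟩
    rcases Nat.lt_or_ge τ m with h3 | h3
    · have h4 := hτr m hm h3
      have h5 := hτr k hk hτk
      rw [hai] at h1
      omega
    · exact hft' m h3 k hk hτk (by rw [hai] at h1; omega) h2
  -- L avoids A[σ..n]
  have hL : ∀ j < σ, ∀ m ≤ n, σ ≤ m → ¬ (a m = x j ∧ y m = y j) := by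
    rintro j hj m hm hσm ⟨h1, h2⟩
    rw [hai] at h1
    rcases Nat.lt_or_ge σ m with h3 | h3
    · exact hft j (by omega) m hm h3 (by omega) h2.symm
    · have : m = σ := by omega
      subst this
      have := hinj m hm j (by omega) (by omega) h2
      omega
  -- the left part has parity 0
  have hbase : NN n a y t (y σ - 1) = 0 := by
    unfold NN
    refine sum_eq_zero (fun i hi => ?_)
    have hi := mem_range.1 hi
    unfold ee
    rw [if_neg]
    rintro ⟨h1, h2⟩
    simp only [hai] at h2
    rcases Nat.lt_trichotomy i σ with h3 | h3 | h3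
    · have h4 := hσl i (by omega)
      have h5 := hσl (i + 1) (by omega)
      omega
    · subst h3; omega
    · have h4 := hσr i (by omega) h3
      have h5 := hσr (i + 1) (by omega) (by omega)
      omega
  have hleft : ∀ m : ℕ, ρ < σ - 1 - m → m ≤ σ - 1 → NN n a y (x (σ - 1 - m)) (y (σ - 1 - m)) = 0 := by
    intro m
    induction m with
    | zero =>
      intro _ _
      have h1 : x (σ - 1 - 0) = t := by rw [Nat.sub_zero, hσu.1, hσx]
      have h2 : y (σ - 1 - 0) = y σ - 1 := by rw [Nat.sub_zero]; omega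
      rw [h1, h2]; exact hbase
    | succ m ih =>
      intro h1 h2
      have h3 := ih (by omega) (by omega)
      obtain ⟨j, hj⟩ : ∃ j, j = σ - 1 - (m + 1) := ⟨_, rfl⟩
      have hj1 : σ - 1 - m = j + 1 := by omega
      rw [← hj] at h1 ⊢
      rw [hj1] at h3
      have hjσ : j + 1 < σ := by omega
      have hxj := hσl j (by omega)
      have hxj1 := hσl (j + 1) (by omega)
      have hxjr := hρr j (by omega) h1
      have hxjr1 := hρr (j + 1) (by omega) (by omega)
      -- no left edge at points of L
      have hedge : ∀ j' < σ, x j' ≤ t → ∀ i < n, ¬ (y i = y j' ∧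
          ((a i = x j' - 1 ∧ a (i + 1) = x j') ∨ (a i = x j' ∧ a (i + 1) = x j' - 1))) := by
        rintro j' hj' hxj' i hi ⟨h4, h5 | h5⟩
        · -- a (i+1) = x j', a i = x j' - 1 < t so i > sigma
          have h6 : σ < i := by
            by_contra h6
            have := hσl i (by omega)
            rw [hai, hai] at h5
            omega
          have hus := (hsa i hi).cases
          have h7 : y (i + 1) = y i := by omega
          exact hL j' hj' (i + 1) (by omega) (by omega) ⟨h5.2, by omega⟩
        · have h6 : σ < i + 1 := by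
            by_contra h6
            have := hσl (i + 1) (by omega)
            rw [hai, hai] at h5
            omega
          exact hL j' hj' i (by omega) (by omega) ⟨h5.1, h4⟩
      rcases (hs j (by omega)).cases with ⟨h4, h5⟩ | ⟨h4, h5⟩ | ⟨h4, h5⟩ | ⟨h4, h5⟩
      · -- x (j+1) = x j + 1: left point b_j
        rw [h4, h5] at h3
        rw [← h3]
        refine (NN_hor hsa (x j) (y j) ?_ ?_ ?_).symm
        · rintro i hi ⟨h6, h7⟩
          rcases Nat.lt_or_ge i σ with h8 | h8
          · have := hσl i (by omega)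
            rw [hai] at h6
            omega
          · exact hL j (by omega) i hi h8 ⟨h6, h7⟩
        · rw [ha0]; omega
        · rw [han]; omega
      · -- x (j+1) = x j - 1: left point b_(j+1)
        have h9 : x j = x (j + 1) + 1 := by omega
        rw [h9, ← h5, ← h3]
        refine NN_hor hsa (x (j + 1)) (y (j + 1)) ?_ ?_ ?_
        · rintro i hi ⟨h6, h7⟩
          rcases Nat.lt_or_ge i σ with h8 | h8
          · have := hσl i (by omega)
            rw [hai] at h6
            omega
          · exact hL (j + 1) (by omega) i hi h8 ⟨h6, h7⟩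
        · rw [ha0]; omega
        · rw [han]; omega
      · rw [h4, h5, NN_vert] at h3
        · exact h3
        · intro i hi h6
          exact hedge j (by omega) hxj i hi h6
      · have h9 : y j = y (j + 1) + 1 := by omega
        rw [h9, ← h4, NN_vert]
        · exact h3
        · intro i hi h6
          exact hedge (j + 1) (by omega) hxj1 i hi h6
  -- the right part has parity 1
  have hq : a τ = t - (t' - t) := by rw [hai, hτx]; ring
  have hbase' : NN n a y (t - (t' - t) + 1) (y τ) = 1 := by
    have h1 := tele τ (fun i hi => hsa i (by omega)) (t - (t' - t)) (y τ)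
    have h2 : gg a y (t - (t' - t)) (y τ) τ = 0 := by
      unfold gg; rw [if_neg]; rintro ⟨_, h⟩; exact lt_irrefl _ h
    have h3 : gg a y (t - (t' - t)) (y τ) 0 = 0 := by
      unfold gg; rw [if_neg]; rintro ⟨h, _⟩; rw [ha0] at h; omega
    have h4 : ∑ i ∈ range τ, ee a y (t - (t' - t)) (y τ) i = 0 := by
      refine sum_eq_zero (fun i hi => ?_)
      have hi := mem_range.1 hi
      unfold ee
      rw [if_neg]
      rintro ⟨_, h5⟩
      simp only [hai] at h5
      have h6 := hτl i (by omega)
      have h7 := hτl (i + 1) (by omega)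
      omega
    have h5 : ∑ i ∈ range τ, vv a y (t - (t' - t)) (y τ) i = 1 := by
      rw [sum_eq_single_of_mem (τ - 1) (mem_range.2 (by omega))]
      · unfold vv
        rw [if_pos]
        have h6 : τ - 1 + 1 = τ := by omega
        rw [h6]
        refine ⟨?_, hq, Or.inr ⟨by omega, rfl⟩⟩
        rw [hai, hτu.1, hτx]; ring
      · intro i hi h6
        have hi := mem_range.1 hi
        unfold vv
        rw [if_neg]
        rintro ⟨h7, h8, h9 | h9⟩
        · have := hinj i (by omega) τ (by omega) (by rw [hai] at h7; omega) h9.1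
          omega
        · have := hinj (i + 1) (by omega) τ (by omega) (by rw [hai] at h8; omega) h9.2
          omega
    rw [h2, h3, h4, h5] at h1
    have h6 : NN n a y (t - (t' - t) + 1) (y τ) =
        ∑ i ∈ range τ, ee a y (t - (t' - t) + 1) (y τ) i := by
      unfold NN
      symm
      refine sum_subset (fun i hi => mem_range.2 (by have := mem_range.1 hi; omega)) ?_
      intro i hi h6
      have hi := mem_range.1 hi
      have h7 : τ ≤ i := by
        by_contra h7
        exact h6 (mem_range.2 (by omega))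
      unfold ee
      rw [if_neg]
      rintro ⟨_, h8⟩
      simp only [hai] at h8
      have h9 := hτr (i + 1) (by omega) (by omega)
      rcases Nat.lt_or_ge τ i with h10 | h10
      · have := hτr i (by omega) h10
        omega
      · have h11 : i = τ := by omega
        subst h11
        omega
    rw [h6]
    have h7 : (0 : ZMod 2) = ∑ i ∈ range τ, ee a y (t - (t' - t) + 1) (y τ) i + 1 := by
      rw [zero_add, zero_add] at h1
      exact h1
    have h8 := two_zero
    linear_combination (-1 : ZMod 2) * h7 + (-1 : ZMod 2) * h8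
  have hright : ∀ m : ℕ, τ + 1 + m ≤ ρ' →
      NN n a y (x (τ + 1 + m) - 2 * (t' - t)) (y (τ + 1 + m)) = 1 := by
    intro m
    induction m with
    | zero =>
      intro h1
      have h2 := hτr (τ + 1) (by omega) (by omega)
      have h3 := (hs τ (by omega)).cases
      have h4 : x (τ + 1) = t' + 1 := by omega
      have h5 : y (τ + 1) = y τ := by omega
      rw [Nat.add_zero, h4, h5, ← hbase']
      congr 1
      ring
    | succ m ih =>
      intro h1
      have h2 := ih (by omega)
      obtain ⟨k, hk⟩ : ∃ k, k = τ + 1 + m := ⟨_, rfl⟩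
      have hk1 : τ + 1 + (m + 1) = k + 1 := by omega
      rw [← hk] at h2
      rw [hk1]
      have hxk := hτr k (by omega) (by omega)
      have hxk1 := hτr (k + 1) (by omega) (by omega)
      have hxl := hρl' k (by omega)
      have hxl1 := hρl' (k + 1) (by omega)
      have hedge : ∀ k' ≤ n, τ < k' → ∀ i < n, ¬ (y i = y k' ∧
          ((a i = x k' - 2 * (t' - t) - 1 ∧ a (i + 1) = x k' - 2 * (t' - t)) ∨
           (a i = x k' - 2 * (t' - t) ∧ a (i + 1) = x k' - 2 * (t' - t) - 1))) := by
        rintro k' hk' hτk' i hi ⟨h4, h5 | h5⟩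
        · have hus := (hsa i hi).cases
          exact hR k' hk' hτk' (i + 1) (by omega) ⟨h5.2, by omega⟩
        · exact hR k' hk' hτk' i (by omega) ⟨h5.1, h4⟩
      rcases (hs k (by omega)).cases with ⟨h4, h5⟩ | ⟨h4, h5⟩ | ⟨h4, h5⟩ | ⟨h4, h5⟩
      · rw [h4, h5, ← h2, show x k + 1 - 2 * (t' - t) = x k - 2 * (t' - t) + 1 by ring]
        refine NN_hor hsa _ _ ?_ ?_ ?_
        · intro i hi h6
          exact hR k (by omega) (by omega) i hi h6
        · rw [ha0]; omega
        · rw [han]; omega
      · have h9 : x k - 2 * (t' - t) = x (k + 1) - 2 * (t' - t) + 1 := by omega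
        rw [h9, ← h5] at h2
        rw [← h2]
        refine (NN_hor hsa _ _ ?_ ?_ ?_).symm
        · intro i hi h6
          exact hR (k + 1) (by omega) (by omega) i hi h6
        · rw [ha0]; omega
        · rw [han]; omega
      · rw [h4, h5, NN_vert]
        · exact h2
        · intro i hi h6
          exact hedge k (by omega) (by omega) i hi h6
      · have h9 : y k = y (k + 1) + 1 := by omega
        rw [h9, ← h4, NN_vert] at h2
        · exact h2
        · intro i hi h6
          exact hedge (k + 1) (by omega) (by omega) i hi h6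
  intro i hi k hk hτk h1 h2
  rcases Nat.lt_or_ge i σ with h3 | h3
  · rcases Nat.lt_or_ge ρ i with h4 | h4
    · rcases Nat.lt_or_ge ρ' k with h5 | h5
      · have := hρr' k hk h5
        have := hσl i hi
        omega
      · have h6 := hleft (σ - 1 - i) (by omega) (by omega)
        have h7 := hright (k - τ - 1) (by omega)
        rw [show σ - 1 - (σ - 1 - i) = i by omega] at h6
        rw [show τ + 1 + (k - τ - 1) = k by omega] at h7
        rw [h1, h2, h7] at h6
        exact one_ne_zero h6
    · have := hρl i h4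
      have := hτr k hk hτk
      omega
  · have h4 : i = σ := by omega
    subst h4
    exact hR k hk hτk i (by omega) ⟨by rw [hai]; omega, h2⟩

end Pool.Agent.Work.MP_376faf_co_neps.Abs
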