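import Mathlib

/-! Admissible tuples of pairs of fold points (interface between the structure theorem and the
multifold injection). -/

set_option autoImplicit false

namespace Pool.Agent.Work.MP_376faf_co_neps

/-- admissible tuple: `(w i).1 = u_i`, `(w i).2 = v_i`; R = renewals, F = fold points -/
structure Adm (R F : Finset ℕ) (s a b X D : ℕ) {m : ℕ} (w : Fin m → ℕ × ℕ) : Prop where
  mem_u : ∀ i, (w i).1 ∈ F
  mem_v : ∀ i, (w i).2 ∈ F
  win_u : ∀ i, X ≤ (w i).1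
  win_v : ∀ i, (w i).2 < X + D
  lo : ∀ i, D ≤ (w i).1
  hi : ∀ i, (w i).2 + D ≤ s
  len : ∀ i, (w i).1 + a ≤ (w i).2
  sep : ∀ i j, i < j →
    (w i).2 + ((w i).2 - (w i).1) + ((w j).2 - (w j).1) + a + b ≤ (w j).1
  gl : ∀ i, ∃ g ∈ R, g + ((w i).2 - (w i).1) ≤ (w i).1 ∧ (w i).1 ≤ g + D
  gr : ∀ i, ∃ g ∈ R, (w i).2 + ((w i).2 - (w i).1) ≤ g ∧ g ≤ (w i).2 + D
  iso : ∀ i c, (w i).1 ≤ c + a + b → c + a ≤ (w i).1 + 1 → ∃ r ∈ R, c ≤ r ∧ r < c + a

open Classical in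
/-- the finite set of admissible tuples, with D = 2^p, a = 2^p/l, b = 2^p/lam -/
noncomputable def TT (R F : Finset ℕ) (s p X l lam m : ℕ) : Finset (Fin m → ℕ × ℕ) :=
  (Fintype.piFinset fun _ => F ×ˢ F).filter
    (fun w => Adm R F s (2 ^ p / l) (2 ^ p / lam) X (2 ^ p) w)

end Pool.Agent.Work.MP_376faf_co_neps
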