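import Mathlib

/-! The folding map on columns. -/

set_option autoImplicit false

namespace Pool.Agent.Work.MP_376faf_co_neps.Abs

open Finset

/-- folding of columns at the first k pairs (u i, v i) -/
def ph (u v : ℕ → ℤ) (k : ℕ) (c : ℤ) : ℤ :=
  c - 2 * ∑ i ∈ range k, min (max (c - u i) 0) (v i - u i)

theorem ph_zero (u v : ℕ → ℤ) (c : ℤ) : ph u v 0 c = c := by simp [ph]

theorem ph_succ (u v : ℕ → ℤ) (k : ℕ) (c : ℤ) :
    ph u v (k + 1) c = ph u v k c - 2 * min (max (c - u k) 0) (v k - u k) := by
  unfold ph; rw [sum_range_succ]; ring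

/-- separated folds -/
structure Sepd (u v : ℕ → ℤ) (k : ℕ) : Prop where
  len : ∀ i < k, u i < v i
  sep : ∀ i j, i < j → j < k → v i + (v i - u i) + (v j - u j) < u j

theorem Sepd.mono {u v : ℕ → ℤ} {k k' : ℕ} (h : Sepd u v k) (hk : k' ≤ k) : Sepd u v k' :=
  ⟨fun i hi => h.len i (by omega), fun i j hij hj => h.sep i j hij (by omega)⟩

/-- slope one where no fold is met; all other folds may be ignored -/
theorem ph_diff {u v : ℕ → ℤ} {k : ℕ} (h : Sepd u v k) {c c' : ℤ} (hc : c ≤ c') (P : ℕ → Prop)
    [DecidablePred P] (hP : ∀ i < k, ¬ P i → c' ≤ u i ∨ v i ≤ c) :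
    ph u v k c' - ph u v k c = (c' - c) - 2 * ∑ i ∈ (range k).filter P,
      (min (max (c' - u i) 0) (v i - u i) - min (max (c - u i) 0) (v i - u i)) := by
  have h1 : ∑ i ∈ range k, (min (max (c' - u i) 0) (v i - u i) - min (max (c - u i) 0) (v i - u i))
      = ∑ i ∈ (range k).filter P,
      (min (max (c' - u i) 0) (v i - u i) - min (max (c - u i) 0) (v i - u i)) := by
    symm
    refine sum_subset (filter_subset _ _) ?_
    intro i hi hi'
    have hik := mem_range.1 hi
    have h2 : ¬ P i := fun h3 => hi' (mem_filter.2 ⟨hi, h3⟩)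
    have h3 := h.len i hik
    rcases hP i hik h2 with h4 | h4
    · rw [max_eq_right (by omega), max_eq_right (by omega)]; ring
    · rw [max_eq_left (by omega), max_eq_left (by omega), min_eq_right (by omega),
        min_eq_right (by omega)]; ring
  unfold ph
  rw [← h1, sum_sub_distrib]
  ring

theorem ph_slope {u v : ℕ → ℤ} {k : ℕ} (h : Sepd u v k) {c c' : ℤ} (hc : c ≤ c')
    (hP : ∀ i < k, c' ≤ u i ∨ v i ≤ c) : ph u v k c' = ph u v k c + (c' - c) := by
  have := ph_diff h hc (fun _ => False) (fun i hi _ => hP i hi)
  simp only [filter_false, sum_empty, mul_zero, sub_zero] at this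
  omega

theorem ph_one {u v : ℕ → ℤ} {k : ℕ} (h : Sepd u v k) {c c' : ℤ} (hc : c ≤ c') (f : ℕ)
    (hf : f < k) (hP : ∀ i < k, i ≠ f → c' ≤ u i ∨ v i ≤ c) :
    ph u v k c' - ph u v k c = (c' - c) - 2 *
      (min (max (c' - u f) 0) (v f - u f) - min (max (c - u f) 0) (v f - u f)) := by
  have := ph_diff h hc (fun i => i = f) (fun i hi h => hP i hi h)
  rw [this, filter_eq', if_pos (mem_range.2 hf), sum_singleton]

/-- folds to the right do not matter -/
theorem ph_trunc {u v : ℕ → ℤ} {k k' : ℕ} (h : Sepd u v k) (hk : k' ≤ k) {c : ℤ}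
    (hc : ∀ i < k, k' ≤ i → c ≤ u i) : ph u v k c = ph u v k' c := by
  unfold ph
  congr 2
  symm
  refine sum_subset (fun i hi => mem_range.2 (by have := mem_range.1 hi; omega)) ?_
  intro i hi hi'
  have hik := mem_range.1 hi
  have h1 : k' ≤ i := by
    by_contra h1
    exact hi' (mem_range.2 (by omega))
  have h2 := hc i hik h1
  have h3 := h.len i hik
  rw [max_eq_right (by omega), min_eq_left (by omega)]

/-- records -/
theorem ph_rec {u v : ℕ → ℤ} {k : ℕ} (h : Sepd u v k) {c c' : ℤ}
    (hc : ∀ i < k, v i + (v i - u i) ≤ c) (hcc : c' ≤ c) : ph u v k c' ≤ ph u v k c := by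
  induction k generalizing c c' with
  | zero => rw [ph_zero, ph_zero]; exact hcc
  | succ k ih =>
    have hk := h.mono (Nat.le_succ k)
    have h0 := h.len k (by omega)
    have h1 := hc k (by omega)
    have h2 : ph u v k c = ph u v k (u k) + (c - u k) := ph_slope hk (by omega) (fun i hi => by
      right
      have := h.sep i k hi (by omega)
      have := h.len i (by omega)
      omega)
    have h3 : ∀ c', c' ≤ u k → ph u v k c' ≤ ph u v k (u k) := fun c' hc' =>
      ih hk (fun i hi => by
        have := h.sep i k hi (by omega)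
        have := h.len i (by omega)
        omega) hc'
    rw [ph_succ, ph_succ, h2]
    have h4 : min (max (c - u k) 0) (v k - u k) = v k - u k := by
      rw [max_eq_left (by omega), min_eq_right (by omega)]
    rw [h4]
    rcases le_total c' (u k) with h5 | h5
    · have := h3 c' h5
      rw [max_eq_right (by omega), min_eq_left (by omega)]
      omega
    · have h6 : ph u v k c' = ph u v k (u k) + (c' - u k) := ph_slope hk (by omega) (fun i hi => by
        right
        have := h.sep i k hi (by omega)
        have := h.len i (by omega)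
        omega)
      rw [h6, max_eq_left (by omega)]
      rcases le_total c' (v k) with h7 | h7
      · rw [min_eq_left (by omega)]; omega
      · rw [min_eq_right (by omega)]; omega

/-- value inside fold f -/
theorem ph_in {u v : ℕ → ℤ} {k : ℕ} (h : Sepd u v k) {f : ℕ} (hf : f < k) {c : ℤ}
    (h1 : u f ≤ c) (h2 : c ≤ v f) : ph u v k c = ph u v k (u f) - (c - u f) := by
  have h0 := h.len f hf
  have := ph_one h h1 f hf (fun i hi hif => by
    rcases Nat.lt_or_ge i f with h3 | h3
    · right
      have := h.sep i f h3 hf
      have := h.len i hi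
      omega
    · left
      have := h.sep f i (by omega) hi
      have := h.len i hi
      omega)
  rw [max_eq_left (by omega), max_eq_right (by omega), min_eq_left (by omega),
    min_eq_left (by omega)] at this
  omega

/-- (F1) the start of a fold is a maximum of everything up to its end -/
theorem ph_le {u v : ℕ → ℤ} {k : ℕ} (h : Sepd u v k) {f : ℕ} (hf : f < k) {c : ℤ}
    (hc : c ≤ v f) : ph u v k c ≤ ph u v k (u f) := by
  have h0 := h.len f hf
  rcases le_total c (u f) with h1 | h1
  · have h2 : ∀ i < k, f ≤ i → u f ≤ u i := by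
      intro i hi hfi
      rcases Nat.lt_or_ge f i with h3 | h3
      · have := h.sep f i h3 hi
        have := h.len i hi
        omega
      · have : i = f := by omega
        rw [this]
    rw [ph_trunc h (le_of_lt hf) (fun i hi hfi => h1.trans (h2 i hi hfi)),
      ph_trunc h (le_of_lt hf) h2]
    refine ph_rec (h.mono (le_of_lt hf)) (fun i hi => ?_) h1
    have := h.sep i f hi hf
    omega
  · rw [ph_in h hf h1 hc]
    omega

/-- everything before a fold is below its end -/
theorem ph_lt_end {u v : ℕ → ℤ} {k : ℕ} (h : Sepd u v k) {f : ℕ} (hf : f < k) {c : ℤ}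
    (hc : c < u f - (v f - u f)) : ph u v k c < ph u v k (v f) := by
  have h0 := h.len f hf
  rw [ph_in h hf h0.le le_rfl]
  have h2 : ∀ i < k, f ≤ i → u f ≤ u i := by
    intro i hi hfi
    rcases Nat.lt_or_ge f i with h3 | h3
    · have := h.sep f i h3 hi
      have := h.len i hi
      omega
    · have : i = f := by omega
      rw [this]
  rw [ph_trunc h (le_of_lt hf) (c := u f) h2,
    ph_trunc h (le_of_lt hf) (c := c) (fun i hi hfi => by have := h2 i hi hfi; omega)]
  have hm := h.mono (le_of_lt hf)
  have h3 : ph u v f (u f) = ph u v f (u f - (v f - u f) - 1) + ((v f - u f) + 1) := by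
    have := ph_slope hm (c := u f - (v f - u f) - 1) (c' := u f) (by omega) (fun i hi => by
      right
      have := h.sep i f hi hf
      have := h.len i (by omega)
      omega)
    omega
  have h4 : ph u v f c ≤ ph u v f (u f - (v f - u f) - 1) := by
    refine ph_rec hm (fun i hi => ?_) (by omega)
    have := h.sep i f hi hf
    omega
  omega

/-- (F5) -/
theorem ph_lt {u v : ℕ → ℤ} {k : ℕ} (h : Sepd u v k) {f g : ℕ} (hfg : f < g) (hg : g < k) :
    ph u v k (u f) < ph u v k (v g) := by
  apply ph_lt_end h hg
  have := h.sep f g hfg hg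
  have := h.len f (by omega)
  omega

/-- (F2) the end of a fold is a strict minimum of everything after it -/
theorem ph_gt {u v : ℕ → ℤ} {k : ℕ} (h : Sepd u v k) {f : ℕ} (hf : f < k) {c : ℤ}
    (hc : v f < c) : ph u v k (v f) < ph u v k c := by
  have h0 := h.len f hf
  by_cases h1 : ∀ i < k, f < i → c ≤ u i
  · have := ph_slope h hc.le (fun i hi => by
      rcases Nat.lt_or_ge f i with h3 | h3
      · exact Or.inl (h1 i hi h3)
      · right
        rcases Nat.lt_or_ge i f with h4 | h4
        · have := h.sep i f h4 hf
          have := h.len i hi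
          omega
        · have : i = f := by omega
          rw [this])
    omega
  · push Not at h1
    -- take the largest such fold
    obtain ⟨i0, hi0, hfi0, hui0⟩ := h1
    have hne : ((range k).filter (fun i => f < i ∧ u i < c)).Nonempty :=
      ⟨i0, mem_filter.2 ⟨mem_range.2 hi0, hfi0, hui0⟩⟩
    obtain ⟨g, hg, hmax⟩ := ((range k).filter (fun i => f < i ∧ u i < c)).exists_max_image id hne
    rw [mem_filter, mem_range] at hg
    obtain ⟨hgk, hfg, hgc⟩ := hg
    have h2 : ph u v k (v f) < ph u v k (v g) := by
      apply ph_lt_end h hgk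
      have := h.sep f g hfg hgk
      omega
    have h3 : ph u v k (v g) ≤ ph u v k c := by
      rcases le_total c (v g) with h4 | h4
      · rw [ph_in h hgk hgc.le h4, ph_in h hgk (h.len g hgk).le le_rfl]
        omega
      · have := ph_slope h h4 (fun i hi => by
          rcases Nat.lt_or_ge g i with h5 | h5
          · left
            by_contra h6
            have := hmax i (mem_filter.2 ⟨mem_range.2 hi, by omega, by omega⟩)
            simp only [id] at this
            omega
          · right
            rcases Nat.lt_or_ge i g with h7 | h7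
            · have := h.sep i g h7 hgk
              have := h.len i hi
              have := h.len g hgk
              omega
            · have : i = g := by omega
              rw [this])
        omega
    omega

theorem ph_ge {u v : ℕ → ℤ} {k : ℕ} (h : Sepd u v k) {f : ℕ} (hf : f < k) {c : ℤ}
    (hc : u f ≤ c) : ph u v k (v f) ≤ ph u v k c := by
  rcases le_total c (v f) with h1 | h1
  · rw [ph_in h hf hc h1, ph_in h hf (h.len f hf).le le_rfl]
    omega
  · rcases h1.lt_or_eq with h2 | h2
    · exact (ph_gt h hf h2).le
    · rw [h2]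

theorem ph_le_self {u v : ℕ → ℤ} {k : ℕ} (h : Sepd u v k) (c : ℤ) : ph u v k c ≤ c := by
  unfold ph
  have : 0 ≤ ∑ i ∈ range k, min (max (c - u i) 0) (v i - u i) := by
    refine sum_nonneg (fun i hi => ?_)
    have := h.len i (mem_range.1 hi)
    exact le_min (le_max_right _ _) (by omega)
  omega

end Pool.Agent.Work.MP_376faf_co_neps.Abs
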