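import Pool.Agent.Work.MP_376faf_co_neps.SLemma
import Pool.Agent.Work.MP_376faf_co_neps.PhiB

/-! The multifold of a bridge is self-avoiding; backtracks. Abstract positions. -/

set_option autoImplicit false

namespace Pool.Agent.Work.MP_376faf_co_neps.Abs

open Finset

/-- positions of a bridge -/
structure BPos (n : ℕ) (x y : ℕ → ℤ) : Prop where
  us : ∀ i < n, US x y i
  inj : ∀ i ≤ n, ∀ j ≤ n, x i = x j → y i = y j → i = j
  x0 : x 0 = 0
  pos : ∀ i, 0 < i → i ≤ n → 0 < x i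
  le : ∀ i ≤ n, x i ≤ x n

/-- renewal in column t, index k -/
structure RenAt (n : ℕ) (x : ℕ → ℤ) (t : ℤ) (k : ℕ) : Prop where
  kn : k ≤ n
  xk : x k = t
  le : ∀ i ≤ k, x i ≤ t
  gt : ∀ i ≤ n, k < i → t < x i

/-- fold point in column t, index k, the last step before it going up -/
structure FoldAt (n : ℕ) (x y : ℕ → ℤ) (t : ℤ) (k : ℕ) : Prop where
  ren : RenAt n x t k
  pos : 0 < k
  lt : k < n
  up : x (k - 1) = x k ∧ y (k - 1) + 1 = y k
  dis : ∀ i ≤ k, ∀ j ≤ n, k < j → x i = 2 * t - x j → y i = y j → False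

/-- data of a multifold -/
structure MF (n : ℕ) (x y : ℕ → ℤ) (k : ℕ) (u v : ℕ → ℤ) (σ τ : ℕ → ℕ) : Prop where
  bp : BPos n x y
  sep : Sepd u v k
  fu : ∀ f < k, FoldAt n x y (u f) (σ f)
  fv : ∀ f < k, FoldAt n x y (v f) (τ f)
  lo : ∀ f < k, v f - u f < u f
  hi : ∀ f < k, v f - u f ≤ x n - v f
  gl : ∀ f < k, ∃ g ρ, RenAt n x g ρ ∧ g + (v f - u f) ≤ u f ∧ u f - g ≤ x n - u f
  gr : ∀ f < k, ∃ g ρ, RenAt n x g ρ ∧ v f + (v f - u f) ≤ g ∧ g - v f ≤ v f

theorem MF.stau {n : ℕ} {x y : ℕ → ℤ} {k : ℕ} {u v : ℕ → ℤ} {σ τ : ℕ → ℕ}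
    (h : MF n x y k u v σ τ) {f : ℕ} (hf : f < k) : σ f < τ f := by
  by_contra h1
  have h2 := (h.fu f hf).ren.le (τ f) (by omega)
  have h3 := (h.fv f hf).ren.xk
  have h4 := h.sep.len f hf
  omega

/-- one fold: the S-lemma -/
theorem MF.one {n : ℕ} {x y : ℕ → ℤ} {k : ℕ} {u v : ℕ → ℤ} {σ τ : ℕ → ℕ}
    (h : MF n x y k u v σ τ) {f : ℕ} (hf : f < k) :
    ∀ i ≤ σ f, ∀ j ≤ n, τ f < j → x i = x j - 2 * (v f - u f) → y i = y j → False := by
  obtain ⟨g, ρ, hg, hg1, hg2⟩ := h.gl f hf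
  obtain ⟨g', ρ', hg', hg1', hg2'⟩ := h.gr f hf
  have hu := h.fu f hf
  have hv := h.fv f hf
  have hlen := h.sep.len f hf
  have hst := h.stau hf
  have h1 : ρ ≤ σ f := by
    by_contra h1
    have := hu.ren.gt ρ hg.kn (by omega)
    rw [hg.xk] at this
    omega
  have h2 : τ f ≤ ρ' := by
    by_contra h2
    have := hg'.gt (τ f) hv.ren.kn (by omega)
    rw [hv.ren.xk] at this
    omega
  have hgd : u f - (u f - g) = g := by ring
  have hgd' : v f + (g' - v f) = g' := by ring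
  exact s_core n x y h.bp.us h.bp.inj h.bp.x0 (σ f) (τ f) ρ ρ' (u f) (v f) (u f - g) (g' - v f)
    h1 hst h2 hg'.kn hu.pos hv.lt hu.ren.xk hu.ren.le hu.ren.gt hv.ren.xk hv.ren.le hv.ren.gt
    hu.up hv.up hu.dis hv.dis (h.lo f hf) (h.hi f hf) (by omega) hg2
    (by rw [hgd]; exact hg.le) (by rw [hgd]; exact hg.gt) (by omega) hg2'
    (by rw [hgd']; exact hg'.le) (by rw [hgd']; exact hg'.gt)

theorem MF.inj_aux {n : ℕ} {x y : ℕ → ℤ} {k : ℕ} {u v : ℕ → ℤ} {σ τ : ℕ → ℕ}
    (h : MF n x y k u v σ τ) (i : ℕ) (hi : i ≤ n) (j : ℕ) (hj : j ≤ n) (hlt : x i < x j)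
    (h1 : ph u v k (x i) = ph u v k (x j)) (h2 : y i = y j) : False := by
  -- some fold is met
  have hmeet : ∃ f < k, u f < x j ∧ x i < v f := by
    by_contra hno
    push Not at hno
    have := ph_slope h.sep hlt.le (fun f hf => by
      rcases lt_or_ge (u f) (x j) with h3 | h3
      · exact Or.inr (hno f hf h3)
      · exact Or.inl h3)
    omega
  obtain ⟨f, hf, hf1, hf2⟩ := hmeet
  -- only one
  have hone : ∀ g < k, g ≠ f → x j ≤ u g ∨ v g ≤ x i := by
    intro g hg hgf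
    by_contra hno
    push Not at hno
    rcases Nat.lt_or_ge g f with h3 | h3
    · have a1 := ph_le h.sep hg hno.2.le
      have a2 := ph_lt h.sep h3 hf
      have a3 := ph_ge h.sep hf hf1.le
      omega
    · have a1 := ph_le h.sep hf hf2.le
      have a2 := ph_lt h.sep (show f < g by omega) hg
      have a3 := ph_ge h.sep hg hno.1.le
      omega
  have hd := ph_one h.sep hlt.le f hf hone
  have hlen := h.sep.len f hf
  have hu := h.fu f hf
  have hv := h.fv f hf
  rcases le_or_gt (x i) (u f) with h3 | h3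
  · have hiσ : i ≤ σ f := by
      by_contra h4
      have := hu.ren.gt i hi (by omega)
      omega
    rcases le_or_gt (x j) (v f) with h4 | h4
    · -- fold at u
      rw [max_eq_left (by omega), max_eq_right (by omega), min_eq_left (by omega),
        min_eq_left (by omega)] at hd
      have hjσ : σ f < j := by
        by_contra h5
        have := hu.ren.le j (by omega)
        omega
      exact hu.dis i hiσ j hj hjσ (by omega) h2
    · rw [max_eq_left (by omega), max_eq_right (by omega), min_eq_right (by omega),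
        min_eq_left (by omega)] at hd
      have hjτ : τ f < j := by
        by_contra h5
        have := hv.ren.le j (by omega)
        omega
      exact h.one hf i hiσ j hj hjτ (by omega) h2
  · rcases le_or_gt (x j) (v f) with h4 | h4
    · rw [max_eq_left (by omega), max_eq_left (by omega), min_eq_left (by omega),
        min_eq_left (by omega)] at hd
      omega
    · rw [max_eq_left (by omega), max_eq_left (by omega), min_eq_right (by omega),
        min_eq_left (by omega)] at hd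
      have hiτ : i ≤ τ f := by
        by_contra h5
        have := hv.ren.gt i hi (by omega)
        omega
      have hjτ : τ f < j := by
        by_contra h5
        have := hv.ren.le j (by omega)
        omega
      exact hv.dis i hiτ j hj hjτ (by omega) h2

/-- the multifold is self-avoiding -/
theorem MF.inj {n : ℕ} {x y : ℕ → ℤ} {k : ℕ} {u v : ℕ → ℤ} {σ τ : ℕ → ℕ}
    (h : MF n x y k u v σ τ) (i : ℕ) (hi : i ≤ n) (j : ℕ) (hj : j ≤ n)
    (h1 : ph u v k (x i) = ph u v k (x j)) (h2 : y i = y j) : i = j := by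
  rcases lt_trichotomy (x i) (x j) with h3 | h3 | h3
  · exact (h.inj_aux i hi j hj h3 h1 h2).elim
  · exact h.bp.inj i hi j hj h3 h2
  · exact (h.inj_aux j hj i hi h3 h1.symm h2.symm).elim

theorem MF.ph_pos {n : ℕ} {x y : ℕ → ℤ} {k : ℕ} {u v : ℕ → ℤ} {σ τ : ℕ → ℕ}
    (h : MF n x y k u v σ τ) {c : ℤ} (hc : 0 < c) : 0 < ph u v k c := by
  rcases Nat.eq_zero_or_pos k with h0 | h0
  · subst h0; rwa [ph_zero]
  · have hord : ∀ i < k, u 0 ≤ u i := by
      intro i hi
      rcases Nat.eq_zero_or_pos i with h1 | h1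
      · rw [h1]
      · have := h.sep.sep 0 i h1 hi
        have := h.sep.len 0 h0
        have := h.sep.len i hi
        omega
    rcases le_or_gt c (u 0) with h1 | h1
    · rw [ph_trunc h.sep (Nat.zero_le k) (fun i hi _ => h1.trans (hord i hi)), ph_zero]
      exact hc
    · have h2 := ph_ge h.sep h0 h1.le
      have h3 := ph_in h.sep h0 (h.sep.len 0 h0).le le_rfl
      have h4 : ph u v k (u 0) = u 0 := by
        rw [ph_trunc h.sep (Nat.zero_le k) (fun i hi _ => hord i hi), ph_zero]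
      have := h.lo 0 h0
      omega

theorem MF.ph_le_end {n : ℕ} {x y : ℕ → ℤ} {k : ℕ} {u v : ℕ → ℤ} {σ τ : ℕ → ℕ}
    (h : MF n x y k u v σ τ) {c : ℤ} (hc : c ≤ x n) : ph u v k c ≤ ph u v k (x n) :=
  ph_rec h.sep (fun i hi => by have := h.hi i hi; omega) hc

/-- lower bound for the new span -/
theorem MF.span_ge {n : ℕ} {x y : ℕ → ℤ} {k : ℕ} {u v : ℕ → ℤ} {σ τ : ℕ → ℕ}
    (h : MF n x y k u v σ τ) (h0 : 0 < k) : u 0 ≤ ph u v k (x n) := by
  have hord : ∀ i < k, u 0 ≤ u i := by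
    intro i hi
    rcases Nat.eq_zero_or_pos i with h1 | h1
    · rw [h1]
    · have := h.sep.sep 0 i h1 hi
      have := h.sep.len 0 h0
      have := h.sep.len i hi
      omega
  have h4 : ph u v k (u 0) = u 0 := by
    rw [ph_trunc h.sep (Nat.zero_le k) (fun i hi _ => hord i hi), ph_zero]
  have h5 := h.ph_le_end (c := u 0) (by
    have := h.hi 0 h0
    have := h.sep.len 0 h0
    omega)
  omega

/-- backtrack of a walk with first coordinates X -/
structure Val (n : ℕ) (X : ℕ → ℤ) (σ τ : ℕ) : Prop where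
  lt : σ < τ
  le : τ ≤ n
  mx : ∀ j ≤ σ, X j ≤ X σ
  md : ∀ j, σ < j → j ≤ τ → X τ ≤ X j ∧ X j < X σ
  mn : ∀ j ≤ n, τ < j → X τ < X j

/-- isolation -/
def Iso (X : ℕ → ℤ) (a b : ℤ) (σ : ℕ) : Prop :=
  ∀ c : ℤ, 0 ≤ c → X σ ≤ c + a + b → c + a ≤ X σ + 1 → ∃ k ≤ σ, c ≤ X k ∧ X k < c + a ∧
    (∀ j ≤ k, X j ≤ X k) ∧ (∀ j ≤ σ, k < j → X k < X j)

theorem Val.sig {n : ℕ} {X : ℕ → ℤ} {σ σ' τ : ℕ} (h : Val n X σ τ) (h' : Val n X σ' τ) :
    σ = σ' := by
  rcases Nat.lt_trichotomy σ σ' with h1 | h1 | h1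
  · have h2 := (h.md σ' h1 h'.lt.le).2
    have h3 := h'.mx σ h1.le
    omega
  · exact h1
  · have h2 := (h'.md σ h1 h.lt.le).2
    have h3 := h.mx σ' h1.le
    omega

theorem Val.ord {n : ℕ} {X : ℕ → ℤ} {σ σ' τ τ' : ℕ} (h : Val n X σ τ) (h' : Val n X σ' τ')
    (hτ : τ < τ') : τ < σ' := by
  by_contra h1
  have h2 := h.mn τ' h'.le hτ
  have h3 : X τ' ≤ X τ := by
    rcases Nat.lt_or_ge σ' τ with h4 | h4
    · exact (h'.md τ h4 hτ.le).1
    · -- σ' = τ
      have h5 : σ' = τ := by omega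
      have := (h'.md τ' h'.lt le_rfl).2
      rw [h5] at this
      exact this.le
  omega

/-- isolated backtracks are b-spaced -/
theorem Val.spaced {n : ℕ} {X : ℕ → ℤ} {σ σ' τ τ' : ℕ} {a b : ℤ} (h : Val n X σ τ)
    (h' : Val n X σ' τ') (hi' : Iso X a b σ')
    (hT : X τ + a ≤ X σ) (h0 : a ≤ X σ) (hτ : τ < τ') : X σ + b ≤ X σ' := by
  by_contra h1
  have ho := h.ord h' hτ
  have h2 := h'.mx σ (by have := h.lt; omega)
  obtain ⟨k, hk, hk1, hk2, hk3, hk4⟩ := hi' (X σ - a) (by omega) (by omega) (by omega)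
  -- the renewal at k lies in [X τ, X σ)
  rcases Nat.lt_or_ge k τ with h3 | h3
  · have := hk4 τ ho.le h3
    omega
  · have := hk3 σ (by have := h.lt; omega)
    omega

theorem Val.eq_of_close {n : ℕ} {X : ℕ → ℤ} {σ σ' τ τ' : ℕ} {a b : ℤ} (h : Val n X σ τ)
    (h' : Val n X σ' τ') (hi : Iso X a b σ) (hi' : Iso X a b σ')
    (hT : X τ + a ≤ X σ) (hT' : X τ' + a ≤ X σ') (h0 : a ≤ X σ) (h0' : a ≤ X σ')
    (h1 : X σ < X σ' + b) (h2 : X σ' < X σ + b) : σ = σ' ∧ τ = τ' := by
  rcases Nat.lt_trichotomy τ τ' with h3 | h3 | h3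
  · have := h.spaced h' hi' hT h0 h3
    omega
  · subst h3
    exact ⟨h.sig h', rfl⟩
  · have := h'.spaced h hi hT' h0' h3
    omega

/-- the folds are valid backtracks of the multifold -/
theorem MF.val {n : ℕ} {x y : ℕ → ℤ} {k : ℕ} {u v : ℕ → ℤ} {σ τ : ℕ → ℕ}
    (h : MF n x y k u v σ τ) {f : ℕ} (hf : f < k) :
    Val n (fun i => ph u v k (x i)) (σ f) (τ f) := by
  have hu := h.fu f hf
  have hv := h.fv f hf
  have hlen := h.sep.len f hf
  refine ⟨h.stau hf, hv.ren.kn, ?_, ?_, ?_⟩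
  · intro j hj
    simp only [hu.ren.xk]
    exact ph_le h.sep hf (by have := hu.ren.le j hj; omega)
  · intro j h1 h2
    simp only [hu.ren.xk, hv.ren.xk]
    have h3 := hu.ren.gt j (by have := hv.ren.kn; omega) h1
    have h4 := hv.ren.le j h2
    refine ⟨ph_ge h.sep hf h3.le, ?_⟩
    rw [ph_in h.sep hf h3.le h4]
    omega
  · intro j h1 h2
    simp only [hv.ren.xk]
    exact ph_gt h.sep hf (hv.ren.gt j h1 h2)

/-- isolation is inherited -/
theorem MF.iso {n : ℕ} {x y : ℕ → ℤ} {k : ℕ} {u v : ℕ → ℤ} {σ τ : ℕ → ℕ}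
    (h : MF n x y k u v σ τ) {a b : ℤ}
    (hab : ∀ i j, i < j → j < k → v i + (v i - u i) + (v j - u j) + a + b ≤ u j)
    {f : ℕ} (hf : f < k)
    (hiso : ∀ c : ℤ, 0 ≤ c → u f ≤ c + a + b → c + a ≤ u f + 1 →
      ∃ r ρ, RenAt n x r ρ ∧ c ≤ r ∧ r < c + a) :
    Iso (fun i => ph u v k (x i)) a b (σ f) := by
  have hu := h.fu f hf
  have hlen := h.sep.len f hf
  intro c hc h1 h2
  simp only [hu.ren.xk] at h1 h2
  have hself := ph_le_self h.sep (u f)
  obtain ⟨r, ρ, hr, hr1, hr2⟩ := hiso (c + (u f - ph u v k (u f))) (by omega) (by omega)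
    (by omega)
  have hru : r ≤ u f := by omega
  have hρσ : ρ ≤ σ f := by
    by_contra h3
    have := hu.ren.gt ρ hr.kn (by omega)
    rw [hr.xk] at this
    omega
  -- slope one between r and u f
  have hslope : ∀ c1 c2, r ≤ c1 → c1 ≤ c2 → c2 ≤ u f → ph u v k c2 = ph u v k c1 + (c2 - c1) := by
    intro c1 c2 h3 h4 h5
    refine ph_slope h.sep h4 (fun i hi => ?_)
    rcases Nat.lt_or_ge i f with h6 | h6
    · right
      have := hab i f h6 hf
      have := h.sep.len i hi
      omega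
    · left
      rcases Nat.lt_or_ge f i with h7 | h7
      · have := h.sep.sep f i h7 hi
        have := h.sep.len i hi
        omega
      · have : i = f := by omega
        rw [this]; exact h5
  have hrs := hslope r (u f) le_rfl hru le_rfl
  refine ⟨ρ, hρσ, ?_, ?_, ?_, ?_⟩
  · simp only [hr.xk]; omega
  · simp only [hr.xk]; omega
  · intro j hj
    simp only [hr.xk]
    have h3 := hr.le j hj
    -- truncated to the first f folds r is a record column
    have htr : ∀ c', c' ≤ u f → ph u v k c' = ph u v f c' := fun c' hc' =>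
      ph_trunc h.sep hf.le (fun i hi hfi => by
        rcases Nat.lt_or_ge f i with h7 | h7
        · have := h.sep.sep f i h7 hi
          have := h.sep.len i hi
          omega
        · have : i = f := by omega
          rw [this]; exact hc')
    rw [htr r hru, htr (x j) (by omega)]
    refine ph_rec (h.sep.mono hf.le) (fun i hi => ?_) h3
    have := hab i f hi hf
    omega
  · intro j hj hρj
    simp only [hr.xk]
    have h3 := hr.gt j (by have := hu.ren.kn; omega) hρj
    have h4 := hu.ren.le j hj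
    have := hslope r (x j) le_rfl h3.le h4
    omega

end Pool.Agent.Work.MP_376faf_co_neps.Abs
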