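import Pool.Agent.Work.MP_376faf_co_neps.Defs
import Pool.Agent.Work.MP_376faf_co_neps.Adm
import Pool.Agent.Work.MP_376faf_co_neps.MultiA

/-! From lists of steps to the abstract multifold. -/

set_option autoImplicit false

namespace Pool.Agent.Work.MP_376faf_co_neps.Abs

open Pool.Agent.Work.MP_376faf_co_lower Pool.Agent.Work.MP_376faf_co_hw
open scoped ENNReal

def xs (l : List Pt) (i : ℕ) : ℤ := (pos l i).1
def ys (l : List Pt) (i : ℕ) : ℤ := (pos l i).2

theorem us_pos {l : List Pt} (h : Walk l) {i : ℕ} (hi : i < l.length) : US (xs l) (ys l) i := by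
  have h1 := pos_succ l hi
  have h2 := h.1 l[i] (List.getElem_mem hi)
  unfold US xs ys
  rw [h1]
  simpa [Un] using h2

theorem bpos {l : List Pt} (h : Bridge l) : BPos l.length (xs l) (ys l) where
  us := fun i hi => us_pos h.1 hi
  inj := fun i hi j hj h1 h2 => h.1.2 (Set.mem_Iic.2 hi) (Set.mem_Iic.2 hj) (Prod.ext h1 h2)
  x0 := by simp [xs]
  pos := fun i h0 h1 => (h.2 i h0 h1).1
  le := fun i hi => by
    have := h.le_end hi
    unfold xs
    rw [pos_len]
    first | exact this | (rw [← pos_len]; exact this)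

theorem xs_len {l : List Pt} (h : Bridge l) : xs l l.length = sp l := by
  have := h.nonneg (le_refl l.length)
  unfold xs sp
  rw [pos_len] at this ⊢
  omega

theorem col_eq {l : List Pt} (h : Bridge l) {i : ℕ} (hi : i ≤ l.length) : ((col l i : ℕ) : ℤ) = xs l i := by
  have := h.nonneg hi
  unfold xs col
  omega

theorem ren_of_cut {l : List Pt} {i : ℕ} (hi : i ≤ l.length) (hc : Cut l i) :
    RenAt l.length (xs l) (xs l i) i :=
  ⟨hi, rfl, hc.1, fun j hj hij => hc.2 j hij hj⟩

theorem of_rn {l : List Pt} (h : Bridge l) {t : ℕ} (ht : t ∈ rn l) :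
    ∃ i, RenAt l.length (xs l) t i := by
  classical
  unfold rn at ht
  rw [Finset.mem_image] at ht
  obtain ⟨i, hi, rfl⟩ := ht
  rw [Finset.mem_filter, Finset.mem_range] at hi
  refine ⟨i, ?_⟩
  rw [col_eq h (by omega)]
  exact ren_of_cut (by omega) hi.2

theorem fold_of_FP {l : List Pt} {i : ℕ} (hf : FP l i) :
    FoldAt l.length (xs l) (ys l) (xs l i) i := by
  obtain ⟨h1, h2, h3, h4, h5⟩ := hf
  refine ⟨ren_of_cut h2.le h3, h1, h2, ⟨?_, ?_⟩, ?_⟩
  · unfold xs; rw [h5]; simp
  · unfold ys; rw [h5]; simp
  · intro i' hi' j hj hij hx hy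
    have hlen : (l.take i ++ (l.drop i).map fl).length = l.length := by
      simp; omega
    have hl : (l.take i).length = i := by simp; omega
    have e1 : pos (l.take i ++ (l.drop i).map fl) i' = pos l i' := by
      rw [pos_append_left _ _ (by rw [hl]; exact hi'), pos_take _ hi']
    have e2 : pos (l.take i ++ (l.drop i).map fl) j = (2 * xs l i - xs l j, ys l j) := by
      have h6 := pos_append_right (l.take i) ((l.drop i).map fl) (j - i)
      rw [hl, pos_flip, pos_drop _ h2.le, show i + (j - i) = j by omega] at h6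
      rw [h6]
      have h7 : (l.take i).sum = pos l i := rfl
      rw [h7]
      unfold xs ys fl
      ext
      · simp; ring
      · simp
    have h6 := h4.2 (show i' ∈ Set.Iic _ by rw [Set.mem_Iic, hlen]; omega)
      (show j ∈ Set.Iic _ by rw [Set.mem_Iic, hlen]; omega)
      (by rw [e1, e2]; exact Prod.ext hx hy)
    omega

theorem of_fo {l : List Pt} (h : Bridge l) {t : ℕ} (ht : t ∈ fo l) :
    ∃ i, FoldAt l.length (xs l) (ys l) t i := by
  classical
  unfold fo at ht
  rw [Finset.mem_image] at ht
  obtain ⟨i, hi, rfl⟩ := ht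
  rw [Finset.mem_filter, Finset.mem_range] at hi
  refine ⟨i, ?_⟩
  rw [col_eq h (by omega)]
  exact fold_of_FP hi.2

/-- index of a renewal column -/
def idx (l : List Pt) (t : ℕ) : ℕ := Nat.findGreatest (fun k => xs l k ≤ t) l.length

theorem idx_eq {l : List Pt} {t k : ℕ} (h : RenAt l.length (xs l) t k) : idx l t = k := by
  unfold idx
  rw [Nat.findGreatest_eq_iff]
  refine ⟨h.kn, fun _ => by rw [h.xk], ?_⟩
  intro j hj1 hj2 hj3
  have := h.gt j hj2 hj1
  omega

/-- the folded list -/
def fold (S : ℕ → Prop) [DecidablePred S] (l : List Pt) : List Pt :=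
  l.mapIdx (fun i s => if S i then fl s else s)

theorem fold_length (S : ℕ → Prop) [DecidablePred S] (l : List Pt) :
    (fold S l).length = l.length := by simp [fold]

theorem fold_get (S : ℕ → Prop) [DecidablePred S] (l : List Pt) {i : ℕ} (hi : i < l.length) :
    (fold S l)[i]'(by rw [fold_length]; exact hi) = if S i then fl l[i] else l[i] := by
  simp [fold]

theorem fold_fold (S : ℕ → Prop) [DecidablePred S] (l : List Pt) : fold S (fold S l) = l := by
  apply List.ext_getElem
  · rw [fold_length, fold_length]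
  · intro i h1 h2
    rw [fold_get S (fold S l) (by rw [fold_length]; exact h2), fold_get S l h2]
    split_ifs
    · exact fl_fl _
    · rfl

section
variable {l : List Pt} {k : ℕ} {u v : ℕ → ℤ} {σ τ : ℕ → ℕ}

theorem ph_zero_col (h : MF l.length (xs l) (ys l) k u v σ τ) : ph u v k 0 = 0 := by
  rw [ph_trunc h.sep (Nat.zero_le k) (fun i hi _ => ?_), ph_zero]
  have := h.lo i hi
  have := h.sep.len i hi
  omega

theorem pos_fold (h : MF l.length (xs l) (ys l) k u v σ τ) (S : ℕ → Prop) [DecidablePred S]
    (hS : ∀ j, S j ↔ ∃ f < k, σ f ≤ j ∧ j < τ f) (i : ℕ) (hi : i ≤ l.length) :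
    pos (fold S l) i = (ph u v k (xs l i), ys l i) := by
  induction i with
  | zero =>
    rw [pos_zero, show xs l 0 = 0 by simp [xs], show ys l 0 = 0 by simp [ys], ph_zero_col h]
    rfl
  | succ i ih =>
    have hi' : i < l.length := hi
    rw [pos_succ (fold S l) (by rw [fold_length]; exact hi'), fold_get S l hi', ih hi'.le]
    have h1 := pos_succ l hi'
    have hx : xs l (i + 1) = xs l i + l[i].1 := by unfold xs; rw [h1]; rfl
    have hy : ys l (i + 1) = ys l i + l[i].2 := by unfold ys; rw [h1]; rfl
    have hun : True := trivial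
    split_ifs with hs
    · obtain ⟨f, hf, h2, h3⟩ := (hS i).1 hs
      have hu := (h.fu f hf).ren
      have hv := (h.fv f hf).ren
      have h4 : u f ≤ xs l i := by
        rcases Nat.lt_or_ge (σ f) i with h5 | h5
        · exact (hu.gt i hi'.le h5).le
        · have : i = σ f := by omega
          rw [this, hu.xk]
      have h5 : xs l i ≤ v f := hv.le i h3.le
      have h6 : u f < xs l (i + 1) := hu.gt (i + 1) hi (by omega)
      have h7 : xs l (i + 1) ≤ v f := hv.le (i + 1) h3
      rw [ph_in h.sep hf h4 h5, ph_in h.sep hf h6.le h7, hy, hx]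
      ext
      · simp [fl]; ring
      · simp [fl]
    · have h2 : ∀ f < k, i < σ f ∨ τ f ≤ i := by
        intro f hf
        by_contra h3
        push Not at h3
        exact hs ((hS i).2 ⟨f, hf, h3.1, h3.2⟩)
      have h3 : ∀ f < k, (xs l i ≤ u f ∧ xs l (i + 1) ≤ u f) ∨
          (v f ≤ xs l i ∧ v f ≤ xs l (i + 1)) := by
        intro f hf
        rcases h2 f hf with h4 | h4
        · exact Or.inl ⟨(h.fu f hf).ren.le i h4.le, (h.fu f hf).ren.le (i + 1) h4⟩
        · right
          refine ⟨?_, ((h.fv f hf).ren.gt (i + 1) hi (by omega)).le⟩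
          rcases Nat.lt_or_ge (τ f) i with h5 | h5
          · exact ((h.fv f hf).ren.gt i hi'.le h5).le
          · have : i = τ f := by omega
            rw [this, (h.fv f hf).ren.xk]
      have h4 : ph u v k (xs l (i + 1)) = ph u v k (xs l i) + (xs l (i + 1) - xs l i) := by
        rcases le_total (xs l i) (xs l (i + 1)) with h5 | h5
        · exact ph_slope h.sep h5 (fun f hf => by
            rcases h3 f hf with h6 | h6
            · exact Or.inl h6.2
            · exact Or.inr h6.1)
        · have := ph_slope h.sep h5 (fun f hf => by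
            rcases h3 f hf with h6 | h6
            · exact Or.inl h6.1
            · exact Or.inr h6.2)
          omega
      rw [h4, hy, hx]
      ext
      · simp
      · simp
end

end Pool.Agent.Work.MP_376faf_co_neps.Abs
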