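import Pool.Agent.Work.MP_376faf_co_hw.PreB
import Pool.Agent.Work.MP_376faf_co_lower.Renewal

/-! NEPS (note 2994 on MP_376faf_co): definitions. -/

set_option autoImplicit false

namespace Pool.Agent.Work.MP_376faf_co_neps

open Pool.Agent.Work.MP_376faf_co_lower Pool.Agent.Work.MP_376faf_co_hw
open scoped ENNReal

/-- span -/
def sp (l : List Pt) : ℕ := l.sum.1.toNat

/-- column of the vertex with index `i` -/
def col (l : List Pt) (i : ℕ) : ℕ := (pos l i).1.toNat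

/-- `i` is the index of a fold point of sign `+` of the bridge `l` -/
def FP (l : List Pt) (i : ℕ) : Prop := 0 < i ∧ i < l.length ∧ Cut l i ∧
  Walk (l.take i ++ (l.drop i).map fl) ∧ pos l i = pos l (i - 1) + (0, 1)

open Classical in
/-- columns of the renewals (cuts) of `l` -/
noncomputable def rn (l : List Pt) : Finset ℕ :=
  ((Finset.range (l.length + 1)).filter (fun i => Cut l i)).image (col l)

open Classical in
/-- columns of the fold points of sign `+` -/
noncomputable def fo (l : List Pt) : Finset ℕ :=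
  ((Finset.range (l.length + 1)).filter (fun i => FP l i)).image (col l)

/-- bridges -/
abbrev Br : Type := {l : List Pt // Bridge l}

/-- irreducible bridges -/
abbrev Ir : Type := {l : List Pt // BR 1 l}

/-- weight of a bridge -/
noncomputable def wz (x z : ℝ≥0∞) (l : List Pt) : ℝ≥0∞ := x ^ l.length * z ^ sp l

/-- generating function of the bridges -/
noncomputable def UU (x z : ℝ≥0∞) : ℝ≥0∞ := ∑' b : Br, wz x z b.1

open Classical in
/-- hairpins: pairs of bridges `c`, `e` such that `c ++ ng e` is self-avoiding -/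
noncomputable def VV (x z : ℝ≥0∞) : ℝ≥0∞ := ∑' p : Br × Br,
  if Walk (p.1.1 ++ ng p.2.1) then wz x z p.1.1 * wz x z p.2.1 else 0

/-- `∑ w(j) (1 - z ^ s(j))` over the irreducible bridges -/
noncomputable def kap (x z : ℝ≥0∞) : ℝ≥0∞ := ∑' j : Ir, x ^ j.1.length * (1 - z ^ sp j.1)

/-- the fugacity for spans of order `N` -/
noncomputable def zN (N : ℕ) : ℝ≥0∞ := (N : ℝ≥0∞) / ((N : ℝ≥0∞) + 1)

/-- good tuples of fold points: `u i < v i` is folded; `R` renewals, `F` fold points, `s` span,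
window `[X, X + D)` -/
structure GoodT (R F : Finset ℕ) (s m a b X D : ℕ) (u v : Fin m → ℕ) : Prop where
  uF : ∀ i, u i ∈ F
  vF : ∀ i, v i ∈ F
  win : ∀ i, X ≤ u i ∧ v i < X + D
  marg : ∀ i, D ≤ u i ∧ v i + D ≤ s
  ta : ∀ i, u i + a ≤ v i
  gap : ∀ i j : Fin m, i.val + 1 = j.val → v i + (v i - u i) + (v j - u j) + a + b ≤ u j
  iso : ∀ i, ∀ c, u i ≤ c + a + b → c + a ≤ u i → ∃ r ∈ R, c ≤ r ∧ r < c + a
  gl : ∀ i : Fin m, i.val = 0 → ∃ g ∈ R, g + (v i - u i) ≤ u i ∧ u i ≤ g + D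
  gr : ∀ i : Fin m, i.val + 1 = m → ∃ g ∈ R, v i + (v i - u i) ≤ g ∧ g ≤ v i + D

/-- folding map of the columns at `u < v` -/
def ph1 (u v c : ℤ) : ℤ := c - 2 * min (max (c - u) 0) (v - u)

/-- multiple folding map of the columns -/
def ph (m : ℕ) (u v : ℕ → ℤ) (c : ℤ) : ℤ :=
  c - 2 * ∑ i ∈ Finset.range m, min (max (c - u i) 0) (v i - u i)

/-- the conditions on the fold columns -/
structure Gap (m : ℕ) (u v : ℕ → ℤ) : Prop where
  lt : ∀ i < m, u i < v i
  gap : ∀ i, i + 1 < m → v i + (v i - u i) + (v (i + 1) - u (i + 1)) < u (i + 1)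

/-- extension of a tuple by zero -/
def ex {m : ℕ} (u : Fin m → ℕ) (i : ℕ) : ℤ := if h : i < m then ((u ⟨i, h⟩ : ℕ) : ℤ) else 0

/-- the list of steps of the image of the walk `l` under a map `f` of the columns -/
def fw (f : ℤ → ℤ) (l : List Pt) : List Pt := List.ofFn (fun k : Fin l.length =>
  ((f (pos l (k.val + 1)).1 - f (pos l k.val).1, (pos l (k.val + 1)).2 - (pos l k.val).2) : Pt))

/-- valid backtrack `(σ, τ)` of the sequence `x 0, …, x n` -/
def Vld (x : ℕ → ℤ) (n σ τ : ℕ) : Prop := σ < τ ∧ τ ≤ n ∧ (∀ j ≤ σ, x j ≤ x σ) ∧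
  (∀ j, σ < j → j ≤ τ → x τ ≤ x j ∧ x j < x σ) ∧ (∀ j, τ < j → j ≤ n → x τ < x j)

/-- isolated index `σ`: all intervals `[c, c + a)` in `[x σ - a - b, x σ]` contain a renewal of the
part of the sequence up to `σ` -/
def Iso (x : ℕ → ℤ) (a b : ℤ) (σ : ℕ) : Prop := ∀ c, x σ ≤ c + a + b → c + a ≤ x σ →
  ∃ k ≤ σ, c ≤ x k ∧ x k < c + a ∧ (∀ j ≤ k, x j ≤ x k) ∧ ∀ j, k < j → j ≤ σ → x k < x j

/-- `F` with margin `2 ^ p` in `[0, s]` -/
def FM (F : Finset ℕ) (s p : ℕ) : Finset ℕ := F.filter (fun t => 2 ^ p ≤ t ∧ t + 2 ^ p ≤ s)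

/-- points in the interval `[X, X + d)` -/
def Wi (F : Finset ℕ) (X d : ℕ) : Finset ℕ := F.filter (fun t => X ≤ t ∧ t < X + d)

end Pool.Agent.Work.MP_376faf_co_neps
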