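import Pool.Agent.Work.MP_376faf_co_neps.HalfE
import Pool.Agent.Work.MP_376faf_co_hw.FinalHW

/-! Module FinalE: the two bounds (cf. hw/FinalHW.lean; `F_bound_gen` of hw/Analysis.lean with any `α`). -/

set_option autoImplicit false

namespace Pool.Agent.Work.MP_376faf_co_neps

open Pool.Agent.Work.MP_376faf_co_lower Pool.Agent.Work.MP_376faf_co_hw
open Filter Topology
open scoped ENNReal

/-- the choice of `k` -/
lemma clog_spec {m : ℕ} (hm : 1 ≤ m) : m ≤ 2 ^ Nat.clog 2 m ∧ 2 ^ Nat.clog 2 m ≤ 2 * m := by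
  refine ⟨Nat.le_pow_clog (by norm_num) m, ?_⟩
  rcases Nat.lt_or_ge 1 m with h | h
  · have h1 := Nat.pow_pred_clog_lt_self (b := 2) (by norm_num) h
    have h2 : 0 < Nat.clog 2 m := Nat.clog_pos (by norm_num) h
    have h3 : 2 ^ Nat.clog 2 m = 2 * 2 ^ (Nat.clog 2 m).pred := by
      rw [← pow_succ']
      congr 1
      simp only [Nat.pred_eq_sub_one]
      omega
    rw [h3]
    omega
  · have : m = 1 := by omega
    subst this
    simp

/-- the choice of `A` -/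
lemma A_spec {h k : ℕ} (hh : 1 ≤ h) {α Y : ℝ} (hα : 0 < α) (hαh : 12 / α ≤ h) (hY : (2 : ℝ) ^ k ≤ Y) :
    ∃ A : ℕ, 1 ≤ A ∧ (2 ^ k) ^ 2 ≤ A ^ h ∧ (A : ℝ) ^ 3 ≤ 8 * Y ^ (α / 2) := by
  have hh0 : (0 : ℝ) < h := by exact_mod_cast hh
  set X : ℝ := (2 : ℝ) ^ k with hX
  have hX1 : 1 ≤ X := one_le_pow₀ (by norm_num)
  have hX0 : 0 < X := by linarith
  have hY1 : 1 ≤ Y := hX1.trans hY
  set B : ℝ := X ^ (2 / (h : ℝ)) with hB
  have hB1 : 1 ≤ B := Real.one_le_rpow hX1 (by positivity)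
  refine ⟨⌈B⌉₊, Nat.one_le_ceil_iff.2 (by linarith), ?_, ?_⟩
  · have h1 : B ^ h = X ^ 2 := by
      rw [hB, ← Real.rpow_natCast, ← Real.rpow_mul hX0.le, ← Real.rpow_natCast]
      congr 1
      field_simp
      norm_num
    have h2 : X ^ 2 ≤ ((⌈B⌉₊ : ℕ) : ℝ) ^ h := by
      rw [← h1]
      exact pow_le_pow_left₀ (by linarith) (Nat.le_ceil B) h
    rw [hX] at h2
    exact_mod_cast h2
  · have h1 : ((⌈B⌉₊ : ℕ) : ℝ) ≤ 2 * B := by
      have := Nat.ceil_lt_add_one (show 0 ≤ B by linarith)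
      linarith
    have h2 : B ^ 3 ≤ Y ^ (α / 2) := by
      have e : B ^ 3 = X ^ (6 / (h : ℝ)) := by
        rw [hB, ← Real.rpow_natCast, ← Real.rpow_mul hX0.le]
        congr 1
        push_cast
        ring
      rw [e]
      calc X ^ (6 / (h : ℝ)) ≤ X ^ (α / 2) := by
            refine Real.rpow_le_rpow_of_exponent_le hX1 ?_
            rw [div_le_div_iff₀ hh0 (by norm_num)]
            rw [div_le_iff₀ hα] at hαh
            linarith
        _ ≤ Y ^ (α / 2) := Real.rpow_le_rpow hX0.le hY (by positivity)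
    calc ((⌈B⌉₊ : ℕ) : ℝ) ^ 3 ≤ (2 * B) ^ 3 := pow_le_pow_left₀ (by positivity) h1 3
      _ = 8 * B ^ 3 := by ring
      _ ≤ 8 * Y ^ (α / 2) := by linarith

/-- parameters: `m` of order `n ^ (1 - α)`, `A` of order `m ^ (2 / h)`, `h` large -/
theorem params_e {α : ℝ} (hα0 : 0 < α) (hα1 : α ≤ 1) : ∃ h : ℕ, 1 ≤ h ∧ ∀ C μ : ℝ, 1 ≤ C → 1 ≤ μ →
    ∃ N0 : ℕ, ∀ n ≥ N0, ∃ m k A : ℕ, 1 ≤ m ∧ m ≤ n ∧ m ≤ 2 ^ k ∧ 2 ^ k ≤ 2 * m ∧ 1 ≤ A ∧
      (2 ^ k) ^ 2 ≤ A ^ h ∧ (n:ℝ) ^ (1 - α) / Real.log n ≤ 2 * m ∧ (2 ^ k) ^ 3 ≤ n ^ 3 ∧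
      Real.exp (C * (A : ℝ) ^ 3) ^ 2 * μ < (2:ℝ) ^ ((n:ℝ) / (m:ℝ)) := by
  refine ⟨⌈12 / α⌉₊, Nat.one_le_ceil_iff.2 (by positivity), fun C μ hC hμ => ?_⟩
  have hlμ : 0 ≤ Real.log μ := Real.log_nonneg hμ
  have ht : Tendsto (fun n : ℕ => ((n : ℝ)) ^ (α / 2)) atTop atTop :=
    (tendsto_rpow_atTop (by positivity)).comp tendsto_natCast_atTop_atTop
  have ht2 : Tendsto (fun n : ℕ => ((n : ℝ)) ^ α) atTop atTop :=
    (tendsto_rpow_atTop hα0).comp tendsto_natCast_atTop_atTop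
  obtain ⟨N0, hN0⟩ := eventually_atTop.1 (((ht.eventually_ge_atTop (48 * (C + Real.log μ) + 1)).and
    (ht2.eventually_ge_atTop 4)).and (eventually_ge_atTop 4))
  refine ⟨N0, fun n hn => ?_⟩
  obtain ⟨⟨h1, h2⟩, h3⟩ := hN0 n hn
  have hn4 : (4 : ℝ) ≤ n := by exact_mod_cast h3
  have hn0 : (0 : ℝ) < n := by linarith
  set P : ℝ := (n : ℝ) ^ (1 - α) with hP
  have hP1 : 1 ≤ P := Real.one_le_rpow (by linarith) (by linarith)
  have hPQ : P * (n : ℝ) ^ α = n := by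
    rw [hP, ← Real.rpow_add hn0]
    simp
  have hP4 : 4 * P ≤ n := by
    calc 4 * P = P * 4 := by ring
      _ ≤ P * (n : ℝ) ^ α := by gcongr
      _ = n := hPQ
  set m : ℕ := ⌈P⌉₊ with hm
  have hPm : P ≤ m := Nat.le_ceil _
  have hmP : (m : ℝ) ≤ 2 * P := by
    have := Nat.ceil_lt_add_one (show 0 ≤ P by linarith)
    linarith
  have hm1 : 1 ≤ m := Nat.one_le_ceil_iff.2 (by linarith)
  have hm2 : 2 * m ≤ n := by
    have : (2 : ℝ) * m ≤ n := by linarith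
    exact_mod_cast this
  obtain ⟨hk1, hk2⟩ := clog_spec hm1
  set k := Nat.clog 2 m with hk
  have hkn : 2 ^ k ≤ n := hk2.trans hm2
  have hknR : (2 : ℝ) ^ k ≤ n := by exact_mod_cast hkn
  obtain ⟨A, hA1, hA2, hA3⟩ := A_spec (h := ⌈12 / α⌉₊) (Nat.one_le_ceil_iff.2 (by positivity)) hα0
    (Nat.le_ceil _) hknR
  refine ⟨m, k, A, hm1, by omega, hk1, hk2, hA1, hA2, ?_, Nat.pow_le_pow_left hkn 3, ?_⟩
  · have hlog : 1 ≤ Real.log n := by
      rw [Real.le_log_iff_exp_le hn0]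
      have := Real.exp_one_lt_d9
      linarith
    calc P / Real.log n ≤ P := div_le_self (by linarith) hlog
      _ ≤ 2 * m := by
        have : (0 : ℝ) ≤ m := by positivity
        linarith
  · have hm0 : (0 : ℝ) < m := by exact_mod_cast hm1
    rw [Real.rpow_def_of_pos (by norm_num : (0:ℝ) < 2), ← Real.exp_nat_mul]
    have e : Real.exp (((2 : ℕ) : ℝ) * (C * (A : ℝ) ^ 3)) * μ =
        Real.exp (((2 : ℕ) : ℝ) * (C * (A : ℝ) ^ 3) + Real.log μ) := by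
      rw [Real.exp_add, Real.exp_log (by linarith)]
    rw [e]
    apply Real.exp_lt_exp.2
    set t : ℝ := (n : ℝ) ^ (α / 2) with htd
    have htt : t * t = (n : ℝ) ^ α := by
      rw [htd, ← Real.rpow_add hn0]
      congr 1
      ring
    have h4 : (n : ℝ) ^ α / 2 ≤ (n : ℝ) / m := by
      rw [div_le_div_iff₀ (by norm_num) hm0]
      calc (n : ℝ) ^ α * m ≤ (n : ℝ) ^ α * (2 * P) := by gcongr
        _ = P * (n : ℝ) ^ α * 2 := by ring
        _ = n * 2 := by rw [hPQ]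
    have h5 : (0.69 : ℝ) < Real.log 2 := by
      have := Real.log_two_gt_d9
      linarith
    have h6 : 0.34 * (t * t) ≤ Real.log 2 * (n / m) := by
      have h7 : 0 ≤ (n : ℝ) ^ α := by positivity
      rw [htt]
      nlinarith
    refine lt_of_lt_of_le ?_ h6
    push_cast
    have h8 : C * (A : ℝ) ^ 3 ≤ C * (8 * t) := by gcongr
    have ht1 : 1 ≤ t := by nlinarith
    nlinarith

theorem params_e' {α : ℝ} (hα0 : 0 < α) (hα1 : α ≤ 1) : ∃ h : ℕ, 1 ≤ h ∧ ∀ C μ : ℝ, 1 ≤ C → 1 ≤ μ →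
    ∃ C' : ℝ, 0 < C' ∧ ∀ n : ℕ, 2 ≤ n → ∃ m k A : ℕ, ∃ θ : ℝ, 1 ≤ m ∧ m ≤ 2 ^ k ∧ 1 ≤ A ∧
      (2 ^ k) ^ 2 ≤ A ^ h ∧ 1 ≤ θ ∧ ((n:ℝ) + 1) * (2 ^ k) ^ 3 ≤ θ ^ m ∧
      Real.exp (C * (A : ℝ) ^ 3) ^ 2 * μ * θ ^ (n + 1) ≤ Real.exp (C' * (n:ℝ) ^ α) := by
  refine ⟨⌈12 / α⌉₊, Nat.one_le_ceil_iff.2 (by positivity), fun C μ hC hμ => ?_⟩
  have hlμ : 0 ≤ Real.log μ := Real.log_nonneg hμ
  refine ⟨64 * C + Real.log μ + 60 / α, by positivity, fun n hn => ?_⟩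
  have hn2 : (2 : ℝ) ≤ n := by exact_mod_cast hn
  have hn0 : (0 : ℝ) < n := by linarith
  set P : ℝ := (n : ℝ) ^ (1 - α / 2) with hP
  have hP1 : 1 ≤ P := Real.one_le_rpow (by linarith) (by linarith)
  set t : ℝ := (n : ℝ) ^ (α / 2) with htd
  have ht1 : 1 ≤ t := Real.one_le_rpow (by linarith) (by positivity)
  have hPt : P * t = n := by
    rw [hP, htd, ← Real.rpow_add hn0]
    simp
  have htt : t * t = (n : ℝ) ^ α := by
    rw [htd, ← Real.rpow_add hn0]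
    congr 1
    ring
  have hPn : P ≤ n := by nlinarith
  set m : ℕ := ⌈P⌉₊ with hm
  have hPm : P ≤ m := Nat.le_ceil _
  have hm1 : 1 ≤ m := Nat.one_le_ceil_iff.2 (by linarith)
  have hmn : m ≤ n := Nat.ceil_le.2 hPn
  have hm0 : (0 : ℝ) < m := by exact_mod_cast hm1
  obtain ⟨hk1, hk2⟩ := clog_spec hm1
  set k := Nat.clog 2 m with hk
  have hkn : 2 ^ k ≤ 2 * n := hk2.trans (by omega)
  have hknR : (2 : ℝ) ^ k ≤ 2 * n := by exact_mod_cast hkn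
  have hk1R : (1 : ℝ) ≤ (2 : ℝ) ^ k := one_le_pow₀ (by norm_num)
  obtain ⟨A, hA1, hA2, hA3⟩ := A_spec (h := ⌈12 / α⌉₊) (Nat.one_le_ceil_iff.2 (by positivity)) hα0
    (Nat.le_ceil _) hknR
  have hA4 : (A : ℝ) ^ 3 ≤ 16 * t := by
    refine hA3.trans ?_
    rw [Real.mul_rpow (by norm_num) hn0.le]
    have : (2 : ℝ) ^ (α / 2) ≤ 2 := by
      calc (2 : ℝ) ^ (α / 2) ≤ (2 : ℝ) ^ (1 : ℝ) :=
            Real.rpow_le_rpow_of_exponent_le (by norm_num) (by linarith)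
        _ = 2 := Real.rpow_one 2
    nlinarith
  set Q : ℝ := ((n:ℝ) + 1) * (2 ^ k) ^ 3 with hQ
  have hQ1 : 1 ≤ Q := by
    rw [hQ]
    have : (1 : ℝ) ≤ (2 ^ k) ^ 3 := one_le_pow₀ hk1R
    nlinarith
  have hQ0 : 0 < Q := by linarith
  have hQn : Q ≤ (n : ℝ) ^ 8 := by
    rw [hQ]
    have h1 : (2 : ℝ) ^ k ≤ (n : ℝ) ^ 2 := by nlinarith
    have h2 : (n : ℝ) + 1 ≤ (n : ℝ) ^ 2 := by nlinarith
    calc ((n:ℝ) + 1) * (2 ^ k) ^ 3 ≤ (n : ℝ) ^ 2 * ((n : ℝ) ^ 2) ^ 3 := by gcongr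
      _ = (n : ℝ) ^ 8 := by ring
  have hlogQ : Real.log Q ≤ 16 / α * t := by
    have h1 : Real.log Q ≤ Real.log ((n : ℝ) ^ 8) := Real.log_le_log hQ0 hQn
    rw [Real.log_pow] at h1
    have h2 : Real.log n ≤ (n : ℝ) ^ (α / 2) / (α / 2) :=
      Real.log_le_rpow_div hn0.le (by positivity)
    have h3 : (n : ℝ) ^ (α / 2) / (α / 2) = 2 / α * t := by
      rw [← htd]
      field_simp
    rw [h3] at h2
    push_cast at h1
    calc Real.log Q ≤ 8 * Real.log n := h1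
      _ ≤ 8 * (2 / α * t) := by gcongr
      _ = 16 / α * t := by ring
  have hlogQ0 : 0 ≤ Real.log Q := Real.log_nonneg hQ1
  refine ⟨m, k, A, Real.exp (Real.log Q / m), hm1, hk1, hA1, hA2, Real.one_le_exp (by positivity),
    ?_, ?_⟩
  · rw [← Real.exp_nat_mul]
    have h1 : (m:ℝ) * (Real.log Q / m) = Real.log Q := by field_simp
    rw [h1, Real.exp_log hQ0]
  · have hθ : Real.exp (Real.log Q / m) ^ (n + 1) ≤ Real.exp (32 / α * (t * t)) := by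
      rw [← Real.exp_nat_mul]
      apply Real.exp_le_exp.2
      push_cast
      have h1 : ((n:ℝ) + 1) * (Real.log Q / m) = ((n:ℝ) + 1) * Real.log Q / m := by ring
      rw [h1, div_le_iff₀ hm0]
      calc ((n:ℝ) + 1) * Real.log Q ≤ (2 * n) * (16 / α * t) :=
            mul_le_mul (by linarith) hlogQ hlogQ0 (by positivity)
        _ = 32 / α * (t * t) * P := by rw [← hPt]; ring
        _ ≤ 32 / α * (t * t) * m := by gcongr
    have e : Real.exp (C * (A : ℝ) ^ 3) ^ 2 * μ = Real.exp (2 * (C * (A : ℝ) ^ 3) + Real.log μ) := by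
      rw [Real.exp_add, Real.exp_log (by linarith), ← Real.exp_nat_mul]
      norm_num
    rw [e]
    calc Real.exp (2 * (C * (A : ℝ) ^ 3) + Real.log μ) * Real.exp (Real.log Q / m) ^ (n + 1)
        ≤ Real.exp (2 * (C * (A : ℝ) ^ 3) + Real.log μ) * Real.exp (32 / α * (t * t)) := by gcongr
      _ = Real.exp (2 * (C * (A : ℝ) ^ 3) + Real.log μ + 32 / α * (t * t)) :=
          (Real.exp_add _ _).symm
      _ ≤ Real.exp ((64 * C + Real.log μ + 60 / α) * (n:ℝ) ^ α) := by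
          apply Real.exp_le_exp.2
          rw [← htt]
          have h8 : C * (A : ℝ) ^ 3 ≤ C * (16 * t) := by gcongr
          have h9 : t ≤ t * t := by nlinarith
          have h10 : 1 ≤ t * t := by nlinarith
          have h11 : C * t ≤ C * (t * t) := by gcongr
          have h12 : Real.log μ * 1 ≤ Real.log μ * (t * t) := by gcongr
          have h13 : 0 ≤ 28 / α * (t * t) := by positivity
          have h14 : 60 / α * (t * t) = 32 / α * (t * t) + 28 / α * (t * t) := by ring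
          have h15 : 0 ≤ C * (t * t) := by positivity
          have h16 : (64 * C + Real.log μ + 60 / α) * (t * t) =
            64 * (C * (t * t)) + Real.log μ * (t * t) + 60 / α * (t * t) := by ring
          rw [h16, h14]
          linarith

/-- the statement of `half_e` for fixed `h`, `C` -/
def HalfOK (h : ℕ) (C μ : ℝ) : Prop := ∀ (m n k A : ℕ), 1 ≤ m → m ≤ 2 ^ k → 1 ≤ A →
    (2 ^ k) ^ 2 ≤ A ^ h → ∀ (y : ℝ≥0∞), (∀ l < m, y ^ l ≤ 2 * (ENNReal.ofReal μ)⁻¹ ^ l) →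
    ∑ T ∈ Finset.range n, mass y (LoB m n (T + 1)) ≤ ((2 ^ k : ℝ≥0∞) ^ 3)⁻¹ →
    mass y (fun l => Half l ∧ l.length ≤ n) ≤ ENNReal.ofReal (Real.exp (C * (A : ℝ) ^ 3))

/-- a good length -/
theorem good_len_e {h : ℕ} {C μ : ℝ} (hμ : 1 ≤ μ) (hh : HalfOK h C μ)
    (hc : ∀ n : ℕ, μ ^ n ≤ (Nat.card (WalkFun n) : ℝ)) {m n k A : ℕ} (hm : 1 ≤ m) (hmn : m ≤ n)
    (hk : m ≤ 2 ^ k) (hA : 1 ≤ A) (hA2 : (2 ^ k) ^ 2 ≤ A ^ h) (hkn : (2 ^ k) ^ 3 ≤ n ^ 3)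
    (hlt : Real.exp (C * (A : ℝ) ^ 3) ^ 2 * μ < (2:ℝ) ^ ((n:ℝ) / (m:ℝ))) :
    ∃ l, m ≤ l ∧ l ≤ n ∧ (n:ℝ)⁻¹ ^ 4 * (2:ℝ) ^ (-(2 * (l:ℝ) / (m:ℝ))) ≤ (bn l : ℝ) / μ ^ l := by
  by_contra hcon
  push Not at hcon
  have hμ0 : 0 < μ := by linarith
  have hm0 : (0:ℝ) < m := by exact_mod_cast hm
  have hn1 : 1 ≤ n := hm.trans hmn
  have hn0 : (1:ℝ) ≤ n := by exact_mod_cast hn1
  have hn00 : (0:ℝ) < n := by linarith
  set θ : ℝ := (2:ℝ) ^ ((1:ℝ) / (m:ℝ)) with hθ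
  have hθ0 : 0 < θ := Real.rpow_pos_of_pos (by norm_num) _
  have hθl : ∀ l : ℕ, θ ^ l = (2:ℝ) ^ ((l:ℝ) / (m:ℝ)) := by
    intro l
    rw [hθ, ← Real.rpow_natCast, ← Real.rpow_mul (by norm_num)]
    congr 1
    ring
  set y : ℝ := μ⁻¹ * θ with hy
  have hy0 : 0 < y := by positivity
  have hx : (ENNReal.ofReal μ)⁻¹ = ENNReal.ofReal μ⁻¹ := FinalHW.inv_eq hμ
  have hhalf := hh m n k A hm hk hA hA2 (ENNReal.ofReal y) ?_ ?_
  · have hH : mass (ENNReal.ofReal y) (fun l => Half l ∧ l.length ≤ (n - 1) + 1) ≤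
        ENNReal.ofReal (Real.exp (C * (A : ℝ) ^ 3)) := by
      rw [Nat.sub_add_cancel hn1]
      exact hhalf
    have h1 := FinalHW.walk_le hy0.le (Real.exp_pos _).le hH
    rw [Nat.sub_add_cancel hn1] at h1
    have h2 : μ ^ (n - 1) * y ^ n ≤ Real.exp (C * (A : ℝ) ^ 3) ^ 2 :=
      (mul_le_mul_of_nonneg_right (hc (n - 1)) (by positivity)).trans h1
    have h3 : μ ^ (n - 1) * y ^ n = (2:ℝ) ^ ((n:ℝ) / (m:ℝ)) / μ := by
      rw [hy, mul_pow, hθl]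
      have h4 : μ ^ n = μ ^ (n - 1) * μ := by
        conv_lhs => rw [← Nat.sub_add_cancel hn1, pow_succ]
      rw [inv_pow, h4]
      field_simp
    rw [h3, div_le_iff₀ hμ0] at h2
    linarith
  · intro l hl
    rw [hx, ← ENNReal.ofReal_pow hy0.le, ← ENNReal.ofReal_pow (by positivity)]
    have h1 : y ^ l ≤ 2 * μ⁻¹ ^ l := by
      rw [hy, mul_pow, hθl, mul_comm]
      refine mul_le_mul_of_nonneg_right ?_ (by positivity)
      calc (2:ℝ) ^ ((l:ℝ) / (m:ℝ)) ≤ (2:ℝ) ^ (1:ℝ) := by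
            refine Real.rpow_le_rpow_of_exponent_le (by norm_num) ?_
            rw [div_le_one hm0]
            exact_mod_cast hl.le
        _ = 2 := Real.rpow_one 2
    calc ENNReal.ofReal (y ^ l) ≤ ENNReal.ofReal (2 * μ⁻¹ ^ l) := ENNReal.ofReal_le_ofReal h1
      _ = 2 * ENNReal.ofReal (μ⁻¹ ^ l) := by
          rw [ENNReal.ofReal_mul (by norm_num)]
          norm_num
  · refine (lo_le (ENNReal.ofReal y) hm).trans ?_
    have h1 : ∀ l ∈ Finset.Icc m n, (bn l : ℝ≥0∞) * ENNReal.ofReal y ^ l ≤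
        ENNReal.ofReal ((n:ℝ)⁻¹ ^ 4) := by
      intro l hl
      rw [Finset.mem_Icc] at hl
      rw [← ENNReal.ofReal_pow hy0.le, ← ENNReal.ofReal_natCast,
        ← ENNReal.ofReal_mul (Nat.cast_nonneg _)]
      refine ENNReal.ofReal_le_ofReal ?_
      have h2 := (hcon l hl.1 hl.2).le
      have h3 : (bn l : ℝ) * y ^ l = (bn l : ℝ) / μ ^ l * θ ^ l := by
        rw [hy, mul_pow, inv_pow]
        field_simp
      rw [h3]
      have h4 : (2:ℝ) ^ (-(2 * (l:ℝ) / (m:ℝ))) * θ ^ l ≤ 1 := by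
        rw [hθl, ← Real.rpow_add (by norm_num)]
        refine Real.rpow_le_one_of_one_le_of_nonpos (by norm_num) ?_
        have : 0 ≤ (l:ℝ) / (m:ℝ) := by positivity
        have h5 : 2 * (l:ℝ) / (m:ℝ) = 2 * ((l:ℝ) / (m:ℝ)) := by ring
        rw [h5]
        linarith
      calc (bn l : ℝ) / μ ^ l * θ ^ l ≤
          ((n:ℝ)⁻¹ ^ 4 * (2:ℝ) ^ (-(2 * (l:ℝ) / (m:ℝ)))) * θ ^ l :=
            mul_le_mul_of_nonneg_right h2 (by positivity)
        _ = (n:ℝ)⁻¹ ^ 4 * ((2:ℝ) ^ (-(2 * (l:ℝ) / (m:ℝ))) * θ ^ l) := by ring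
        _ ≤ (n:ℝ)⁻¹ ^ 4 * 1 := mul_le_mul_of_nonneg_left h4 (by positivity)
        _ = (n:ℝ)⁻¹ ^ 4 := mul_one _
    calc ∑ l ∈ Finset.Icc m n, (bn l : ℝ≥0∞) * ENNReal.ofReal y ^ l
        ≤ ∑ l ∈ Finset.Icc m n, ENNReal.ofReal ((n:ℝ)⁻¹ ^ 4) := Finset.sum_le_sum h1
      _ = ((Finset.Icc m n).card : ℝ≥0∞) * ENNReal.ofReal ((n:ℝ)⁻¹ ^ 4) := by
          rw [Finset.sum_const, nsmul_eq_mul]
      _ ≤ (n : ℝ≥0∞) * ENNReal.ofReal ((n:ℝ)⁻¹ ^ 4) := by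
          refine mul_le_mul_left ?_ _
          rw [Nat.card_Icc]
          exact_mod_cast (by omega : n + 1 - m ≤ n)
      _ = ENNReal.ofReal ((n:ℝ) ^ 3)⁻¹ := by
          rw [← ENNReal.ofReal_natCast, ← ENNReal.ofReal_mul (Nat.cast_nonneg _)]
          congr 1
          field_simp
      _ ≤ ((2 ^ k : ℝ≥0∞) ^ 3)⁻¹ := by
          rw [ENNReal.ofReal_inv_of_pos (by positivity), ENNReal.inv_le_inv]
          have h2 : ((2 ^ k : ℝ≥0∞) ^ 3) = ((((2 ^ k) ^ 3 : ℕ)) : ℝ≥0∞) := by push_cast; rfl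
          have h3 : ENNReal.ofReal ((n:ℝ) ^ 3) = (((n ^ 3 : ℕ)) : ℝ≥0∞) := by
            rw [← ENNReal.ofReal_natCast]
            push_cast
            rfl
          rw [h2, h3]
          exact_mod_cast hkn

/-- the condition of `half_e` -/
lemma exists_half {μ : ℝ} (hμ : 1 ≤ μ) (hu : ∀ t, uu (ENNReal.ofReal μ)⁻¹ t ≤ 1) {h : ℕ}
    (hh : 1 ≤ h) : ∃ C : ℝ, 1 ≤ C ∧ HalfOK h C μ := by
  obtain ⟨C, hC, hC2⟩ := half_e h hh
  exact ⟨C, hC, hC2 μ hμ hu⟩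

/-- monotonicity in `α` -/
lemma rpow_min_le {n : ℕ} (hn : 1 ≤ n) (α : ℝ) : (n : ℝ) ^ (min α 1) ≤ (n : ℝ) ^ α :=
  Real.rpow_le_rpow_of_exponent_le (by exact_mod_cast hn) (min_le_left _ _)

theorem upper_e {μ : ℝ} (hμ : 1 ≤ μ)
    (hT : Tendsto (fun n : ℕ => ((Nat.card (WalkFun n) : ℕ) : ℝ) ^ ((1:ℝ) / (n:ℝ))) atTop (𝓝 μ))
    {α : ℝ} (hα : 0 < α) : ∃ C : ℝ, 0 < C ∧ ∀ n : ℕ, 2 ≤ n →
      (Nat.card (WalkFun n) : ℝ) ≤ μ ^ n * Real.exp (C * (n:ℝ) ^ α) := by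
  have hu := uu_le_one hμ hT
  have hμ0 : 0 < μ := by linarith
  obtain ⟨h, hh, hpar⟩ := params_e' (α := min α 1) (by positivity) (min_le_right _ _)
  obtain ⟨C, hC, hCh⟩ := exists_half hμ hu hh
  obtain ⟨C', hC', hC2⟩ := hpar C μ hC hμ
  refine ⟨C', hC', fun n hn => ?_⟩
  obtain ⟨m, k, A, θ, hm, hk, hA, hA2, hθ, hθm, hexp⟩ := hC2 n hn
  have hθ0 : 0 < θ := by linarith
  set y : ℝ := (μ * θ)⁻¹ with hy
  have hy0 : 0 < y := by positivity
  have hx : (ENNReal.ofReal μ)⁻¹ = ENNReal.ofReal μ⁻¹ := FinalHW.inv_eq hμ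
  have hyx : y ≤ μ⁻¹ := by
    rw [hy]
    refine inv_anti₀ hμ0 ?_
    nlinarith
  have hhalf := hCh m (n + 1) k A hm hk hA hA2 (ENNReal.ofReal y) ?_ ?_
  · have h1 := FinalHW.walk_le hy0.le (Real.exp_pos _).le hhalf
    have h2 : (Nat.card (WalkFun n) : ℝ) ≤ Real.exp (C * (A : ℝ) ^ 3) ^ 2 * (μ * θ) ^ (n + 1) := by
      rw [hy, inv_pow, ← div_eq_mul_inv, div_le_iff₀ (by positivity)] at h1
      exact h1
    refine h2.trans ?_
    have h3 : Real.exp (C' * (n:ℝ) ^ (min α 1)) ≤ Real.exp (C' * (n:ℝ) ^ α) := by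
      apply Real.exp_le_exp.2
      have := rpow_min_le (n := n) (by omega) α
      gcongr
    calc Real.exp (C * (A : ℝ) ^ 3) ^ 2 * (μ * θ) ^ (n + 1) =
        μ ^ n * (Real.exp (C * (A : ℝ) ^ 3) ^ 2 * μ * θ ^ (n + 1)) := by
          rw [mul_pow, pow_succ μ n]
          ring
      _ ≤ μ ^ n * Real.exp (C' * (n:ℝ) ^ (min α 1)) :=
        mul_le_mul_of_nonneg_left hexp (by positivity)
      _ ≤ _ := mul_le_mul_of_nonneg_left h3 (by positivity)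
  · intro l _
    rw [hx]
    calc ENNReal.ofReal y ^ l ≤ ENNReal.ofReal μ⁻¹ ^ l := by
          gcongr
      _ ≤ 2 * ENNReal.ofReal μ⁻¹ ^ l := by
          calc ENNReal.ofReal μ⁻¹ ^ l = 1 * ENNReal.ofReal μ⁻¹ ^ l := (one_mul _).symm
            _ ≤ 2 * ENNReal.ofReal μ⁻¹ ^ l := by
                refine mul_le_mul_left ?_ _
                exact one_le_two
  · have h1 := lo_le' (x := (ENNReal.ofReal μ)⁻¹) (y := ENNReal.ofReal y) (θ := ENNReal.ofReal θ) hu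
      (by rw [ENNReal.one_le_ofReal]; exact hθ) ENNReal.ofReal_ne_top (by
        rw [hx, ← ENNReal.ofReal_mul hy0.le]
        refine ENNReal.ofReal_le_ofReal (le_of_eq ?_)
        rw [hy]
        field_simp) (m := m) (n := n + 1)
    have h2 : ((n + 1 : ℕ) : ℝ≥0∞) * (2 ^ k : ℝ≥0∞) ^ 3 ≤ ENNReal.ofReal θ ^ m := by
      have e : ((n + 1 : ℕ) : ℝ≥0∞) * (2 ^ k : ℝ≥0∞) ^ 3 =
          ENNReal.ofReal (((n:ℝ) + 1) * (2 ^ k) ^ 3) := by
        have e2 : ((n + 1 : ℕ) : ℝ≥0∞) * (2 ^ k : ℝ≥0∞) ^ 3 = (((n + 1) * (2 ^ k) ^ 3 : ℕ) : ℝ≥0∞) := by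
          push_cast
          rfl
        rw [e2, ← ENNReal.ofReal_natCast]
        congr 1
        push_cast
        rfl
      rw [← ENNReal.ofReal_pow hθ0.le, e]
      exact ENNReal.ofReal_le_ofReal hθm
    set S1 := ∑ T ∈ Finset.range (n + 1), mass (ENNReal.ofReal y) (LoB m (n + 1) (T + 1)) with hS
    have h3 : ((n + 1 : ℕ) : ℝ≥0∞) * ((2 ^ k : ℝ≥0∞) ^ 3 * S1) ≤ ((n + 1 : ℕ) : ℝ≥0∞) * 1 := by
      rw [mul_one, ← mul_assoc]
      exact (mul_le_mul_left h2 _).trans h1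
    have h4 : (2 ^ k : ℝ≥0∞) ^ 3 * S1 ≤ 1 :=
      (ENNReal.mul_le_mul_iff_right (by positivity) (ENNReal.natCast_ne_top _)).mp h3
    have h5 : (2 ^ k : ℝ≥0∞) ^ 3 ≠ 0 := by positivity
    have h6 : (2 ^ k : ℝ≥0∞) ^ 3 ≠ ⊤ := ENNReal.pow_ne_top (ENNReal.pow_ne_top (by norm_num))
    calc S1 = ((2 ^ k : ℝ≥0∞) ^ 3)⁻¹ * ((2 ^ k : ℝ≥0∞) ^ 3 * S1) := by
          rw [← mul_assoc, ENNReal.inv_mul_cancel h5 h6, one_mul]
      _ ≤ ((2 ^ k : ℝ≥0∞) ^ 3)⁻¹ * 1 := mul_le_mul_right h4 _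
      _ = ((2 ^ k : ℝ≥0∞) ^ 3)⁻¹ := mul_one _

theorem bridges_e {μ : ℝ} (hμ : 1 ≤ μ)
    (hT : Tendsto (fun n : ℕ => ((Nat.card (WalkFun n) : ℕ) : ℝ) ^ ((1:ℝ) / (n:ℝ))) atTop (𝓝 μ))
    (hc : ∀ n : ℕ, μ ^ n ≤ (Nat.card (WalkFun n) : ℝ)) {α : ℝ} (hα : 0 < α) :
    ∃ C : ℝ, 0 < C ∧ ∀ n : ℕ, 2 ≤ n → μ ^ n * Real.exp (-(C * (n:ℝ) ^ α)) ≤ (bn n : ℝ) := by
  have hu := uu_le_one hμ hT
  have hμ0 : 0 < μ := by linarith
  have hb : ∀ n, (0:ℝ) < bn n := fun n => by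
    have := bn_pos n
    exact_mod_cast this
  set F : ℕ → ℝ := fun n => n * Real.log μ - Real.log (bn n) with hF
  have hsub : ∀ a b, F (a + b) ≤ F a + F b := by
    intro a b
    have h1 : Real.log (bn a) + Real.log (bn b) ≤ Real.log (bn (a + b)) := by
      rw [← Real.log_mul (hb a).ne' (hb b).ne']
      refine Real.log_le_log (mul_pos (hb a) (hb b)) ?_
      exact_mod_cast bn_mul a b
    simp only [hF]
    push_cast
    linarith
  set β : ℝ := min α 1 / 2 with hβ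
  have hβ0 : 0 < β := by positivity
  have hβ1 : β ≤ 1 := by
    have := min_le_right α 1
    linarith
  obtain ⟨h, hh, hpar⟩ := params_e hβ0 hβ1
  obtain ⟨C, hC, hCh⟩ := exists_half hμ hu hh
  obtain ⟨N0, hN0⟩ := hpar C μ hC hμ
  obtain ⟨C', hC', h'⟩ := F_bound_gen (α := β) hβ0 hβ1 (F := F) hsub (N0 := max N0 1) (by
    intro n hn
    have hn0 : N0 ≤ n := (le_max_left _ _).trans hn
    have hn1 : 1 ≤ n := (le_max_right _ _).trans hn
    obtain ⟨m, k, A, hm, hmn, hk, hk2, hA, hA2, hlog, hkn, hlt⟩ := hN0 n hn0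
    obtain ⟨l, hl1, hl2, hl3⟩ := good_len_e hμ hCh hc hm hmn hk hA hA2 hkn hlt
    refine ⟨m, l, hm, hl1, hl2, hlog, ?_⟩
    have hnr : (0:ℝ) < n := by exact_mod_cast hn1
    have hmr : (0:ℝ) < m := by exact_mod_cast hm
    have h1 := Real.log_le_log (by positivity) hl3
    rw [Real.log_mul (by positivity) (by positivity), Real.log_pow, Real.log_inv,
      Real.log_rpow (by norm_num), Real.log_div (hb l).ne' (by positivity), Real.log_pow] at h1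
    have h2 : 2 * (l:ℝ) / m * Real.log 2 ≤ 2 * (l:ℝ) / m := by
      have h3 : Real.log 2 ≤ 1 := by
        have := Real.log_two_lt_d9
        linarith
      have h4 : 0 ≤ 2 * (l:ℝ) / m := by positivity
      nlinarith
    simp only [hF]
    push_cast at h1
    linarith)
  -- absorb the logarithm
  have hmin : 0 < min α 1 := by positivity
  refine ⟨C' * (4 / min α 1) ^ 2, by positivity, fun n hn => ?_⟩
  have h1 := h' n hn
  simp only [hF] at h1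
  have hn1 : (1 : ℝ) ≤ n := by exact_mod_cast (by omega : 1 ≤ n)
  have hn0 : (0 : ℝ) < n := by linarith
  have h3 : (n:ℝ) ^ β * Real.log n ^ 2 ≤ (4 / min α 1) ^ 2 * (n:ℝ) ^ α := by
    have h4 : Real.log n ≤ (n:ℝ) ^ (min α 1 / 4) / (min α 1 / 4) :=
      Real.log_le_rpow_div hn0.le (by positivity)
    have h5 : 0 ≤ Real.log n := Real.log_nonneg hn1
    have h6 : Real.log n ^ 2 ≤ ((n:ℝ) ^ (min α 1 / 4) / (min α 1 / 4)) ^ 2 :=
      pow_le_pow_left₀ h5 h4 2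
    calc (n:ℝ) ^ β * Real.log n ^ 2
        ≤ (n:ℝ) ^ β * ((n:ℝ) ^ (min α 1 / 4) / (min α 1 / 4)) ^ 2 := by gcongr
      _ = (4 / min α 1) ^ 2 * ((n:ℝ) ^ β * ((n:ℝ) ^ (min α 1 / 4)) ^ 2) := by
          field_simp
      _ = (4 / min α 1) ^ 2 * (n:ℝ) ^ (min α 1) := by
          congr 1
          rw [← Real.rpow_natCast, ← Real.rpow_mul hn0.le, ← Real.rpow_add hn0, hβ]
          congr 1
          push_cast
          ring
      _ ≤ (4 / min α 1) ^ 2 * (n:ℝ) ^ α := by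
          have := rpow_min_le (n := n) (by omega) α
          gcongr
  have h2 : Real.log (μ ^ n * Real.exp (-(C' * (4 / min α 1) ^ 2 * (n:ℝ) ^ α))) ≤
      Real.log (bn n) := by
    rw [Real.log_mul (by positivity) (by positivity), Real.log_pow, Real.log_exp]
    have h7 := mul_le_mul_of_nonneg_left h3 hC'.le
    linarith
  exact (Real.log_le_log_iff (by positivity) (hb n)).mp h2

theorem lower_e {μ : ℝ} (hμ : 1 ≤ μ)
    (hT : Tendsto (fun n : ℕ => ((Nat.card (WalkFun n) : ℕ) : ℝ) ^ ((1:ℝ) / (n:ℝ))) atTop (𝓝 μ))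
    (hc : ∀ n : ℕ, μ ^ n ≤ (Nat.card (WalkFun n) : ℝ)) {α : ℝ} (hα : 0 < α) :
    ∃ C : ℝ, 0 < C ∧ ∀ n : ℕ, 2 ≤ n → μ ^ (2 * n) * Real.exp (-(C * (n:ℝ) ^ α)) ≤
      (Nat.card (PolyFun n) : ℝ) / (4 * (n:ℝ)) := by
  have hμ0 : 0 < μ := by linarith
  have hlμ : 0 ≤ Real.log μ := Real.log_nonneg hμ
  obtain ⟨C, hC, h⟩ := bridges_e hμ hT hc hα
  -- all lengths at least one
  have hb : ∀ m : ℕ, 1 ≤ m → μ ^ m * Real.exp (-(C * ((m + 1 : ℕ) : ℝ) ^ α + Real.log μ)) ≤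
      (bn m : ℝ) := by
    intro m hm
    have hm1 : (0:ℝ) ≤ ((m + 1 : ℕ) : ℝ) ^ α := by positivity
    rcases Nat.lt_or_ge m 2 with h2 | h2
    · have : m = 1 := by omega
      subst this
      have h3 : (1:ℝ) ≤ bn 1 := by exact_mod_cast bn_pos 1
      refine le_trans ?_ h3
      calc μ ^ 1 * Real.exp (-(C * ((1 + 1 : ℕ) : ℝ) ^ α + Real.log μ))
          ≤ μ ^ 1 * Real.exp (-(Real.log μ)) := by
            refine mul_le_mul_of_nonneg_left (Real.exp_le_exp.mpr ?_) (by positivity)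
            have := mul_nonneg hC.le hm1
            linarith
        _ = 1 := by
            rw [pow_one, Real.exp_neg, Real.exp_log hμ0, mul_inv_cancel₀ hμ0.ne']
    · refine le_trans ?_ (h m h2)
      refine mul_le_mul_of_nonneg_left (Real.exp_le_exp.mpr ?_) (by positivity)
      have h3 : (m:ℝ) ^ α ≤ ((m + 1 : ℕ) : ℝ) ^ α :=
        Real.rpow_le_rpow (by positivity) (by push_cast; linarith) hα.le
      have h6 : C * (m:ℝ) ^ α ≤ C * ((m + 1 : ℕ) : ℝ) ^ α := by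
        gcongr
      linarith
  refine ⟨2 * C + 4 * Real.log μ + 10 / α, by positivity, fun n hn => ?_⟩
  obtain ⟨m, rfl⟩ : ∃ m, n = m + 1 := ⟨n - 1, by omega⟩
  have hm : 1 ≤ m := by omega
  have hmr : (1:ℝ) ≤ m := by exact_mod_cast hm
  have h1 := hb m hm
  have h2 := poly_ge hm
  set P : ℝ := (Nat.card (PolyFun (m + 1)) : ℝ) / (4 * ((m + 1 : ℕ) : ℝ)) with hP
  set N : ℝ := ((m + 1 : ℕ) : ℝ) with hN
  have hNm : N = m + 1 := by rw [hN]; push_cast; ring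
  have hN2 : 2 ≤ N := by rw [hNm]; linarith
  have hN0 : 0 < N := by linarith
  have hA1 : 1 ≤ N ^ α := Real.one_le_rpow (by linarith) hα.le
  set A : ℝ := N ^ α with hA
  set Lg : ℝ := Real.log N with hLg
  have hLgA : Lg ≤ A / α := Real.log_le_rpow_div hN0.le hα
  -- the polynomial factor
  have hpoly : (m:ℝ) ^ 2 * (2 * m + 1) ^ 4 ≤ Real.exp (10 * Lg) := by
    have h3 : Real.exp (10 * Lg) = N ^ 10 := by
      rw [hLg, mul_comm, Real.exp_mul, Real.exp_log (by linarith)]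
      exact_mod_cast Real.rpow_natCast N 10
    rw [h3]
    have h4 : (m:ℝ) ≤ N := by rw [hNm]; linarith
    have h5 : 2 * (m:ℝ) + 1 ≤ N ^ 2 := by rw [hNm]; nlinarith
    calc (m:ℝ) ^ 2 * (2 * m + 1) ^ 4 ≤ N ^ 2 * (N ^ 2) ^ 4 := by
          gcongr
      _ = N ^ 10 := by ring
  have h3 : (μ ^ m * Real.exp (-(C * A + Real.log μ))) ^ 2 ≤ (bn m : ℝ) ^ 2 :=
    pow_le_pow_left₀ (by positivity) h1 2
  have hP0 : 0 ≤ P := by positivity
  have h4 : (μ ^ m * Real.exp (-(C * A + Real.log μ))) ^ 2 ≤ Real.exp (10 * Lg) * P :=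
    h3.trans (h2.trans (mul_le_mul_of_nonneg_right hpoly hP0))
  have h5 : μ ^ (2 * (m + 1)) * Real.exp (-((2 * C + 4 * Real.log μ + 10 / α) * A)) ≤
      Real.exp (-(10 * Lg)) * (μ ^ m * Real.exp (-(C * A + Real.log μ))) ^ 2 := by
    have e1 : (μ ^ m * Real.exp (-(C * A + Real.log μ))) ^ 2 =
        μ ^ (2 * m) * Real.exp (-(2 * (C * A + Real.log μ))) := by
      rw [mul_pow, ← pow_mul, ← Real.exp_nat_mul]
      congr 1
      · congr 1; ring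
      · congr 1; push_cast; ring
    have e2 : μ ^ (2 * (m + 1)) = μ ^ (2 * m) * Real.exp (2 * Real.log μ) := by
      rw [mul_comm 2 (Real.log μ), Real.exp_mul, Real.exp_log hμ0]
      have : μ ^ (2:ℝ) = μ ^ 2 := by exact_mod_cast Real.rpow_natCast μ 2
      rw [this]
      ring
    rw [e1, e2]
    have e3 : Real.exp (-(10 * Lg)) * (μ ^ (2 * m) *
        Real.exp (-(2 * (C * A + Real.log μ)))) =
        μ ^ (2 * m) * (Real.exp (-(10 * Lg)) * Real.exp (-(2 * (C * A + Real.log μ)))) := by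
      ring
    rw [e3, mul_assoc, ← Real.exp_add, ← Real.exp_add]
    refine mul_le_mul_of_nonneg_left (Real.exp_le_exp.mpr ?_) (by positivity)
    have f1 : 10 * Lg ≤ 10 / α * A := by
      calc 10 * Lg ≤ 10 * (A / α) := by linarith
        _ = 10 / α * A := by ring
    have f3 : Real.log μ ≤ Real.log μ * A := by nlinarith
    have f7 : (2 * C + 4 * Real.log μ + 10 / α) * A =
        2 * (C * A) + 4 * (Real.log μ * A) + 10 / α * A := by ring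
    rw [f7]
    linarith
  have h6 : Real.exp (-(10 * Lg)) * (μ ^ m * Real.exp (-(C * A + Real.log μ))) ^ 2 ≤ P := by
    calc Real.exp (-(10 * Lg)) * (μ ^ m * Real.exp (-(C * A + Real.log μ))) ^ 2
        ≤ Real.exp (-(10 * Lg)) * (Real.exp (10 * Lg) * P) :=
          mul_le_mul_of_nonneg_left h4 (Real.exp_pos _).le
      _ = P := by
          rw [← mul_assoc, ← Real.exp_add, neg_add_cancel, Real.exp_zero, one_mul]
  exact h5.trans h6

end Pool.Agent.Work.MP_376faf_co_neps
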