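import Pool.Agent.Work.MP_376faf_co_neps.MultiB

/-! The multifold inequality (MF) of note 2994. -/

set_option autoImplicit false

namespace Pool.Agent.Work.MP_376faf_co_neps

open Pool.Agent.Work.MP_376faf_co_lower Pool.Agent.Work.MP_376faf_co_hw
open scoped ENNReal

namespace Abs

/-- extension of the left ends -/
def eu {m : ℕ} (w : Fin m → ℕ × ℕ) (i : ℕ) : ℤ := if h : i < m then ((w ⟨i, h⟩).1 : ℤ) else 0
/-- extension of the right ends -/
def ev {m : ℕ} (w : Fin m → ℕ × ℕ) (i : ℕ) : ℤ := if h : i < m then ((w ⟨i, h⟩).2 : ℤ) else 0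
/-- indices of the left ends -/
def si (l : List Pt) {m : ℕ} (w : Fin m → ℕ × ℕ) (i : ℕ) : ℕ :=
  if h : i < m then idx l (w ⟨i, h⟩).1 else 0
/-- indices of the right ends -/
def ti (l : List Pt) {m : ℕ} (w : Fin m → ℕ × ℕ) (i : ℕ) : ℕ :=
  if h : i < m then idx l (w ⟨i, h⟩).2 else 0

theorem eu_of {m : ℕ} (w : Fin m → ℕ × ℕ) {i : ℕ} (h : i < m) : eu w i = (w ⟨i, h⟩).1 := by
  simp [eu, h]
theorem ev_of {m : ℕ} (w : Fin m → ℕ × ℕ) {i : ℕ} (h : i < m) : ev w i = (w ⟨i, h⟩).2 := by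
  simp [ev, h]
theorem si_of (l : List Pt) {m : ℕ} (w : Fin m → ℕ × ℕ) {i : ℕ} (h : i < m) :
    si l w i = idx l (w ⟨i, h⟩).1 := by simp [si, h]
theorem ti_of (l : List Pt) {m : ℕ} (w : Fin m → ℕ × ℕ) {i : ℕ} (h : i < m) :
    ti l w i = idx l (w ⟨i, h⟩).2 := by simp [ti, h]

section
variable {l : List Pt} {m a b X D : ℕ} {w : Fin m → ℕ × ℕ}

theorem adm_hab (H : Adm (rn l) (fo l) (sp l) a b X D w) :
    ∀ i j, i < j → j < m → ev w i + (ev w i - eu w i) + (ev w j - eu w j) + a + b ≤ eu w j := by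
  intro i j hij hj
  have hi : i < m := by omega
  rw [eu_of w hi, ev_of w hi, eu_of w hj, ev_of w hj]
  have h1 := H.sep ⟨i, hi⟩ ⟨j, hj⟩ hij
  have h2 := H.len ⟨i, hi⟩
  have h3 := H.len ⟨j, hj⟩
  omega

theorem adm_mf (hl : Bridge l) (hb : 1 ≤ b) (hba : b ≤ a)
    (H : Adm (rn l) (fo l) (sp l) a b X D w) :
    MF l.length (xs l) (ys l) m (eu w) (ev w) (si l w) (ti l w) where
  bp := bpos hl
  sep := by
    refine ⟨fun i hi => ?_, fun i j hij hj => ?_⟩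
    · rw [eu_of w hi, ev_of w hi]
      have := H.len ⟨i, hi⟩
      omega
    · have := adm_hab H i j hij hj
      omega
  fu := by
    intro f hf
    obtain ⟨i, hi⟩ := of_fo hl (H.mem_u ⟨f, hf⟩)
    rw [eu_of w hf, si_of l w hf, idx_eq hi.ren]
    exact hi
  fv := by
    intro f hf
    obtain ⟨i, hi⟩ := of_fo hl (H.mem_v ⟨f, hf⟩)
    rw [ev_of w hf, ti_of l w hf, idx_eq hi.ren]
    exact hi
  lo := by
    intro f hf
    rw [eu_of w hf, ev_of w hf]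
    have h1 := H.win_u ⟨f, hf⟩
    have h2 := H.win_v ⟨f, hf⟩
    have h3 := H.lo ⟨f, hf⟩
    omega
  hi := by
    intro f hf
    rw [eu_of w hf, ev_of w hf, xs_len hl]
    have h1 := H.win_u ⟨f, hf⟩
    have h2 := H.win_v ⟨f, hf⟩
    have h3 := H.hi ⟨f, hf⟩
    omega
  gl := by
    intro f hf
    obtain ⟨g, hg, h1, h2⟩ := H.gl ⟨f, hf⟩
    obtain ⟨ρ, hρ⟩ := of_rn hl hg
    refine ⟨g, ρ, hρ, ?_, ?_⟩
    · rw [eu_of w hf, ev_of w hf]
      have := H.len ⟨f, hf⟩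
      omega
    · rw [eu_of w hf, xs_len hl]
      have h3 := H.hi ⟨f, hf⟩
      have := H.len ⟨f, hf⟩
      omega
  gr := by
    intro f hf
    obtain ⟨g, hg, h1, h2⟩ := H.gr ⟨f, hf⟩
    obtain ⟨ρ, hρ⟩ := of_rn hl hg
    refine ⟨g, ρ, hρ, ?_, ?_⟩
    · rw [eu_of w hf, ev_of w hf]
      have := H.len ⟨f, hf⟩
      omega
    · rw [ev_of w hf]
      have h3 := H.lo ⟨f, hf⟩
      have := H.len ⟨f, hf⟩
      omega

theorem adm_iso (hl : Bridge l) (hb : 1 ≤ b) (hba : b ≤ a)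
    (H : Adm (rn l) (fo l) (sp l) a b X D w) {f : ℕ} (hf : f < m) :
    Iso (fun i => ph (eu w) (ev w) m (xs l i)) a b (si l w f) := by
  refine (adm_mf hl hb hba H).iso (adm_hab H) hf ?_
  intro c hc h1 h2
  rw [eu_of w hf] at h1 h2
  obtain ⟨r, hr, h3, h4⟩ := H.iso ⟨f, hf⟩ c.toNat (by omega) (by omega)
  obtain ⟨ρ, hρ⟩ := of_rn hl hr
  exact ⟨r, ρ, hρ, by omega, by omega⟩

/-- the folded set of steps -/
def SS (l : List Pt) (w : Fin m → ℕ × ℕ) (j : ℕ) : Prop :=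
  ∃ f < m, si l w f ≤ j ∧ j < ti l w f

open Classical in
/-- the folded bridge -/
noncomputable def WW (l : List Pt) (w : Fin m → ℕ × ℕ) : List Pt := fold (SS l w) l

open Classical in
theorem WW_length : (WW l w).length = l.length := fold_length (SS l w) l

theorem WW_pos (hl : Bridge l) (hb : 1 ≤ b) (hba : b ≤ a)
    (H : Adm (rn l) (fo l) (sp l) a b X D w) (i : ℕ) :
    pos (WW l w) i = (ph (eu w) (ev w) m (xs l i), ys l i) := by
  classical
  rcases Nat.lt_or_ge l.length i with h | h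
  · have h1 := pos_fold (adm_mf hl hb hba H) (SS l w) (fun j => Iff.rfl) l.length le_rfl
    have h2 : pos (WW l w) i = pos (WW l w) l.length := by
      rw [pos_ge (WW l w) (by rw [WW_length]; exact h.le), pos_ge (WW l w) (by rw [WW_length])]
    rw [h2]
    have h3 : xs l i = xs l l.length := by
      unfold xs; rw [pos_ge l h.le, pos_ge l le_rfl]
    have h4 : ys l i = ys l l.length := by
      unfold ys; rw [pos_ge l h.le, pos_ge l le_rfl]
    rw [h3, h4]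
    exact h1
  · exact pos_fold (adm_mf hl hb hba H) (SS l w) (fun j => Iff.rfl) i h

theorem WW_xs (hl : Bridge l) (hb : 1 ≤ b) (hba : b ≤ a)
    (H : Adm (rn l) (fo l) (sp l) a b X D w) :
    xs (WW l w) = fun i => ph (eu w) (ev w) m (xs l i) := by
  funext i
  unfold xs
  rw [WW_pos hl hb hba H]
  rfl

theorem WW_bridge (hl : Bridge l) (hb : 1 ≤ b) (hba : b ≤ a)
    (H : Adm (rn l) (fo l) (sp l) a b X D w) : Bridge (WW l w) := by
  classical
  have hM := adm_mf hl hb hba H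
  refine ⟨⟨?_, ?_⟩, ?_⟩
  · intro s hs
    unfold WW fold at hs
    rw [List.mem_mapIdx] at hs
    obtain ⟨i, hi, rfl⟩ := hs
    have := hl.1.1 l[i] (List.getElem_mem hi)
    split_ifs
    · simpa [Un, fl] using this
    · exact this
  · intro i hi j hj hij
    rw [Set.mem_Iic, WW_length] at hi hj
    rw [WW_pos hl hb hba H, WW_pos hl hb hba H, Prod.mk.injEq] at hij
    exact hM.inj i hi j hj hij.1 hij.2
  · intro i h0 hi
    rw [WW_length] at hi ⊢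
    rw [WW_pos hl hb hba H, WW_pos hl hb hba H]
    exact ⟨hM.ph_pos ((bpos hl).pos i h0 hi), hM.ph_le_end ((bpos hl).le i hi)⟩

theorem WW_sp (hl : Bridge l) (hb : 1 ≤ b) (hba : b ≤ a)
    (H : Adm (rn l) (fo l) (sp l) a b X D w) :
    ((sp (WW l w) : ℕ) : ℤ) = ph (eu w) (ev w) m (sp l) := by
  rw [← xs_len (WW_bridge hl hb hba H), WW_xs hl hb hba H, WW_length]
  simp only
  rw [xs_len hl]

theorem WW_bounds (hl : Bridge l) (hb : 1 ≤ b) (hba : b ≤ a) (hm : 1 ≤ m)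
    (H : Adm (rn l) (fo l) (sp l) a b X D w) :
    sp (WW l w) ≤ sp l ∧ X ≤ sp (WW l w) ∧ D ≤ sp (WW l w) := by
  have hM := adm_mf hl hb hba H
  have h1 := WW_sp hl hb hba H
  have h2 := ph_le_self hM.sep (sp l)
  have h3 := hM.span_ge hm
  rw [xs_len hl] at h3
  rw [eu_of w hm] at h3
  have h4 := H.win_u ⟨0, hm⟩
  have h5 := H.lo ⟨0, hm⟩
  refine ⟨?_, ?_, ?_⟩ <;> omega

/-- the value at the left end of a fold -/
theorem ph_val (hl : Bridge l) (hb : 1 ≤ b) (hba : b ≤ a)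
    (H : Adm (rn l) (fo l) (sp l) a b X D w) {f : ℕ} (hf : f < m) :
    (X : ℤ) ≤ ph (eu w) (ev w) m (eu w f) ∧ ph (eu w) (ev w) m (eu w f) < X + D ∧
    (D : ℤ) ≤ ph (eu w) (ev w) m (eu w f) ∧
    xs (WW l w) (si l w f) = ph (eu w) (ev w) m (eu w f) ∧
    xs (WW l w) (ti l w f) + a ≤ xs (WW l w) (si l w f) := by
  have hM := adm_mf hl hb hba H
  have h0 : 0 < m := by omega
  have hord : ∀ i < m, eu w 0 ≤ eu w i := by
    intro i hi
    rcases Nat.eq_zero_or_pos i with h1 | h1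
    · rw [h1]
    · have := hM.sep.sep 0 i h1 hi
      have := hM.sep.len 0 h0
      have := hM.sep.len i hi
      omega
  have h4 : ph (eu w) (ev w) m (eu w 0) = eu w 0 := by
    rw [ph_trunc hM.sep (Nat.zero_le m) (fun i hi _ => hord i hi), ph_zero]
  have h5 : ph (eu w) (ev w) m (eu w 0) ≤ ph (eu w) (ev w) m (eu w f) :=
    ph_le hM.sep hf ((hord f hf).trans (hM.sep.len f hf).le)
  have h6 := ph_le_self hM.sep (eu w f)
  have h7 := H.win_u ⟨0, h0⟩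
  have h8 := H.lo ⟨0, h0⟩
  have h9 := H.win_v ⟨f, hf⟩
  have h10 := H.len ⟨f, hf⟩
  have e0 := eu_of w h0
  have ef := eu_of w hf
  have hx1 : xs (WW l w) (si l w f) = ph (eu w) (ev w) m (eu w f) := by
    rw [WW_xs hl hb hba H]
    simp only
    rw [(hM.fu f hf).ren.xk]
  have hx2 : xs (WW l w) (ti l w f) = ph (eu w) (ev w) m (ev w f) := by
    rw [WW_xs hl hb hba H]
    simp only
    rw [(hM.fv f hf).ren.xk]
  have h11 := ph_in hM.sep hf (hM.sep.len f hf).le le_rfl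
  have h12 := ev_of w hf
  refine ⟨?_, ?_, ?_, hx1, ?_⟩ <;> omega

/-- the number of the cell -/
def JJ (X b : ℕ) (w : Fin m → ℕ × ℕ) (f : Fin m) : ℕ :=
  (ph (eu w) (ev w) m (eu w f) - X).toNat / b

theorem JJ_lt (hl : Bridge l) (hb : 1 ≤ b) (hba : b ≤ a)
    (H : Adm (rn l) (fo l) (sp l) a b X D w) (f : Fin m) {lam : ℕ} (hlam : lam * b = D) :
    JJ X b w f < lam + 2 := by
  have h1 := ph_val hl hb hba H f.2
  have h2 : (ph (eu w) (ev w) m (eu w f) - X).toNat < lam * b := by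
    rw [hlam]; omega
  have h3 : JJ X b w f < lam := by
    unfold JJ
    exact (Nat.div_lt_iff_lt_mul hb).2 h2
  omega
end

theorem WW_inj {l l' : List Pt} {m a b X D : ℕ} {w w' : Fin m → ℕ × ℕ} (hl : Bridge l)
    (hl' : Bridge l') (hb : 1 ≤ b) (hba : b ≤ a) (haD : a ≤ D)
    (H : Adm (rn l) (fo l) (sp l) a b X D w) (H' : Adm (rn l') (fo l') (sp l') a b X D w')
    (hW : WW l w = WW l' w') (hJ : ∀ f, JJ X b w f = JJ X b w' f) : l = l' ∧ w = w' := by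
  classical
  have hM := adm_mf hl hb hba H
  have hM' := adm_mf hl' hb hba H'
  have hlen : l.length = l'.length := by
    rw [← WW_length (l := l) (w := w), hW, WW_length]
  have hst : ∀ f < m, si l w f = si l' w' f ∧ ti l w f = ti l' w' f := by
    intro f hf
    have v1 : Val l.length (xs (WW l w)) (si l w f) (ti l w f) := by
      rw [WW_xs hl hb hba H]; exact hM.val hf
    have v2 : Val l.length (xs (WW l w)) (si l' w' f) (ti l' w' f) := by
      rw [hlen, hW, WW_xs hl' hb hba H']; exact hM'.val hf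
    have i1 : Iso (xs (WW l w)) a b (si l w f) := by
      rw [WW_xs hl hb hba H]; exact adm_iso hl hb hba H hf
    have i2 : Iso (xs (WW l w)) a b (si l' w' f) := by
      rw [hW, WW_xs hl' hb hba H']; exact adm_iso hl' hb hba H' hf
    obtain ⟨a1, a2, a3, a4, a5⟩ := ph_val hl hb hba H hf
    obtain ⟨b1, b2, b3, b4, b5⟩ := ph_val hl' hb hba H' hf
    rw [← hW] at b4 b5
    have hj := hJ ⟨f, hf⟩
    unfold JJ at hj
    simp only at hj
    have hclose : ∀ p q : ℕ, p / b = q / b → p < q + b := by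
      intro p q h
      have h1 := Nat.div_add_mod p b
      have h2 := Nat.div_add_mod q b
      have h3 := Nat.mod_lt p hb
      rw [h] at h1
      omega
    have c1 := hclose _ _ hj
    have c2 := hclose _ _ hj.symm
    have haD' : (a : ℤ) ≤ D := by exact_mod_cast haD
    exact v1.eq_of_close v2 i1 i2 a5 b5 (by omega) (by omega) (by omega) (by omega)
  have hSS : SS l w = SS l' w' := by
    funext j
    apply propext
    constructor
    · rintro ⟨f, hf, h1, h2⟩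
      exact ⟨f, hf, (hst f hf).1 ▸ h1, (hst f hf).2 ▸ h2⟩
    · rintro ⟨f, hf, h1, h2⟩
      exact ⟨f, hf, (hst f hf).1.symm ▸ h1, (hst f hf).2.symm ▸ h2⟩
  have hll : l = l' := by
    have h1 : fold (SS l w) (WW l w) = l := fold_fold _ _
    have h2 : fold (SS l' w') (WW l' w') = l' := fold_fold _ _
    rw [← h1, ← h2, hSS, hW]
  subst hll
  refine ⟨rfl, ?_⟩
  funext f
  have h1 := hst f f.2
  have h2 := (hM.fu f f.2).ren.xk
  have h3 := (hM'.fu f f.2).ren.xk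
  have h4 := (hM.fv f f.2).ren.xk
  have h5 := (hM'.fv f f.2).ren.xk
  rw [h1.1, h3, eu_of w f.2, eu_of w' f.2] at h2
  rw [h1.2, h5, ev_of w f.2, ev_of w' f.2] at h4
  ext
  · simp only [Fin.eta] at h2; omega
  · simp only [Fin.eta] at h4; omega

end Abs

open Abs

theorem wz_mono {x z : ℝ≥0∞} (hz : z ≤ 1) {l l' : List Pt} (h1 : l'.length = l.length)
    (h2 : sp l' ≤ sp l) : wz x z l * (((sp l : ℝ≥0∞) + 1)⁻¹) ^ 3 ≤
      wz x z l' * (((sp l' : ℝ≥0∞) + 1)⁻¹) ^ 3 := by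
  unfold wz
  rw [h1]
  have h3 : z ^ sp l ≤ z ^ sp l' := pow_le_pow_right_of_le_one' hz h2
  have h4 : ((sp l : ℝ≥0∞) + 1)⁻¹ ≤ ((sp l' : ℝ≥0∞) + 1)⁻¹ := by
    apply ENNReal.inv_le_inv.2
    gcongr
  gcongr

/-- (MF) -/
theorem multifold {x z : ℝ≥0∞} (hz : z ≤ 1) {m q lam p X : ℕ} (hm : 1 ≤ m)
    (hb : 1 ≤ 2 ^ p / lam) (hba : 2 ^ p / lam ≤ 2 ^ p / q) (hlam : lam * (2 ^ p / lam) = 2 ^ p) :
    ∑' b : Br, wz x z b.1 * (((sp b.1 : ℝ≥0∞) + 1)⁻¹) ^ 3 *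
      ((TT (rn b.1) (fo b.1) (sp b.1) p X q lam m).card : ℝ≥0∞) ≤
    ((lam + 2 : ℕ) : ℝ≥0∞) ^ m * ∑' w : {w : List Pt // Bridge w ∧ X ≤ sp w ∧ 2 ^ p ≤ sp w},
      wz x z w.1 * (((sp w.1 : ℝ≥0∞) + 1)⁻¹) ^ 3 := by
  classical
  have e1 : ∀ b : Br, wz x z b.1 * (((sp b.1 : ℝ≥0∞) + 1)⁻¹) ^ 3 *
      ((TT (rn b.1) (fo b.1) (sp b.1) p X q lam m).card : ℝ≥0∞) =
      ∑' _ : {w // w ∈ TT (rn b.1) (fo b.1) (sp b.1) p X q lam m},
        wz x z b.1 * (((sp b.1 : ℝ≥0∞) + 1)⁻¹) ^ 3 := by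
    intro b
    rw [tsum_fintype, Finset.sum_const, Finset.card_univ, Fintype.card_coe, nsmul_eq_mul, mul_comm]
  rw [tsum_congr e1, ← ENNReal.tsum_sigma (fun (b : Br)
    (_ : {w // w ∈ TT (rn b.1) (fo b.1) (sp b.1) p X q lam m}) =>
      wz x z b.1 * (((sp b.1 : ℝ≥0∞) + 1)⁻¹) ^ 3)]
  have hadm : ∀ (b : Br) (w : {w // w ∈ TT (rn b.1) (fo b.1) (sp b.1) p X q lam m}),
      Adm (rn b.1) (fo b.1) (sp b.1) (2 ^ p / q) (2 ^ p / lam) X (2 ^ p) w.1 := by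
    intro b w
    have := w.2
    unfold TT at this
    rw [Finset.mem_filter] at this
    exact this.2
  let Φ : (Σ b : Br, {w // w ∈ TT (rn b.1) (fo b.1) (sp b.1) p X q lam m}) →
      {w : List Pt // Bridge w ∧ X ≤ sp w ∧ 2 ^ p ≤ sp w} × (Fin m → Fin (lam + 2)) :=
    fun s => (⟨WW s.1.1 s.2.1, WW_bridge s.1.2 hb hba (hadm s.1 s.2),
      (WW_bounds s.1.2 hb hba hm (hadm s.1 s.2)).2⟩,
      fun f => ⟨JJ X (2 ^ p / lam) s.2.1 f, JJ_lt s.1.2 hb hba (hadm s.1 s.2) f hlam⟩)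
  have hΦ : Function.Injective Φ := by
    rintro ⟨⟨l, hl⟩, ⟨w, hw⟩⟩ ⟨⟨l', hl'⟩, ⟨w', hw'⟩⟩ h
    simp only [Φ, Prod.mk.injEq, Subtype.mk.injEq] at h
    obtain ⟨h1, h2⟩ := h
    have h3 : ∀ f, JJ X (2 ^ p / lam) w f = JJ X (2 ^ p / lam) w' f := by
      intro f
      have := congrFun h2 f
      rw [Fin.mk.injEq] at this
      exact this
    obtain ⟨h4, h5⟩ := WW_inj hl hl' hb hba (Nat.div_le_self _ _) (hadm ⟨l, hl⟩ ⟨w, hw⟩)
      (hadm ⟨l', hl'⟩ ⟨w', hw'⟩) h1 h3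
    subst h4
    subst h5
    rfl
  have h2 : ∑' s : (Σ b : Br, {w // w ∈ TT (rn b.1) (fo b.1) (sp b.1) p X q lam m}),
      wz x z s.1.1 * (((sp s.1.1 : ℝ≥0∞) + 1)⁻¹) ^ 3 ≤
      ∑' t : {w : List Pt // Bridge w ∧ X ≤ sp w ∧ 2 ^ p ≤ sp w} × (Fin m → Fin (lam + 2)),
        wz x z t.1.1 * (((sp t.1.1 : ℝ≥0∞) + 1)⁻¹) ^ 3 := by
    refine tsum_le_inj Φ hΦ (fun s => ?_)
    exact wz_mono hz WW_length (WW_bounds s.1.2 hb hba hm (hadm s.1 s.2)).1
  refine h2.trans (le_of_eq ?_)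
  rw [ENNReal.tsum_prod (f := fun (w : {w : List Pt // Bridge w ∧ X ≤ sp w ∧ 2 ^ p ≤ sp w})
    (_ : Fin m → Fin (lam + 2)) => wz x z w.1 * (((sp w.1 : ℝ≥0∞) + 1)⁻¹) ^ 3),
    ← ENNReal.tsum_mul_left]
  refine tsum_congr (fun w => ?_)
  rw [tsum_fintype, Finset.sum_const, Finset.card_univ, Fintype.card_fun, Fintype.card_fin,
    Fintype.card_fin, nsmul_eq_mul]
  push_cast
  ring

end Pool.Agent.Work.MP_376faf_co_neps
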