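import Pool.Agent.Work.MP_376faf_co_neps.Adm

/-! Structure lemma for fold points: a set F of naturals in [0,s] with more than (s+1)^(1/h) elements
has, at some dyadic scale, very many admissible tuples of folds. Pure combinatorics. -/

set_option autoImplicit false

namespace Pool.Agent.Work.MP_376faf_co_neps

namespace St

open Finset

/-- points of F in the window [X, X+W), at distance at least D from 0 and s -/
def wn (F : Finset ℕ) (s X W D : ℕ) : Finset ℕ :=
  F.filter (fun t => X ≤ t ∧ t < X + W ∧ D ≤ t ∧ t + D ≤ s)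

theorem mem_wn {F : Finset ℕ} {s X W D t : ℕ} :
    t ∈ wn F s X W D ↔ t ∈ F ∧ X ≤ t ∧ t < X + W ∧ D ≤ t ∧ t + D ≤ s := by
  simp [wn]

/-- largest number of points in a window of length 2^p -/
def NN (F : Finset ℕ) (s p : ℕ) : ℕ := (range (s + 1)).sup (fun X => (wn F s X (2 ^ p) (2 ^ p)).card)

theorem wn_le (F : Finset ℕ) (s p q Y : ℕ) (h : p ≤ q) : (wn F s Y (2 ^ p) (2 ^ q)).card ≤ NN F s p := by
  have hpq : 2 ^ p ≤ 2 ^ q := Nat.pow_le_pow_right (by norm_num) h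
  by_cases hY : Y ≤ s
  · have h1 : (wn F s Y (2 ^ p) (2 ^ q)).card ≤ (wn F s Y (2 ^ p) (2 ^ p)).card := by
      refine card_le_card fun t ht => ?_
      rw [mem_wn] at ht ⊢
      obtain ⟨h0, h1, h2, h3, h4⟩ := ht
      exact ⟨h0, h1, h2, by omega, by omega⟩
    exact h1.trans (Finset.le_sup (f := fun X => (wn F s X (2 ^ p) (2 ^ p)).card)
      (mem_range.2 (by omega)))
  · have : wn F s Y (2 ^ p) (2 ^ q) = ∅ := by
      ext t
      rw [mem_wn]
      simp only [notMem_empty, iff_false]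
      omega
    rw [this]; simp

theorem enum (S : Finset ℕ) : ∃ e : ℕ → ℕ, (∀ j < S.card, e j ∈ S) ∧
    ∀ i j, i < j → j < S.card → e i < e j := by
  refine ⟨fun j => if h : j < S.card then S.orderEmbOfFin rfl ⟨j, h⟩ else 0, fun j hj => ?_,
    fun i j hij hj => ?_⟩
  · simp only [hj, dif_pos]
    exact orderEmbOfFin_mem S rfl _
  · have hi : i < S.card := hij.trans hj
    simp only [hi, hj, dif_pos]
    exact (S.orderEmbOfFin rfl).strictMono (by simpa using hij)

/-- choice of M pairs of the same scale -/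
theorem pick (κ M : ℕ) (hκ : 1 ≤ κ) (S : Finset ℕ) (hS : ∀ x ∈ S, x < 2 ^ κ)
    (hcard : 2 * (κ * (12 * M)) + 1 ≤ S.card) :
    ∃ i < κ, ∃ α β : ℕ → ℕ, ∀ t < M, α t ∈ S ∧ β t ∈ S ∧ α t + 2 ^ i ≤ β t ∧
      β t < α t + 2 ^ (i + 1) ∧ α t + 2 ≤ β t ∧ ∀ t', t < t' → t' < M → β t + 11 * 2 ^ i ≤ α t' := by
  obtain ⟨e, he1, he2⟩ := enum S
  set n := κ * (12 * M) with hn
  set c : ℕ → ℕ := fun j => e (2 * j) with hc
  have hcm : ∀ j ≤ n, c j ∈ S := fun j hj => he1 _ (by omega)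
  have hclt : ∀ i j, i < j → j ≤ n → c i + 2 ≤ c j := by
    intro i j hij hj
    have h1 := he2 (2 * i) (2 * i + 1) (by omega) (by omega)
    have h2 : e (2 * i + 1) < e (2 * j) := he2 _ _ (by omega) (by omega)
    simp only [hc]; omega
  have hcle : ∀ i j, i ≤ j → j ≤ n → c i ≤ c j := by
    intro i j hij hj
    rcases hij.eq_or_lt with h | h
    · rw [h]
    · have := hclt i j h hj; omega
  have hmap : ∀ j ∈ range n, Nat.log 2 (c (j + 1) - c j) ∈ range κ := by
    intro j hj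
    rw [mem_range] at hj ⊢
    have h1 := hS _ (hcm (j + 1) (by omega))
    have h2 := hclt j (j + 1) (by omega) (by omega)
    exact Nat.log_lt_of_lt_pow (by omega) (by omega)
  obtain ⟨i, hi, hJ⟩ := exists_le_card_fiber_of_mul_le_card_of_maps_to (n := 12 * M) hmap
    ⟨0, mem_range.2 hκ⟩ (by rw [card_range, card_range])
  set J := (range n).filter (fun j => Nat.log 2 (c (j + 1) - c j) = i) with hJdef
  obtain ⟨f, hf1, hf2⟩ := enum J
  have hfJ : ∀ q < 12 * M, f q < n ∧ c (f q) + 2 ^ i ≤ c (f q + 1) ∧ c (f q + 1) < c (f q) + 2 ^ (i + 1) ∧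
      c (f q) + 2 ≤ c (f q + 1) := by
    intro q hq
    have h1 := hf1 q (lt_of_lt_of_le hq hJ)
    rw [hJdef, mem_filter, mem_range] at h1
    obtain ⟨h1, h2⟩ := h1
    have h3 := hclt (f q) (f q + 1) (by omega) (by omega)
    have h4 : c (f q + 1) - c (f q) ≠ 0 := by omega
    have h5 := Nat.pow_log_le_self 2 h4
    have h6 := Nat.lt_pow_succ_log_self (b := 2) (by norm_num) (c (f q + 1) - c (f q))
    rw [h2] at h5 h6
    rw [Nat.succ_eq_add_one] at h6
    exact ⟨h1, by omega, by omega, h3⟩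
  have hstep : ∀ q, q + 1 < 12 * M → c (f q + 1) ≤ c (f (q + 1)) := by
    intro q hq
    have h1 := hf2 q (q + 1) (by omega) (lt_of_lt_of_le hq hJ)
    have h2 := (hfJ (q + 1) hq).1
    exact hcle _ _ (by omega) (by omega)
  have hr : ∀ r q, q + r < 12 * M → c (f q) + r * 2 ^ i ≤ c (f (q + r)) := by
    intro r
    induction r with
    | zero => intro q _; simp
    | succ r ih =>
      intro q hq
      have h1 := ih q (by omega)
      have h2 := (hfJ (q + r) (by omega)).2.1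
      have h3 := hstep (q + r) (by omega)
      rw [add_mul, one_mul]
      rw [← add_assoc]
      rw [add_assoc q r 1] at h3
      omega
  refine ⟨i, mem_range.1 hi, fun t => c (f (12 * t)), fun t => c (f (12 * t) + 1), fun t ht => ?_⟩
  obtain ⟨h1, h2, h3, h4⟩ := hfJ (12 * t) (by omega)
  refine ⟨hcm _ (by omega), hcm _ (by omega), h2, h3, h4, fun t' htt' ht' => ?_⟩
  have h5 := hstep (12 * t) (by omega)
  have h6 := hr 11 (12 * t + 1) (by omega)
  have h7 : c (f (12 * t + 1 + 11)) ≤ c (f (12 * t')) := by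
    rcases (show 12 * t + 1 + 11 ≤ 12 * t' by omega).eq_or_lt with h | h
    · rw [h]
    · have h8 := hf2 _ _ h (lt_of_lt_of_le (by omega) hJ)
      exact hcle _ _ h8.le (by have := (hfJ (12 * t') (by omega)).1; omega)
  show c (f (12 * t) + 1) + 11 * 2 ^ i ≤ c (f (12 * t'))
  omega

theorem shells (F : Finset ℕ) (s : ℕ) (hF : ∀ t ∈ F, t ≤ s) :
    F.card ≤ 2 + 2 * ∑ q ∈ range (Nat.log 2 s + 1), NN F s q := by
  have hsub : F ⊆ {0, s} ∪ ((range (Nat.log 2 s + 1)).biUnion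
      (fun q => wn F s (2 ^ q) (2 ^ q) (2 ^ q) ∪ wn F s (s + 1 - 2 ^ (q + 1)) (2 ^ q) (2 ^ q))) := by
    intro t ht
    have hts := hF t ht
    rw [mem_union]
    by_cases h0 : t = 0
    · left; simp [h0]
    by_cases h1 : t = s
    · left; simp [h1]
    right
    rw [mem_biUnion]
    have hm : min t (s - t) ≠ 0 := by omega
    have h5 := Nat.pow_log_le_self 2 hm
    have h6 := Nat.lt_pow_succ_log_self (b := 2) (by norm_num) (min t (s - t))
    rw [Nat.succ_eq_add_one] at h6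
    set q := Nat.log 2 (min t (s - t)) with hq
    have hq2 : q ≤ Nat.log 2 s := Nat.log_mono_right (by omega)
    refine ⟨q, mem_range.2 (by omega), ?_⟩
    have h7 : 2 ^ (q + 1) = 2 ^ q + 2 ^ q := by rw [pow_succ]; ring
    rw [mem_union]
    rcases le_total t (s - t) with h | h
    · left
      rw [min_eq_left h] at h5 h6
      rw [mem_wn]
      exact ⟨ht, h5, by omega, h5, by omega⟩
    · right
      rw [min_eq_right h] at h5 h6
      rw [mem_wn]
      exact ⟨ht, by omega, by omega, by omega, by omega⟩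
  refine (card_le_card hsub).trans ((card_union_le _ _).trans (add_le_add ?_ ?_))
  · exact card_insert_le _ _
  · refine card_biUnion_le.trans ?_
    rw [mul_sum]
    refine sum_le_sum fun q _ => (card_union_le _ _).trans ?_
    have h1 := wn_le F s q q (2 ^ q) le_rfl
    have h2 := wn_le F s q q (s + 1 - 2 ^ (q + 1)) le_rfl
    omega

theorem exists_scale (F : Finset ℕ) (s : ℕ) (hF : ∀ t ∈ F, t ≤ s) (h4 : 4 ≤ F.card) :
    ∃ q ≤ Nat.log 2 s, F.card ≤ 4 * (Nat.log 2 s + 1) * NN F s q := by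
  by_contra hcon
  push Not at hcon
  have h1 := shells F s hF
  set L := Nat.log 2 s with hL
  have h2 : (range (L + 1)).sum (fun q => 4 * (L + 1) * NN F s q) < (range (L + 1)).sum (fun _ => F.card) := by
    refine sum_lt_sum_of_nonempty ⟨0, by simp⟩ fun q hq => hcon q ?_
    rw [mem_range] at hq; omega
  rw [← mul_sum, sum_const, card_range, smul_eq_mul] at h2
  have h3 : 4 * ∑ q ∈ range (L + 1), NN F s q < F.card := by
    by_contra h
    push Not at h
    have := Nat.mul_le_mul_left (L + 1) h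
    nlinarith
  omega

theorem scale (h : ℕ) (hh : 1 ≤ h) (C1 C : ℕ) (hC1 : ∀ n : ℕ, (4 * (n + 1)) ^ (4 * h) ≤ C1 * 2 ^ n)
    (hC : C1 ≤ C) (hC4 : 4 ^ h ≤ C) (F : Finset ℕ) (s : ℕ) (hF : ∀ t ∈ F, t ≤ s)
    (hbig : C * (s + 1) ≤ F.card ^ h) :
    ∃ p, C ^ 3 * (s + 1) ≤ NN F s p ^ (4 * h) ∧ ∀ i, 2 * h * i ≤ p → NN F s (p - 2 * h * i) * 2 ^ i ≤ NN F s p := by
  have h4 : 4 ≤ F.card := by
    by_contra h3
    have h1 : F.card ^ h < 4 ^ h := Nat.pow_lt_pow_left (by omega) (by omega)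
    have h2 : C ≤ C * (s + 1) := Nat.le_mul_of_pos_right _ (by omega)
    omega
  obtain ⟨q, hq, hqF⟩ := exists_scale F s hF h4
  set L := Nat.log 2 s with hL
  obtain ⟨p, hp, hmax⟩ := exists_max_image (range (L + 1))
    (fun p => ((NN F s p : ℝ)) ^ (2 * h) / 2 ^ p) ⟨0, by simp⟩
  rw [mem_range] at hp
  have hCpos : 0 < C := lt_of_lt_of_le (by positivity) hC4
  have hs0 : s ≠ 0 := by
    rintro rfl
    have : F.card ≤ 1 := by
      rw [card_le_one]
      intro a ha b hb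
      have := hF a ha; have := hF b hb; omega
    omega
  have hqs : 2 ^ q ≤ s + 1 := by
    have h1 : 2 ^ q ≤ 2 ^ L := Nat.pow_le_pow_right (by norm_num) hq
    have h2 : 2 ^ L ≤ s := Nat.pow_log_le_self 2 hs0
    omega
  have hcross : ∀ q ≤ L, NN F s q ^ (2 * h) * 2 ^ p ≤ NN F s p ^ (2 * h) * 2 ^ q := by
    intro q hq
    have h1 := hmax q (mem_range.2 (by omega))
    rw [div_le_div_iff₀ (by positivity) (by positivity)] at h1
    exact_mod_cast h1
  refine ⟨p, ?_, ?_⟩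
  · have e1 : (C * (s + 1)) ^ 2 ≤ (4 * (L + 1)) ^ (2 * h) * NN F s q ^ (2 * h) := by
      calc (C * (s + 1)) ^ 2 ≤ (F.card ^ h) ^ 2 := Nat.pow_le_pow_left hbig 2
        _ = F.card ^ (2 * h) := by rw [← pow_mul, mul_comm]
        _ ≤ (4 * (L + 1) * NN F s q) ^ (2 * h) := Nat.pow_le_pow_left hqF _
        _ = _ := by rw [mul_pow]
    have e2 : C ^ 2 * (s + 1) ≤ (4 * (L + 1)) ^ (2 * h) * NN F s p ^ (2 * h) := by
      have h1 : (C * (s + 1)) ^ 2 * 2 ^ p ≤ (4 * (L + 1)) ^ (2 * h) * (NN F s p ^ (2 * h) * 2 ^ q) := by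
        calc (C * (s + 1)) ^ 2 * 2 ^ p ≤ ((4 * (L + 1)) ^ (2 * h) * NN F s q ^ (2 * h)) * 2 ^ p :=
              Nat.mul_le_mul_right _ e1
          _ = (4 * (L + 1)) ^ (2 * h) * (NN F s q ^ (2 * h) * 2 ^ p) := by ring
          _ ≤ _ := Nat.mul_le_mul_left _ (hcross q hq)
      have h2 : (C * (s + 1)) ^ 2 ≤ (4 * (L + 1)) ^ (2 * h) * NN F s p ^ (2 * h) * (s + 1) := by
        calc (C * (s + 1)) ^ 2 ≤ (C * (s + 1)) ^ 2 * 2 ^ p := Nat.le_mul_of_pos_right _ (by positivity)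
          _ ≤ _ := h1
          _ ≤ (4 * (L + 1)) ^ (2 * h) * (NN F s p ^ (2 * h) * (s + 1)) :=
              Nat.mul_le_mul_left _ (Nat.mul_le_mul_left _ hqs)
          _ = _ := by ring
      have h3 : C ^ 2 * (s + 1) * (s + 1) ≤ (4 * (L + 1)) ^ (2 * h) * NN F s p ^ (2 * h) * (s + 1) := by
        calc C ^ 2 * (s + 1) * (s + 1) = (C * (s + 1)) ^ 2 := by ring
          _ ≤ _ := h2
      exact Nat.le_of_mul_le_mul_right h3 (by omega)
    have e3 : C ^ 4 * (s + 1) ^ 2 ≤ C * (s + 1) * NN F s p ^ (4 * h) := by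
      calc C ^ 4 * (s + 1) ^ 2 = (C ^ 2 * (s + 1)) ^ 2 := by ring
        _ ≤ ((4 * (L + 1)) ^ (2 * h) * NN F s p ^ (2 * h)) ^ 2 := Nat.pow_le_pow_left e2 2
        _ = (4 * (L + 1)) ^ (4 * h) * NN F s p ^ (4 * h) := by
            rw [mul_pow, ← pow_mul, ← pow_mul, show 2 * h * 2 = 4 * h by ring]
        _ ≤ C1 * 2 ^ L * NN F s p ^ (4 * h) := Nat.mul_le_mul_right _ (hC1 L)
        _ ≤ C * (s + 1) * NN F s p ^ (4 * h) := by
            refine Nat.mul_le_mul_right _ (Nat.mul_le_mul hC ?_)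
            have h2 : 2 ^ L ≤ s := Nat.pow_log_le_self 2 hs0
            omega
    have e4 : (C * (s + 1)) * (C ^ 3 * (s + 1)) ≤ (C * (s + 1)) * NN F s p ^ (4 * h) := by
      calc (C * (s + 1)) * (C ^ 3 * (s + 1)) = C ^ 4 * (s + 1) ^ 2 := by ring
        _ ≤ _ := e3
    exact Nat.le_of_mul_le_mul_left e4 (by positivity)
  · intro i hi
    have h1 := hcross (p - 2 * h * i) (by omega)
    have h2 : 2 ^ p = 2 ^ (p - 2 * h * i) * (2 ^ i) ^ (2 * h) := by
      rw [← pow_mul, ← pow_add]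
      congr 1
      have : i * (2 * h) = 2 * h * i := by ring
      omega
    rw [h2] at h1
    have h3 : (NN F s (p - 2 * h * i) * 2 ^ i) ^ (2 * h) * 2 ^ (p - 2 * h * i) ≤
        NN F s p ^ (2 * h) * 2 ^ (p - 2 * h * i) := by
      calc _ = NN F s (p - 2 * h * i) ^ (2 * h) * (2 ^ (p - 2 * h * i) * (2 ^ i) ^ (2 * h)) := by
            rw [mul_pow]; ring
        _ ≤ _ := h1
    have h4 := Nat.le_of_mul_le_mul_right h3 (by positivity)
    exact (Nat.pow_le_pow_iff_left (by omega)).1 h4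

/-- a set of naturals in an interval of length W with pairwise distances at least a -/
theorem sparse_card (S : Finset ℕ) (Y W a : ℕ) (ha : 1 ≤ a) (h1 : ∀ x ∈ S, Y ≤ x ∧ x < Y + W)
    (h2 : ∀ x ∈ S, ∀ y ∈ S, x < y → x + a ≤ y) : S.card ≤ W / a + 1 := by
  have : S.card ≤ (range (W / a + 1)).card := by
    refine card_le_card_of_injOn (fun x => (x - Y) / a) ?_ ?_
    · intro x hx
      have := h1 x hx
      simp only [coe_range, Set.mem_Iio]
      exact Nat.lt_succ_of_le (Nat.div_le_div_right (by omega))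
    · intro x hx y hy hxy
      simp only at hxy
      by_contra hne
      have hx1 := h1 x hx
      have hy1 := h1 y hy
      rcases Nat.lt_or_gt_of_ne hne with h | h
      · have h3 := h2 x hx y hy h
        have : (x - Y) / a < (y - Y) / a := by
          have h4 : (x - Y) / a + 1 ≤ (y - Y) / a := by
            rw [← Nat.add_div_right _ (by omega : 0 < a)]
            exact Nat.div_le_div_right (by omega)
          omega
        omega
      · have h3 := h2 y hy x hx h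
        have : (y - Y) / a < (x - Y) / a := by
          have h4 : (y - Y) / a + 1 ≤ (x - Y) / a := by
            rw [← Nat.add_div_right _ (by omega : 0 < a)]
            exact Nat.div_le_div_right (by omega)
          omega
        omega
  simpa using this

/-- isolated renewals -/
def IsoR (R : Finset ℕ) (a b t : ℕ) : Prop :=
  ∀ c, t ≤ c + a + b → c + a ≤ t + 1 → ∃ r ∈ R, c ≤ r ∧ r < c + a

/-- right ends of long gaps -/
def GapR (R : Finset ℕ) (a c : ℕ) : Prop := c ∈ R ∧ ∀ r ∈ R, r < c → r + a < c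

theorem not_iso {R : Finset ℕ} {a b t : ℕ} (ha : 1 ≤ a) (ht : t ∈ R) (hn : ¬ IsoR R a b t) : ∃ c, GapR R a c ∧ c ≤ t ∧ t ≤ c + b := by
  classical
  unfold IsoR at hn
  push Not at hn
  obtain ⟨c, hc1, hc2, hc3⟩ := hn
  have hta : c + a ≤ t := by
    by_contra h
    have := hc3 t ht (by omega)
    omega
  -- smallest renewal at least c + a
  have hex : ∃ r, r ∈ R ∧ c + a ≤ r := ⟨t, ht, hta⟩
  obtain ⟨hr1, hr2⟩ := Nat.find_spec hex
  set r := Nat.find hex with hr
  have hrt : r ≤ t := Nat.find_min' hex ⟨ht, hta⟩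
  refine ⟨r, ⟨hr1, fun q hq hqr => ?_⟩, hrt, by omega⟩
  have h1 : ¬ (q ∈ R ∧ c + a ≤ q) := Nat.find_min hex hqr
  have h2 : q < c + a := by
    by_contra h
    exact h1 ⟨hq, by omega⟩
  have h3 : q < c := by
    by_contra h
    have := hc3 q hq (by omega)
    omega
  omega

theorem non_iso_card (R F : Finset ℕ) (s X D a b B N' l : ℕ) (ha : 1 ≤ a) (hb : 1 ≤ b) (hba : b ≤ a)
    (hDl : D = l * a) (hFR : F ⊆ R)
    (hB : ∀ Y, (wn F s Y b D).card ≤ B) (bad : Finset ℕ)
    (hbad : ∀ t ∈ bad, t ∈ wn F s X D D ∧ ¬ IsoR R a b t) (hN' : N' = 2 * (l + 2) * B) :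
    bad.card ≤ N' := by
  classical
  set G := (range (X + D)).filter (fun c => GapR R a c ∧ X ≤ c + b) with hG
  have hGc : G.card ≤ l + 2 := by
    have h1 := sparse_card G (X - b) (D + b) a ha (by
      intro x hx
      rw [hG, mem_filter, mem_range] at hx
      omega) (by
      intro x hx y hy hxy
      rw [hG, mem_filter, mem_range] at hx hy
      have := hy.2.1.2 x hx.2.1.1 hxy
      omega)
    have h2 : (D + b) / a ≤ l + 1 := by
      rw [hDl]
      have h3 : (l * a + b) / a ≤ (l * a + a) / a := Nat.div_le_div_right (by omega)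
      have h4 : (l * a + a) / a = l + 1 := by
        rw [show l * a + a = (l + 1) * a by ring, Nat.mul_div_cancel _ (by omega)]
      omega
    omega
  have hsub : bad ⊆ G.biUnion (fun c => wn F s c b D ∪ wn F s (c + b) b D) := by
    intro t ht
    obtain ⟨h1, h2⟩ := hbad t ht
    rw [mem_wn] at h1
    obtain ⟨h3, h4, h5, h6, h7⟩ := h1
    obtain ⟨c, hc1, hc2, hc3⟩ := not_iso ha (hFR h3) h2
    rw [mem_biUnion]
    refine ⟨c, ?_, ?_⟩
    · rw [hG, mem_filter, mem_range]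
      exact ⟨by omega, hc1, by omega⟩
    · rw [mem_union, mem_wn, mem_wn]
      by_cases h : t < c + b
      · left; exact ⟨h3, hc2, h, h6, h7⟩
      · right; exact ⟨h3, by omega, by omega, h6, h7⟩
  calc bad.card ≤ _ := card_le_card hsub
    _ ≤ ∑ c ∈ G, (wn F s c b D ∪ wn F s (c + b) b D).card := card_biUnion_le
    _ ≤ ∑ c ∈ G, 2 * B := sum_le_sum fun c _ => (card_union_le _ _).trans (by
        have := hB c; have := hB (c + b); omega)
    _ = G.card * (2 * B) := by rw [sum_const, smul_eq_mul]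
    _ ≤ (l + 2) * (2 * B) := Nat.mul_le_mul_right _ hGc
    _ = N' := by rw [hN']; ring

/-- cells -/
theorem heavy_cells (G' : Finset ℕ) (X l a N k : ℕ) (hl : 1 ≤ l) (hN : 0 < N)
    (hG' : ∀ t ∈ G', X ≤ t ∧ t < X + l * a) (h3 : 3 * N ≤ 4 * G'.card)
    (hA : ∀ j, (G'.filter (fun t => X + j * a ≤ t ∧ t < X + (j + 1) * a)).card * 2 ^ k ≤ N) :
    2 ^ k ≤ 2 * ((range l).filter (fun j =>
      N ≤ 4 * l * (G'.filter (fun t => X + j * a ≤ t ∧ t < X + (j + 1) * a)).card)).card := by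
  set cell : ℕ → Finset ℕ := fun j => G'.filter (fun t => X + j * a ≤ t ∧ t < X + (j + 1) * a) with hcell
  set H := (range l).filter (fun j => N ≤ 4 * l * (cell j).card) with hH
  have hcov : G'.card ≤ ∑ j ∈ range l, (cell j).card := by
    have : G' ⊆ (range l).biUnion cell := by
      intro t ht
      obtain ⟨h1, h2⟩ := hG' t ht
      rw [mem_biUnion]
      have ha : 0 < a := by
        rcases Nat.eq_zero_or_pos a with h | h
        · rw [h] at h2; omega
        · exact h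
      refine ⟨(t - X) / a, ?_, ?_⟩
      · rw [mem_range, Nat.div_lt_iff_lt_mul ha]; omega
      · simp only [hcell, mem_filter]
        have h5 := Nat.div_mul_le_self (t - X) a
        have h6 := Nat.lt_succ_iff.1 (Nat.lt_succ_of_le (Nat.le_refl ((t - X) / a)))
        have h7 : t - X < ((t - X) / a + 1) * a := by
          have := Nat.lt_div_mul_add (a := t - X) ha
          rw [add_mul, one_mul]; exact this
        exact ⟨ht, by omega, by omega⟩
    exact (card_le_card this).trans card_biUnion_le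
  have hsplit : ∑ j ∈ range l, (cell j).card = ∑ j ∈ H, (cell j).card +
      ∑ j ∈ (range l).filter (fun j => ¬ N ≤ 4 * l * (cell j).card), (cell j).card := by
    rw [hH, sum_filter_add_sum_filter_not]
  have hlight : 4 * ∑ j ∈ (range l).filter (fun j => ¬ N ≤ 4 * l * (cell j).card), (cell j).card ≤ N := by
    have h1 : ∑ j ∈ (range l).filter (fun j => ¬ N ≤ 4 * l * (cell j).card), 4 * l * (cell j).card ≤
        ∑ j ∈ (range l).filter (fun j => ¬ N ≤ 4 * l * (cell j).card), N := by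
      refine sum_le_sum fun j hj => ?_
      rw [mem_filter] at hj
      omega
    rw [← mul_sum, sum_const, smul_eq_mul] at h1
    have h2 : ((range l).filter (fun j => ¬ N ≤ 4 * l * (cell j).card)).card ≤ l := by
      refine (card_filter_le _ _).trans (by rw [card_range])
    have h3 := h1.trans (Nat.mul_le_mul_right N h2)
    have h4 : l * (4 * ∑ j ∈ (range l).filter (fun j => ¬ N ≤ 4 * l * (cell j).card), (cell j).card) ≤ l * N := by
      calc _ = 4 * l * ∑ j ∈ (range l).filter (fun j => ¬ N ≤ 4 * l * (cell j).card), (cell j).card := by ring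
        _ ≤ _ := h3
    exact Nat.le_of_mul_le_mul_left h4 (by omega)
  have hheavy : N ≤ 2 * ∑ j ∈ H, (cell j).card := by omega
  have h5 : (∑ j ∈ H, (cell j).card) * 2 ^ k ≤ H.card * N := by
    rw [sum_mul]
    calc ∑ j ∈ H, (cell j).card * 2 ^ k ≤ ∑ j ∈ H, N := sum_le_sum fun j _ => hA j
      _ = _ := by rw [sum_const, smul_eq_mul]
  have h6 : 2 ^ k * N ≤ 2 * H.card * N := by
    calc 2 ^ k * N ≤ 2 ^ k * (2 * ∑ j ∈ H, (cell j).card) := Nat.mul_le_mul_left _ hheavy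
      _ = 2 * ((∑ j ∈ H, (cell j).card) * 2 ^ k) := by ring
      _ ≤ 2 * (H.card * N) := Nat.mul_le_mul_left _ h5
      _ = _ := by ring
  exact Nat.le_of_mul_le_mul_right h6 hN

theorem core (κ κ' k k' m p : ℕ) (R F : Finset ℕ) (s X : ℕ) (hFR : F ⊆ R)
    (hκ : 1 ≤ κ) (hκκ' : κ ≤ κ') (hp : κ' ≤ p) (hk' : 8 * (2 ^ κ + 2) ≤ 2 ^ k')
    (hk : 4 * (κ * (12 * (m + 2))) + 2 ≤ 2 ^ k) (N : ℕ) (hN : (wn F s X (2 ^ p) (2 ^ p)).card = N)
    (hN0 : 0 < N) (hA : ∀ Y, (wn F s Y (2 ^ (p - κ)) (2 ^ p)).card * 2 ^ k ≤ N)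
    (hB : ∀ Y, (wn F s Y (2 ^ (p - κ')) (2 ^ p)).card * 2 ^ k' ≤ N) :
    N ^ (2 * m) ≤ (4 * 2 ^ κ) ^ (2 * m) * (TT R F s p X (2 ^ κ) (2 ^ κ') m).card := by
  classical
  have ha' : 2 ^ p / 2 ^ κ = 2 ^ (p - κ) := Nat.pow_div (by omega) (by norm_num)
  have hb' : 2 ^ p / 2 ^ κ' = 2 ^ (p - κ') := Nat.pow_div (by omega) (by norm_num)
  set a := 2 ^ (p - κ) with ha
  set b := 2 ^ (p - κ') with hb
  set l := 2 ^ κ with hl
  have ha1 : 1 ≤ a := Nat.one_le_two_pow
  have hb1 : 1 ≤ b := Nat.one_le_two_pow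
  have hl1 : 1 ≤ l := Nat.one_le_two_pow
  have hba : b ≤ a := Nat.pow_le_pow_right (by norm_num) (by omega)
  have hla : l * a = 2 ^ p := by rw [hl, ha, ← pow_add]; congr 1; omega
  set D := 2 ^ p with hD
  set G := wn F s X D D with hG
  set bad := G.filter (fun t => ¬ IsoR R a b t) with hbad
  set G' := G.filter (fun t => IsoR R a b t) with hG'
  have hsum : G'.card + bad.card = N := by rw [← hN]; exact card_filter_add_card_filter_not _
  have hbadc : 4 * bad.card ≤ N := by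
    have h1 := non_iso_card R F s X D a b (N / 2 ^ k') _ l ha1 hb1 hba hla.symm hFR
      (fun Y => (Nat.le_div_iff_mul_le (by positivity)).2 (hB Y)) bad (fun t ht => by
        rw [hbad, mem_filter] at ht; exact ht) rfl
    have h2 : 8 * (l + 2) * (N / 2 ^ k') ≤ N := by
      calc 8 * (l + 2) * (N / 2 ^ k') ≤ 2 ^ k' * (N / 2 ^ k') := Nat.mul_le_mul_right _ hk'
        _ ≤ N := Nat.mul_div_le _ _
    have h3 : 4 * bad.card ≤ 4 * (2 * (l + 2) * (N / 2 ^ k')) := Nat.mul_le_mul_left _ h1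
    have h4 : 4 * (2 * (l + 2) * (N / 2 ^ k')) = 8 * (l + 2) * (N / 2 ^ k') := by ring
    omega
  have hG'mem : ∀ t ∈ G', t ∈ F ∧ X ≤ t ∧ t < X + D ∧ D ≤ t ∧ t + D ≤ s ∧ IsoR R a b t := by
    intro t ht
    rw [hG', mem_filter, hG, mem_wn] at ht
    obtain ⟨⟨h1, h2, h3, h4, h5⟩, h6⟩ := ht
    exact ⟨h1, h2, h3, h4, h5, h6⟩
  set cell : ℕ → Finset ℕ := fun j => G'.filter (fun t => X + j * a ≤ t ∧ t < X + (j + 1) * a) with hcell
  have hH := heavy_cells G' X l a N k hl1 hN0 (fun t ht => by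
      have := hG'mem t ht; rw [hla]; omega) (by omega) (fun j => by
      refine le_trans (Nat.mul_le_mul_right _ (card_le_card ?_)) (hA (X + j * a))
      intro t ht
      rw [mem_filter] at ht
      have := hG'mem t ht.1
      rw [mem_wn]
      refine ⟨this.1, ht.2.1, ?_, this.2.2.2.1, this.2.2.2.2.1⟩
      have h3 := ht.2.2
      rw [add_mul, one_mul] at h3
      omega)
  set H := (range l).filter (fun j => N ≤ 4 * l * (cell j).card) with hHd
  obtain ⟨lev, _, α, β, hαβ⟩ := pick κ (m + 2) hκ H (fun x hx => by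
      rw [hHd, mem_filter, mem_range] at hx; exact hx.1) (by omega)
  set E := 2 ^ lev with hE
  have hE1 : 1 ≤ E := Nat.one_le_two_pow
  have hEE : 2 ^ (lev + 1) = 2 * E := by rw [pow_succ, hE]; ring
  have hcm : ∀ j t, t ∈ cell j → t ∈ G' ∧ X + j * a ≤ t ∧ t < X + (j + 1) * a := by
    intro j t ht
    simp only [hcell, mem_filter] at ht
    exact ht
  have hheavy : ∀ j ∈ H, N ≤ 4 * l * (cell j).card := fun j hj => by
    rw [hHd, mem_filter] at hj; exact hj.2
  have hne : ∀ j ∈ H, (cell j).Nonempty := by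
    intro j hj
    rw [← card_pos]
    have := hheavy j hj
    by_contra h
    have h0 : (cell j).card = 0 := by omega
    rw [h0] at this
    omega
  have hsubset : Fintype.piFinset (fun i : Fin m => cell (α (i + 1)) ×ˢ cell (β (i + 1))) ⊆
      TT R F s p X l (2 ^ κ') m := by
    intro w hw
    rw [Fintype.mem_piFinset] at hw
    have hw1 : ∀ i, (w i).1 ∈ G' ∧ X + α (i + 1) * a ≤ (w i).1 ∧ (w i).1 < X + (α (i + 1) + 1) * a :=
      fun i => hcm _ _ (mem_product.1 (hw i)).1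
    have hw2 : ∀ i, (w i).2 ∈ G' ∧ X + β (i + 1) * a ≤ (w i).2 ∧ (w i).2 < X + (β (i + 1) + 1) * a :=
      fun i => hcm _ _ (mem_product.1 (hw i)).2
    have hEa1 : a ≤ E * a := Nat.le_mul_of_pos_left _ hE1
    have hlen : ∀ i, (w i).1 + a ≤ (w i).2 ∧ (w i).2 ≤ (w i).1 + 2 * (E * a) := by
      intro i
      obtain ⟨_, _, _, h4, h5, _⟩ := hαβ (i + 1) (by omega)
      obtain ⟨_, h6, h7⟩ := hw1 i
      obtain ⟨_, h8, h9⟩ := hw2 i
      have h10 : (α (i + 1) + 2) * a ≤ β (i + 1) * a := Nat.mul_le_mul_right _ h5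
      have h11 : (β (i + 1) + 1) * a ≤ (α (i + 1) + 2 * E) * a := Nat.mul_le_mul_right _ (by omega)
      have e1 : (α (i + 1) + 2) * a = α (i + 1) * a + 2 * a := by ring
      have e2 : (β (i + 1) + 1) * a = β (i + 1) * a + a := by ring
      have e3 : (α (i + 1) + 2 * E) * a = α (i + 1) * a + 2 * (E * a) := by ring
      have e4 : (α (i + 1) + 1) * a = α (i + 1) * a + a := by ring
      rw [e1] at h10
      rw [e2, e3] at h11
      rw [e2] at h9
      rw [e4] at h7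
      constructor <;> omega
    have hfar : ∀ i : Fin m, ∀ t, (i : ℕ) + 1 < t → t < m + 2 → ∀ x, X + α t * a ≤ x →
        (w i).2 + 10 * (E * a) ≤ x := by
      intro i t h1 h2 x hx
      obtain ⟨_, _, _, _, _, h6⟩ := hαβ (i + 1) (by omega)
      have h7 := h6 t h1 h2
      obtain ⟨_, h8, h9⟩ := hw2 i
      have h10 : (β (i + 1) + 11 * E) * a ≤ α t * a := Nat.mul_le_mul_right _ h7
      have e1 : (β (i + 1) + 11 * E) * a = β (i + 1) * a + 11 * (E * a) := by ring
      have e2 : (β (i + 1) + 1) * a = β (i + 1) * a + a := by ring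
      rw [e1] at h10
      rw [e2] at h9
      omega
    have hfar0 : ∀ i : Fin m, ∀ x, x < X + (β 0 + 1) * a → x + 10 * (E * a) ≤ (w i).1 := by
      intro i x hx
      obtain ⟨_, _, _, _, _, h6⟩ := hαβ 0 (by omega)
      have h7 := h6 (i + 1) (by omega) (by omega)
      obtain ⟨_, h8, h9⟩ := hw1 i
      have h10 : (β 0 + 11 * E) * a ≤ α (i + 1) * a := Nat.mul_le_mul_right _ h7
      have e1 : (β 0 + 11 * E) * a = β 0 * a + 11 * (E * a) := by ring
      have e2 : (β 0 + 1) * a = β 0 * a + a := by ring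
      rw [e1] at h10
      rw [e2] at hx
      omega
    rw [TT, mem_filter, Fintype.mem_piFinset, ha', hb']
    refine ⟨fun i => mem_product.2 ⟨(hG'mem _ (hw1 i).1).1, (hG'mem _ (hw2 i).1).1⟩, ?_⟩
    refine ⟨fun i => (hG'mem _ (hw1 i).1).1, fun i => (hG'mem _ (hw2 i).1).1,
      fun i => (hG'mem _ (hw1 i).1).2.1, fun i => (hG'mem _ (hw2 i).1).2.2.1,
      fun i => (hG'mem _ (hw1 i).1).2.2.2.1, fun i => (hG'mem _ (hw2 i).1).2.2.2.2.1,
      fun i => (hlen i).1, ?_, ?_, ?_, fun i => (hG'mem _ (hw1 i).1).2.2.2.2.2⟩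
    · intro i j hij
      have h1 := hfar i (j + 1) (by have : (i : ℕ) < j := hij; omega) (by omega) _ (hw1 j).2.1
      have h2 := hlen i
      have h3 := hlen j
      omega
    · intro i
      obtain ⟨g, hg⟩ := hne _ (hαβ 0 (by omega)).2.1
      obtain ⟨hg1, hg2, hg3⟩ := hcm _ _ hg
      have h1 := hfar0 i g hg3
      have h2 := hlen i
      have h6 := hG'mem _ hg1
      have h7 := hG'mem _ (hw1 i).1
      exact ⟨g, hFR h6.1, by omega, by omega⟩
    · intro i
      obtain ⟨g, hg⟩ := hne _ (hαβ (m + 1) (by omega)).1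
      obtain ⟨hg1, hg2, hg3⟩ := hcm _ _ hg
      have h1 := hfar i (m + 1) (by omega) (by omega) g hg2
      have h2 := hlen i
      have h6 := hG'mem _ hg1
      have h7 := hG'mem _ (hw2 i).1
      exact ⟨g, hFR h6.1, by omega, by omega⟩
  have hcard := card_le_card hsubset
  rw [Fintype.card_piFinset] at hcard
  calc N ^ (2 * m) = ∏ _i : Fin m, N ^ 2 := by
        rw [prod_const, card_univ, Fintype.card_fin, ← pow_mul]
    _ ≤ ∏ i : Fin m, ((4 * l) ^ 2 * (cell (α (i + 1)) ×ˢ cell (β (i + 1))).card) := by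
        refine prod_le_prod' fun i _ => ?_
        rw [card_product]
        have h1 := hheavy _ (hαβ (i + 1) (by omega)).1
        have h2 := hheavy _ (hαβ (i + 1) (by omega)).2.1
        calc N ^ 2 = N * N := by ring
          _ ≤ _ := Nat.mul_le_mul h1 h2
          _ = _ := by ring
    _ = (4 * l) ^ (2 * m) * ∏ i : Fin m, (cell (α (i + 1)) ×ˢ cell (β (i + 1))).card := by
        rw [prod_mul_distrib, prod_const, card_univ, Fintype.card_fin, ← pow_mul]
    _ ≤ _ := Nat.mul_le_mul_left _ hcard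

theorem exists_k (A : ℕ) : ∃ k, A * k + 2 ≤ 2 ^ k := by
  refine ⟨2 * A + 4, ?_⟩
  have h : ∀ n : ℕ, (n + 4) ^ 2 ≤ 2 ^ (n + 4) := by
    intro n
    induction n with
    | zero => norm_num
    | succ n ih =>
      have : 2 ^ (n + 1 + 4) = 2 * 2 ^ (n + 4) := by ring
      rw [this]
      have h2 : (n + 1 + 4) ^ 2 ≤ 2 * (n + 4) ^ 2 := by ring_nf; omega
      omega
  have h1 := h (2 * A)
  nlinarith

theorem exists_C1 (e : ℕ) : ∃ C1 : ℕ, ∀ n : ℕ, (4 * (n + 1)) ^ e ≤ C1 * 2 ^ n := by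
  refine ⟨4 ^ e * (e.factorial * 2 ^ e), fun n => ?_⟩
  have h1 := Nat.pow_succ_le_ascFactorial (n + 1) e
  have h2 := Nat.ascFactorial_eq_factorial_mul_choose n e
  have h3 := Nat.choose_le_two_pow (n + e) e
  calc (4 * (n + 1)) ^ e = 4 ^ e * (n + 1) ^ e := by rw [mul_pow]
    _ ≤ 4 ^ e * (e.factorial * (n + e).choose e) := Nat.mul_le_mul_left _ (h1.trans h2.le)
    _ ≤ 4 ^ e * (e.factorial * 2 ^ (n + e)) := Nat.mul_le_mul_left _ (Nat.mul_le_mul_left _ h3)
    _ = _ := by rw [pow_add]; ring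

end St

/-- many fold points give very many admissible tuples (section 4 of note 2994) -/
theorem structure_thm (h : ℕ) (hh : 1 ≤ h) : ∃ m l lam C : ℕ, 1 ≤ m ∧ 1 ≤ l ∧ 1 ≤ lam ∧ 1 ≤ C ∧
    ∀ (s : ℕ) (R F : Finset ℕ), F ⊆ R → (∀ t ∈ R, t ≤ s) → C * (s + 1) ≤ F.card ^ h →
    ∃ p X : ℕ, X ≤ s ∧ 2 ^ p ≤ s ∧ 1 ≤ 2 ^ p / lam ∧ 2 ^ p / lam ≤ 2 ^ p / l ∧
      lam * (2 ^ p / lam) = 2 ^ p ∧
      (s + 1) ^ 4 * (lam + 2) ^ m ≤ (TT R F s p X l lam m).card := by
  obtain ⟨k, hk⟩ := St.exists_k (4 * (2 * h * (12 * (8 * h + 2))))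
  obtain ⟨C1, hC1⟩ := St.exists_C1 (4 * h)
  have hk0 : 1 ≤ k := by
    rcases Nat.eq_zero_or_pos k with h0 | h0
    · rw [h0] at hk; simp at hk
    · exact h0
  set κ := 2 * h * k with hκ
  set k' := 8 * (2 ^ κ + 2) with hk'
  set κ' := 2 * h * k' with hκ'
  have hκ1 : 1 ≤ κ := by rw [hκ]; exact Nat.mul_pos (by omega) (by omega)
  have hkk' : k ≤ k' := by
    have h1 : κ < 2 ^ κ := Nat.lt_two_pow_self
    have h2 : k ≤ κ := by rw [hκ]; exact Nat.le_mul_of_pos_left _ (by omega)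
    omega
  have hκκ' : κ ≤ κ' := by rw [hκ, hκ']; exact Nat.mul_le_mul_left _ hkk'
  obtain ⟨c1, hc1⟩ : ∃ c, c = 4 ^ h := ⟨_, rfl⟩
  obtain ⟨c2, hc2⟩ : ∃ c, c = (2 ^ κ') ^ (4 * h) := ⟨_, rfl⟩
  obtain ⟨c3, hc3⟩ : ∃ c, c = (4 * 2 ^ κ) ^ (2 * (8 * h)) := ⟨_, rfl⟩
  obtain ⟨c4, hc4⟩ : ∃ c, c = (2 ^ κ' + 2) ^ (8 * h) := ⟨_, rfl⟩
  obtain ⟨C, hC⟩ : ∃ c, c = C1 + c1 + c2 + c3 * c4 := ⟨_, rfl⟩
  have hCpos : 1 ≤ C := by
    have : 1 ≤ 4 ^ h := Nat.one_le_pow _ _ (by norm_num)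
    omega
  refine ⟨8 * h, 2 ^ κ, 2 ^ κ', C, by omega, Nat.one_le_two_pow, Nat.one_le_two_pow, hCpos, ?_⟩
  intro s R F hFR hR hbig
  obtain ⟨p, hp1, hp2⟩ := St.scale h hh C1 C hC1 (by omega) (by rw [← hc1]; omega) F s (fun t ht => hR t (hFR ht)) hbig
  set N := St.NN F s p with hN
  have hCN : C ≤ N ^ (4 * h) := by
    calc C = C * 1 := by ring
      _ ≤ C ^ 3 * (s + 1) := Nat.mul_le_mul (Nat.le_self_pow (by norm_num) C) (by omega)
      _ ≤ _ := hp1
  have hlamN : 2 ^ κ' ≤ N := by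
    have h1 : (2 ^ κ') ^ (4 * h) ≤ N ^ (4 * h) := by rw [← hc2]; omega
    exact (Nat.pow_le_pow_iff_left (by omega)).1 h1
  have hN0 : 0 < N := lt_of_lt_of_le (by positivity) hlamN
  obtain ⟨X, hX, hXN⟩ := Finset.exists_mem_eq_sup (Finset.range (s + 1)) ⟨0, by simp⟩
    (fun X => (St.wn F s X (2 ^ p) (2 ^ p)).card)
  rw [Finset.mem_range] at hX
  have hXN' : (St.wn F s X (2 ^ p) (2 ^ p)).card = N := hXN.symm
  have hNp : N ≤ 2 ^ p := by
    rw [← hXN']
    have : St.wn F s X (2 ^ p) (2 ^ p) ⊆ Finset.Ico X (X + 2 ^ p) := by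
      intro t ht
      rw [St.mem_wn] at ht
      exact Finset.mem_Ico.2 ⟨ht.2.1, ht.2.2.1⟩
    simpa using Finset.card_le_card this
  have hκp : κ' ≤ p := (Nat.pow_le_pow_iff_right (by norm_num : 1 < 2)).1 (hlamN.trans hNp)
  obtain ⟨t, ht⟩ := Finset.card_pos.1 (hXN' ▸ hN0)
  rw [St.mem_wn] at ht
  have hcore := St.core κ κ' k k' (8 * h) p R F s X hFR hκ1 hκκ' hκp
    ((Nat.lt_two_pow_self (n := k')).le) (by
      calc 4 * (κ * (12 * (8 * h + 2))) + 2 = 4 * (2 * h * (12 * (8 * h + 2))) * k + 2 := by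
            rw [hκ]; ring
        _ ≤ _ := hk) N hXN' hN0
    (fun Y => (Nat.mul_le_mul_right _ (St.wn_le F s (p - κ) p Y (by omega))).trans (hp2 k (by omega)))
    (fun Y => (Nat.mul_le_mul_right _ (St.wn_le F s (p - κ') p Y (by omega))).trans (hp2 k' (by omega)))
  have hdiv' : 2 ^ p / 2 ^ κ' = 2 ^ (p - κ') := Nat.pow_div (by omega) (by norm_num)
  have hdiv : 2 ^ p / 2 ^ κ = 2 ^ (p - κ) := Nat.pow_div (by omega) (by norm_num)
  refine ⟨p, X, by omega, by omega, ?_, ?_, ?_, ?_⟩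
  · rw [hdiv']; exact Nat.one_le_two_pow
  · rw [hdiv', hdiv]; exact Nat.pow_le_pow_right (by norm_num) (by omega)
  · rw [hdiv', ← pow_add]; congr 1; omega
  · rw [← hc4]
    rw [← hc3] at hcore
    have h5 : c3 * c4 ≤ C ^ 12 := by
      calc c3 * c4 ≤ C := by omega
        _ ≤ C ^ 12 := Nat.le_self_pow (by norm_num) C
    have h6 : (N ^ (4 * h)) ^ 4 = N ^ (2 * (8 * h)) := by
      rw [← pow_mul]; congr 1; omega
    have h7 : c3 * c4 * (s + 1) ^ 4 ≤ (C ^ 3 * (s + 1)) ^ 4 := by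
      have h8 : (C ^ 3 * (s + 1)) ^ 4 = C ^ 12 * (s + 1) ^ 4 := by
        rw [mul_pow, ← pow_mul]
      rw [h8]
      exact Nat.mul_le_mul_right _ h5
    have h9 : (C ^ 3 * (s + 1)) ^ 4 ≤ (N ^ (4 * h)) ^ 4 := Nat.pow_le_pow_left hp1 4
    have h1 : c3 * ((s + 1) ^ 4 * c4) ≤
        c3 * (TT R F s p X (2 ^ κ) (2 ^ κ') (8 * h)).card := by
      rw [h6] at h9
      calc c3 * ((s + 1) ^ 4 * c4) = c3 * c4 * (s + 1) ^ 4 := by
            rw [mul_assoc, mul_comm ((s + 1) ^ 4) c4]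
        _ ≤ _ := h7
        _ ≤ _ := h9
        _ ≤ _ := hcore
    have hc3p : 0 < c3 := by rw [hc3]; positivity
    exact Nat.le_of_mul_le_mul_left h1 hc3p

end Pool.Agent.Work.MP_376faf_co_neps
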