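import Pool.Agent.Work.MP_376faf_co_neps.Gen
import Pool.Agent.Work.MP_376faf_co_neps.Multi
import Pool.Agent.Work.MP_376faf_co_neps.Struct

/-! Module Lam: the main proposition (section 5 of note 2994). -/

set_option autoImplicit false

namespace Pool.Agent.Work.MP_376faf_co_neps

open Pool.Agent.Work.MP_376faf_co_lower Pool.Agent.Work.MP_376faf_co_hw
open scoped ENNReal

theorem fo_sub_rn (l : List Pt) : fo l ⊆ rn l := by
  classical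
  unfold fo rn
  refine Finset.image_subset_image fun i hi => ?_
  rw [Finset.mem_filter] at hi ⊢
  exact ⟨hi.1, hi.2.2.2.1⟩

theorem rn_le (l : List Pt) : ∀ t ∈ rn l, t ≤ sp l := by
  classical
  intro t ht
  unfold rn at ht
  rw [Finset.mem_image] at ht
  obtain ⟨i, hi, rfl⟩ := ht
  rw [Finset.mem_filter, Finset.mem_range] at hi
  obtain ⟨h1, h2⟩ := hi
  unfold col sp
  refine Int.toNat_le_toNat ?_
  rw [← pos_len l]
  rcases Nat.lt_or_ge i l.length with h | h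
  · exact (h2.2 l.length h le_rfl).le
  · rw [pos_ge l h, pos_len]

theorem fo_card_le (l : List Pt) : (fo l).card ≤ sp l + 1 := by
  have h : fo l ⊆ Finset.range (sp l + 1) := fun t ht =>
    Finset.mem_range.2 (Nat.lt_succ_of_le (rn_le l t (fo_sub_rn l ht)))
  simpa using Finset.card_le_card h

/-- the conditions on the scale -/
def VP (l lam : ℕ) (q : ℕ × ℕ) : Prop := 1 ≤ 2 ^ q.1 / lam ∧ 2 ^ q.1 / lam ≤ 2 ^ q.1 / l ∧
  lam * (2 ^ q.1 / lam) = 2 ^ q.1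

theorem inv_cube (s : ℕ) : (((s : ℝ≥0∞) + 1)⁻¹) ^ 3 * ((s : ℝ≥0∞) + 1) ^ 4 = (s : ℝ≥0∞) + 1 := by
  have h0 : (s : ℝ≥0∞) + 1 ≠ 0 := by simp
  have h1 : (s : ℝ≥0∞) + 1 ≠ ⊤ := by simp
  have h2 : ((s : ℝ≥0∞) + 1)⁻¹ * ((s : ℝ≥0∞) + 1) = 1 := ENNReal.inv_mul_cancel h0 h1
  calc (((s : ℝ≥0∞) + 1)⁻¹) ^ 3 * ((s : ℝ≥0∞) + 1) ^ 4
      = (((s : ℝ≥0∞) + 1)⁻¹ * ((s : ℝ≥0∞) + 1)) ^ 3 * ((s : ℝ≥0∞) + 1) := by ring
    _ = _ := by rw [h2]; simp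

theorem inv_cube_sq (s : ℕ) :
    (((s : ℝ≥0∞) + 1)⁻¹) ^ 3 * (((s : ℝ≥0∞) + 1) * ((s : ℝ≥0∞) + 1)) ≤ 1 := by
  have h0 : (s : ℝ≥0∞) + 1 ≠ 0 := by simp
  have h1 : (s : ℝ≥0∞) + 1 ≠ ⊤ := by simp
  have h2 : ((s : ℝ≥0∞) + 1)⁻¹ * ((s : ℝ≥0∞) + 1) = 1 := ENNReal.inv_mul_cancel h0 h1
  calc (((s : ℝ≥0∞) + 1)⁻¹) ^ 3 * (((s : ℝ≥0∞) + 1) * ((s : ℝ≥0∞) + 1))
      = (((s : ℝ≥0∞) + 1)⁻¹ * ((s : ℝ≥0∞) + 1)) ^ 2 * ((s : ℝ≥0∞) + 1)⁻¹ := by ring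
    _ = ((s : ℝ≥0∞) + 1)⁻¹ := by rw [h2]; simp
    _ ≤ 1 := ENNReal.inv_le_one.2 (by simp)

open Classical in
/-- the number of scales and windows below the span -/
theorem windows_le (s l lam : ℕ) : ∑' q : ℕ × ℕ,
    (if VP l lam q ∧ q.2 ≤ s ∧ 2 ^ q.1 ≤ s then (1 : ℝ≥0∞) else 0) ≤
      ((s : ℝ≥0∞) + 1) * ((s : ℝ≥0∞) + 1) := by
  calc ∑' q : ℕ × ℕ, (if VP l lam q ∧ q.2 ≤ s ∧ 2 ^ q.1 ≤ s then (1 : ℝ≥0∞) else 0)
      ≤ ∑' q : ℕ × ℕ, (if q ∈ Finset.range (s + 1) ×ˢ Finset.range (s + 1) then (1 : ℝ≥0∞) else 0) := by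
        refine ENNReal.tsum_le_tsum fun q => ?_
        by_cases h : VP l lam q ∧ q.2 ≤ s ∧ 2 ^ q.1 ≤ s
        · rw [if_pos h, if_pos]
          have h1 : q.1 < 2 ^ q.1 := Nat.lt_two_pow_self
          rw [Finset.mem_product, Finset.mem_range, Finset.mem_range]
          exact ⟨by omega, by omega⟩
        · rw [if_neg h]; exact zero_le
    _ = ∑ q ∈ Finset.range (s + 1) ×ˢ Finset.range (s + 1), (1 : ℝ≥0∞) := by
        rw [tsum_eq_sum (s := Finset.range (s + 1) ×ˢ Finset.range (s + 1))]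
        · exact Finset.sum_congr rfl fun q hq => if_pos hq
        · intro q hq
          exact if_neg hq
    _ = _ := by
        rw [Finset.sum_const, Finset.card_product, Finset.card_range]
        simp

open Classical in
/-- bridges with many fold points have small total mass: use `struct` for each of them, then
`multifold` for all `X` and `p`, and count `X ≤ sp w`, `2 ^ p ≤ sp w` -/
theorem fo_many (h : ℕ) (hh : 1 ≤ h) : ∃ C : ℕ, 1 ≤ C ∧ ∀ (x z : ℝ≥0∞), z ≤ 1 →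
    ∑' b : {l : List Pt // Bridge l ∧ C * (sp l + 1) ≤ (fo l).card ^ h}, wz x z b.1 *
      (fo b.1).card ≤ UU x z := by
  obtain ⟨m, l, lam, C, hm, hl, hlam, hC, key⟩ := structure_thm h hh
  refine ⟨C, hC, fun x z hz => ?_⟩
  have hL0 : (((lam + 2 : ℕ) : ℝ≥0∞) ^ m) ≠ 0 := by positivity
  have hLT : (((lam + 2 : ℕ) : ℝ≥0∞) ^ m) ≠ ⊤ := ENNReal.pow_ne_top (ENNReal.natCast_ne_top _)
  set L : ℝ≥0∞ := (((lam + 2 : ℕ) : ℝ≥0∞) ^ m) with hLdef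
  -- the summand of the pair of scale and window
  set G : Br → ℕ × ℕ → ℝ≥0∞ := fun b q => if VP l lam q then
    L⁻¹ * (wz x z b.1 * (((sp b.1 : ℝ≥0∞) + 1)⁻¹) ^ 3 *
      ((TT (rn b.1) (fo b.1) (sp b.1) q.1 q.2 l lam m).card : ℝ≥0∞)) else 0 with hG
  -- pointwise bound
  have step1 : ∀ b : Br, C * (sp b.1 + 1) ≤ (fo b.1).card ^ h →
      wz x z b.1 * (fo b.1).card ≤ ∑' q : ℕ × ℕ, G b q := by
    intro b hb
    obtain ⟨p, X, hX, hp, hb1, hb2, hb3, hcard⟩ := key (sp b.1) (rn b.1) (fo b.1) (fo_sub_rn _)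
      (rn_le _) hb
    have h1 : VP l lam (p, X) := ⟨hb1, hb2, hb3⟩
    have h2 : G b (p, X) ≤ ∑' q : ℕ × ℕ, G b q := ENNReal.le_tsum _
    refine le_trans ?_ h2
    have h3 : G b (p, X) = L⁻¹ * (wz x z b.1 * (((sp b.1 : ℝ≥0∞) + 1)⁻¹) ^ 3 *
      ((TT (rn b.1) (fo b.1) (sp b.1) p X l lam m).card : ℝ≥0∞)) := by
      simp only [hG]
      rw [if_pos h1]
    rw [h3]
    have h4 : ((sp b.1 : ℝ≥0∞) + 1) ^ 4 * L ≤
        ((TT (rn b.1) (fo b.1) (sp b.1) p X l lam m).card : ℝ≥0∞) := by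
      have : (((sp b.1 + 1) ^ 4 * (lam + 2) ^ m : ℕ) : ℝ≥0∞) ≤
        ((TT (rn b.1) (fo b.1) (sp b.1) p X l lam m).card : ℝ≥0∞) := by exact_mod_cast hcard
      refine le_trans (le_of_eq ?_) this
      rw [hLdef]
      push_cast
      ring
    have h5 : ((fo b.1).card : ℝ≥0∞) ≤ (sp b.1 : ℝ≥0∞) + 1 := by exact_mod_cast fo_card_le b.1
    calc wz x z b.1 * (fo b.1).card ≤ wz x z b.1 * ((sp b.1 : ℝ≥0∞) + 1) := by gcongr
      _ = L⁻¹ * (wz x z b.1 * (((sp b.1 : ℝ≥0∞) + 1)⁻¹) ^ 3 * (((sp b.1 : ℝ≥0∞) + 1) ^ 4 * L)) := by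
          have e1 : L⁻¹ * L = 1 := ENNReal.inv_mul_cancel hL0 hLT
          calc wz x z b.1 * ((sp b.1 : ℝ≥0∞) + 1)
              = wz x z b.1 * ((((sp b.1 : ℝ≥0∞) + 1)⁻¹) ^ 3 * ((sp b.1 : ℝ≥0∞) + 1) ^ 4) := by
                rw [inv_cube]
            _ = (L⁻¹ * L) * (wz x z b.1 * ((((sp b.1 : ℝ≥0∞) + 1)⁻¹) ^ 3 *
                ((sp b.1 : ℝ≥0∞) + 1) ^ 4)) := by rw [e1, one_mul]
            _ = _ := by ring
      _ ≤ _ := by gcongr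
  -- summation over the bridges
  have step2 : ∀ q : ℕ × ℕ, ∑' b : Br, G b q ≤ ∑' w : Br,
      if VP l lam q ∧ q.2 ≤ sp w.1 ∧ 2 ^ q.1 ≤ sp w.1 then
        wz x z w.1 * (((sp w.1 : ℝ≥0∞) + 1)⁻¹) ^ 3 else 0 := by
    intro q
    by_cases hq : VP l lam q
    · have h1 : ∀ b : Br, G b q = L⁻¹ * (wz x z b.1 * (((sp b.1 : ℝ≥0∞) + 1)⁻¹) ^ 3 *
          ((TT (rn b.1) (fo b.1) (sp b.1) q.1 q.2 l lam m).card : ℝ≥0∞)) := by
        intro b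
        simp only [hG]
        rw [if_pos hq]
      rw [tsum_congr h1, ENNReal.tsum_mul_left]
      have h2 := multifold (x := x) (z := z) hz (m := m) (q := l) (lam := lam) (p := q.1) (X := q.2)
        hm hq.1 hq.2.1 hq.2.2
      have h3 : ∑' w : {w : List Pt // Bridge w ∧ q.2 ≤ sp w ∧ 2 ^ q.1 ≤ sp w},
          wz x z w.1 * (((sp w.1 : ℝ≥0∞) + 1)⁻¹) ^ 3 ≤ ∑' w : Br,
          if VP l lam q ∧ q.2 ≤ sp w.1 ∧ 2 ^ q.1 ≤ sp w.1 then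
            wz x z w.1 * (((sp w.1 : ℝ≥0∞) + 1)⁻¹) ^ 3 else 0 := by
        let f : {w : List Pt // Bridge w ∧ q.2 ≤ sp w ∧ 2 ^ q.1 ≤ sp w} → Br := fun w => ⟨w.1, w.2.1⟩
        have hf : Function.Injective f := by
          intro w w' hww
          have := congrArg Subtype.val hww
          exact Subtype.ext this
        refine le_trans (le_of_eq ?_) (ENNReal.tsum_comp_le_tsum_of_injective hf _)
        refine tsum_congr fun w => ?_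
        have hw : VP l lam q ∧ q.2 ≤ sp (f w).1 ∧ 2 ^ q.1 ≤ sp (f w).1 := ⟨hq, w.2.2⟩
        rw [if_pos hw]
      calc L⁻¹ * ∑' b : Br, wz x z b.1 * (((sp b.1 : ℝ≥0∞) + 1)⁻¹) ^ 3 *
            ((TT (rn b.1) (fo b.1) (sp b.1) q.1 q.2 l lam m).card : ℝ≥0∞)
          ≤ L⁻¹ * (L * ∑' w : {w : List Pt // Bridge w ∧ q.2 ≤ sp w ∧ 2 ^ q.1 ≤ sp w},
            wz x z w.1 * (((sp w.1 : ℝ≥0∞) + 1)⁻¹) ^ 3) := by gcongr
        _ = ∑' w : {w : List Pt // Bridge w ∧ q.2 ≤ sp w ∧ 2 ^ q.1 ≤ sp w},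
            wz x z w.1 * (((sp w.1 : ℝ≥0∞) + 1)⁻¹) ^ 3 := by
            rw [← mul_assoc, ENNReal.inv_mul_cancel hL0 hLT, one_mul]
        _ ≤ _ := h3
    · have h1 : ∀ b : Br, G b q = 0 := by
        intro b
        simp only [hG]
        rw [if_neg hq]
      rw [tsum_congr h1]
      simp
  have step3 : ∀ w : Br, (∑' q : ℕ × ℕ, if VP l lam q ∧ q.2 ≤ sp w.1 ∧ 2 ^ q.1 ≤ sp w.1 then
        wz x z w.1 * (((sp w.1 : ℝ≥0∞) + 1)⁻¹) ^ 3 else 0) ≤ wz x z w.1 := by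
    intro w
    have h1 : ∀ q : ℕ × ℕ, (if VP l lam q ∧ q.2 ≤ sp w.1 ∧ 2 ^ q.1 ≤ sp w.1 then
        wz x z w.1 * (((sp w.1 : ℝ≥0∞) + 1)⁻¹) ^ 3 else 0) =
        (wz x z w.1 * (((sp w.1 : ℝ≥0∞) + 1)⁻¹) ^ 3) *
          (if VP l lam q ∧ q.2 ≤ sp w.1 ∧ 2 ^ q.1 ≤ sp w.1 then (1 : ℝ≥0∞) else 0) := by
      intro q
      split_ifs <;> simp
    rw [tsum_congr h1, ENNReal.tsum_mul_left]
    calc (wz x z w.1 * (((sp w.1 : ℝ≥0∞) + 1)⁻¹) ^ 3) * _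
        ≤ (wz x z w.1 * (((sp w.1 : ℝ≥0∞) + 1)⁻¹) ^ 3) *
          (((sp w.1 : ℝ≥0∞) + 1) * ((sp w.1 : ℝ≥0∞) + 1)) := by
          gcongr
          exact windows_le _ _ _
      _ = wz x z w.1 * ((((sp w.1 : ℝ≥0∞) + 1)⁻¹) ^ 3 *
          (((sp w.1 : ℝ≥0∞) + 1) * ((sp w.1 : ℝ≥0∞) + 1))) := by ring
      _ ≤ wz x z w.1 * 1 := by
          gcongr
          exact inv_cube_sq _
      _ = _ := mul_one _
  let f : {l : List Pt // Bridge l ∧ C * (sp l + 1) ≤ (fo l).card ^ h} → Br := fun w => ⟨w.1, w.2.1⟩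
  have hf : Function.Injective f := by
    intro w w' hww
    have := congrArg Subtype.val hww
    exact Subtype.ext this
  calc ∑' b : {l : List Pt // Bridge l ∧ C * (sp l + 1) ≤ (fo l).card ^ h}, wz x z b.1 *
      (fo b.1).card
      ≤ ∑' b : {l : List Pt // Bridge l ∧ C * (sp l + 1) ≤ (fo l).card ^ h},
        ∑' q : ℕ × ℕ, G (f b) q := ENNReal.tsum_le_tsum fun b => step1 (f b) b.2.2
    _ ≤ ∑' b : Br, ∑' q : ℕ × ℕ, G b q :=
        ENNReal.tsum_comp_le_tsum_of_injective hf (fun b => ∑' q : ℕ × ℕ, G b q)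
    _ = ∑' q : ℕ × ℕ, ∑' b : Br, G b q := ENNReal.tsum_comm
    _ ≤ ∑' q : ℕ × ℕ, ∑' w : Br, (if VP l lam q ∧ q.2 ≤ sp w.1 ∧ 2 ^ q.1 ≤ sp w.1 then
        wz x z w.1 * (((sp w.1 : ℝ≥0∞) + 1)⁻¹) ^ 3 else 0) := ENNReal.tsum_le_tsum step2
    _ = ∑' w : Br, ∑' q : ℕ × ℕ, (if VP l lam q ∧ q.2 ≤ sp w.1 ∧ 2 ^ q.1 ≤ sp w.1 then
        wz x z w.1 * (((sp w.1 : ℝ≥0∞) + 1)⁻¹) ^ 3 else 0) := ENNReal.tsum_comm
    _ ≤ ∑' w : Br, wz x z w.1 := ENNReal.tsum_le_tsum step3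
    _ = UU x z := rfl

open Classical in
theorem VV_le (h : ℕ) (hh : 1 ≤ h) : ∃ C : ℝ≥0∞, C ≠ ⊤ ∧ ∀ (x : ℝ≥0∞), (∀ t, uu x t ≤ 1) →
    ∀ N A : ℕ, 1 ≤ N → 1 ≤ A → N ^ 2 ≤ A ^ h → VV x (zN N) ≤ C * A * UU x (zN N) := by
  obtain ⟨C₀, hC₀, key⟩ := fo_many h hh
  refine ⟨6 + 8 * (C₀ : ℝ≥0∞), by simp [ENNReal.add_eq_top, ENNReal.mul_eq_top], ?_⟩
  intro x hu N A hN hA hNA
  have hA0 : ((A : ℝ≥0∞) ^ (h - 1)) ≠ 0 := by
    have : (A : ℝ≥0∞) ≠ 0 := by exact_mod_cast (by omega : A ≠ 0)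
    exact pow_ne_zero _ this
  have hAT : ((A : ℝ≥0∞) ^ (h - 1)) ≠ ⊤ := ENNReal.pow_ne_top (ENNReal.natCast_ne_top _)
  have hAh : (A : ℝ≥0∞) ^ h = (A : ℝ≥0∞) ^ (h - 1) * A := by
    rw [← pow_succ]; congr 1; omega
  have hA1 : (1 : ℝ≥0∞) ≤ A := by exact_mod_cast hA
  have hU1 := one_le_UU x (zN N)
  -- bridges with few fold points
  have few : ∀ b : Br, ¬ C₀ * (sp b.1 + 1) ≤ (fo b.1).card ^ h →
      (fo b.1).card * A ^ (h - 1) ≤ A ^ h + C₀ * (sp b.1 + 1) := by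
    intro b hb
    push Not at hb
    rcases Nat.lt_or_ge A (fo b.1).card with h1 | h1
    · have h2 : (fo b.1).card * A ^ (h - 1) ≤ (fo b.1).card ^ h := by
        calc (fo b.1).card * A ^ (h - 1) ≤ (fo b.1).card * (fo b.1).card ^ (h - 1) :=
              Nat.mul_le_mul_left _ (Nat.pow_le_pow_left h1.le _)
          _ = (fo b.1).card ^ h := by
              rw [← pow_succ']; congr 1; omega
      omega
    · have h2 : (fo b.1).card * A ^ (h - 1) ≤ A ^ h := by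
        calc (fo b.1).card * A ^ (h - 1) ≤ A * A ^ (h - 1) := Nat.mul_le_mul_right _ h1
          _ = A ^ h := by
              rw [← pow_succ']; congr 1; omega
      omega
  -- splitting of the sum
  have split : ∑' b : Br, wz x (zN N) b.1 * (fo b.1).card ≤
      UU x (zN N) + ∑' b : Br, (if C₀ * (sp b.1 + 1) ≤ (fo b.1).card ^ h then 0 else
        wz x (zN N) b.1 * (fo b.1).card) := by
    have h1 : ∀ b : Br, wz x (zN N) b.1 * ((fo b.1).card : ℝ≥0∞) =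
        (if C₀ * (sp b.1 + 1) ≤ (fo b.1).card ^ h then wz x (zN N) b.1 * ((fo b.1).card : ℝ≥0∞) else 0)
        + (if C₀ * (sp b.1 + 1) ≤ (fo b.1).card ^ h then 0 else
          wz x (zN N) b.1 * ((fo b.1).card : ℝ≥0∞)) := by
      intro b
      split_ifs <;> simp
    rw [tsum_congr h1, ENNReal.tsum_add]
    refine add_le_add ?_ le_rfl
    refine le_trans (le_of_eq ?_) (key x (zN N) (zN_le_one N))
    let f : {l : List Pt // Bridge l ∧ C₀ * (sp l + 1) ≤ (fo l).card ^ h} → Br :=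
      fun w => ⟨w.1, w.2.1⟩
    have hf : Function.Injective f := by
      intro w w' hww
      have := congrArg Subtype.val hww
      exact Subtype.ext this
    set g : Br → ℝ≥0∞ := fun b => if C₀ * (sp b.1 + 1) ≤ (fo b.1).card ^ h then
      wz x (zN N) b.1 * ((fo b.1).card : ℝ≥0∞) else 0 with hg
    have h2 : ∑' b : Br, g b = ∑' w, g (f w) := by
      refine (hf.tsum_eq ?_).symm
      intro b hb
      by_cases hc : C₀ * (sp b.1 + 1) ≤ (fo b.1).card ^ h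
      · exact ⟨⟨b.1, b.2, hc⟩, rfl⟩
      · exact absurd (by simp only [hg]; rw [if_neg hc]) hb
    rw [h2]
    refine tsum_congr fun w => ?_
    simp only [hg]
    rw [if_pos w.2.2]
  have hfew : (A : ℝ≥0∞) ^ (h - 1) * ∑' b : Br, (if C₀ * (sp b.1 + 1) ≤ (fo b.1).card ^ h then 0 else
        wz x (zN N) b.1 * ((fo b.1).card : ℝ≥0∞)) ≤
      (A : ℝ≥0∞) ^ (h - 1) * (A * (1 + 4 * C₀) * UU x (zN N)) := by
    rw [← ENNReal.tsum_mul_left]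
    calc ∑' b : Br, (A : ℝ≥0∞) ^ (h - 1) * (if C₀ * (sp b.1 + 1) ≤ (fo b.1).card ^ h then 0 else
        wz x (zN N) b.1 * ((fo b.1).card : ℝ≥0∞))
        ≤ ∑' b : Br, ((A : ℝ≥0∞) ^ h * wz x (zN N) b.1 +
          C₀ * (wz x (zN N) b.1 * ((sp b.1 : ℝ≥0∞) + 1))) := by
          refine ENNReal.tsum_le_tsum fun b => ?_
          split_ifs with hb
          · rw [mul_zero]; exact zero_le
          · have h1 : (((fo b.1).card * A ^ (h - 1) : ℕ) : ℝ≥0∞) ≤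
                ((A ^ h + C₀ * (sp b.1 + 1) : ℕ) : ℝ≥0∞) := by exact_mod_cast few b hb
            push_cast at h1
            calc (A : ℝ≥0∞) ^ (h - 1) * (wz x (zN N) b.1 * ((fo b.1).card : ℝ≥0∞))
                = wz x (zN N) b.1 * (((fo b.1).card : ℝ≥0∞) * (A : ℝ≥0∞) ^ (h - 1)) := by ring
              _ ≤ wz x (zN N) b.1 * ((A : ℝ≥0∞) ^ h + C₀ * ((sp b.1 : ℝ≥0∞) + 1)) := by gcongr
              _ = _ := by ring
      _ = (A : ℝ≥0∞) ^ h * UU x (zN N) +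
          C₀ * ∑' b : Br, wz x (zN N) b.1 * ((sp b.1 : ℝ≥0∞) + 1) := by
          rw [ENNReal.tsum_add, ENNReal.tsum_mul_left, ENNReal.tsum_mul_left]
          rfl
      _ ≤ (A : ℝ≥0∞) ^ h * UU x (zN N) + C₀ * ((N : ℝ≥0∞) + 1) ^ 2 := by
          gcongr
          exact UU_mom hu N
      _ ≤ (A : ℝ≥0∞) ^ h * UU x (zN N) + C₀ * (4 * (A : ℝ≥0∞) ^ h * UU x (zN N)) := by
          gcongr
          have h1 : (((N + 1) ^ 2 : ℕ) : ℝ≥0∞) ≤ ((4 * A ^ h : ℕ) : ℝ≥0∞) := by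
            have : (N + 1) ^ 2 ≤ 4 * A ^ h := by
              calc (N + 1) ^ 2 ≤ (2 * N) ^ 2 := Nat.pow_le_pow_left (by omega) 2
                _ = 4 * N ^ 2 := by ring
                _ ≤ _ := Nat.mul_le_mul_left _ hNA
            exact_mod_cast this
          push_cast at h1
          calc ((N : ℝ≥0∞) + 1) ^ 2 ≤ 4 * (A : ℝ≥0∞) ^ h := h1
            _ = 4 * (A : ℝ≥0∞) ^ h * 1 := (mul_one _).symm
            _ ≤ _ := by gcongr
      _ = _ := by rw [hAh]; ring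
  have hfew' := (ENNReal.mul_le_mul_iff_right hA0 hAT).1 hfew
  calc VV x (zN N) ≤ 2 * UU x (zN N) + 2 * ∑' b : Br, wz x (zN N) b.1 * (fo b.1).card :=
        VV_le_fo x (zN N)
    _ ≤ 2 * UU x (zN N) + 2 * (UU x (zN N) + A * (1 + 4 * C₀) * UU x (zN N)) := by
        gcongr
        exact split.trans (add_le_add le_rfl hfew')
    _ = 4 * 1 * UU x (zN N) + (2 + 8 * C₀) * A * UU x (zN N) := by ring
    _ ≤ 4 * A * UU x (zN N) + (2 + 8 * C₀) * A * UU x (zN N) := by gcongr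
    _ = _ := by ring

end Pool.Agent.Work.MP_376faf_co_neps
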