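import Pool.Agent.Work.MP_376faf_co_neps.Rec
import Pool.Agent.Work.MP_376faf_co_neps.Lam
import Pool.Agent.Work.MP_376faf_co_hw.HalfB

/-! Module HalfE: half-plane walks; product over the dyadic blocks, long pieces by `hw_long`
(cf. `half_bound` in hw/HalfB.lean). -/

set_option autoImplicit false

namespace Pool.Agent.Work.MP_376faf_co_neps

open Pool.Agent.Work.MP_376faf_co_lower Pool.Agent.Work.MP_376faf_co_hw
open scoped ENNReal

/-- only the empty walk stays in the column `0` -/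
theorem HL_zero_le (y : ℝ≥0∞) (n : ℕ) : mass y (HL n 0) ≤ 1 := by
  have h0 : ∀ l, HL n 0 l → l = [] := by
    intro l hl
    by_contra hne
    have hlen : 1 ≤ l.length := by
      rcases l with _ | ⟨a, l⟩
      · exact absurd rfl hne
      · simp
    have h1 := hl.1.1.2 1 one_pos hlen
    have h2 := hl.1.2 1 hlen
    simp at h2
    omega
  have h1 : mass y (HL n 0) ≤ ∑' _ : Unit, (1 : ℝ≥0∞) := by
    refine tsum_le_inj (fun _ : {l // HL n 0 l} => ()) ?_ ?_
    · intro a b _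
      exact Subtype.ext ((h0 a.1 a.2).trans (h0 b.1 b.2).symm)
    · intro a
      rw [h0 a.1 a.2]
      simp
  simpa using h1

/-- the sum of the masses of the long pieces of a block -/
theorem lo_block {y : ℝ≥0∞} {m n : ℕ} {lam : ℝ≥0∞}
    (hL : ∑ T ∈ Finset.range n, mass y (LoB m n (T + 1)) ≤ lam) {N : ℕ} (hN : 1 ≤ N) :
    ∑ A ∈ Finset.Ico N (2 * N), mass y (LoB m n A) ≤ lam := by
  classical
  refine le_trans ?_ hL
  have e1 : ∑ A ∈ Finset.Ico N (2 * N), mass y (LoB m n A) =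
      ∑ T ∈ Finset.Ico (N - 1) (2 * N - 1), mass y (LoB m n (T + 1)) := by
    rw [Finset.sum_Ico_add' (fun A => mass y (LoB m n A)) (N - 1) (2 * N - 1) 1]
    rw [show N - 1 + 1 = N by omega, show 2 * N - 1 + 1 = 2 * N by omega]
  rw [e1]
  calc ∑ T ∈ Finset.Ico (N - 1) (2 * N - 1), mass y (LoB m n (T + 1))
      = ∑ T ∈ (Finset.Ico (N - 1) (2 * N - 1)).filter (fun T => T < n),
          mass y (LoB m n (T + 1)) := by
        rw [Finset.sum_filter]
        refine Finset.sum_congr rfl fun T _ => ?_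
        split_ifs with h
        · rfl
        · exact lo_big (by omega)
    _ ≤ _ := by
        refine Finset.sum_le_sum_of_subset fun T hT => ?_
        rw [Finset.mem_filter] at hT
        exact Finset.mem_range.2 hT.2

/-- one dyadic block: bound with explicit numbers -/
theorem block_num {μ : ℝ} (hu : ∀ t, uu (ENNReal.ofReal μ)⁻¹ t ≤ 1) {c : ℝ} (hc : 0 ≤ c)
    {m n k A i : ℕ} (hi : i < k) (hA : 1 ≤ A) {y : ℝ≥0∞}
    (hV : VV (ENNReal.ofReal μ)⁻¹ (zN (2 ^ i)) ≤
      ENNReal.ofReal c * A * UU (ENNReal.ofReal μ)⁻¹ (zN (2 ^ i)))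
    (hy : ∀ l < m, y ^ l ≤ 2 * (ENNReal.ofReal μ)⁻¹ ^ l)
    (hL : ∑ T ∈ Finset.range n, mass y (LoB m n (T + 1)) ≤ ((2 ^ k : ℝ≥0∞) ^ 3)⁻¹) :
    mass y (HL n (2 ^ (i + 1) - 1)) ≤ mass y (HL n (2 ^ i - 1)) *
      ENNReal.ofReal (Real.exp (k + 1 + 32 * c * A + (2 + 64 * c * A + (32 * c * A) ^ 2))) := by
  set x : ℝ≥0∞ := (ENNReal.ofReal μ)⁻¹ with hx
  set z := zN (2 ^ i) with hz
  set U := UU x z with hU
  set V := VV x z with hVdef
  have hN : 1 ≤ 2 ^ i := Nat.one_le_two_pow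
  have hU1 : 1 ≤ U := one_le_UU x z
  have hU0 : U ≠ 0 := (lt_of_lt_of_le one_pos hU1).ne'
  have hUle : U ≤ ENNReal.ofReal (2 ^ (i + 1)) := by
    refine (UU_le hu (2 ^ i)).trans ?_
    rw [ENNReal.ofReal_pow (by norm_num), show ENNReal.ofReal 2 = 2 by simp, pow_succ, mul_two]
    push_cast
    gcongr
    exact one_le_pow₀ (by norm_num)
  have hUt : U ≠ ⊤ := ne_top_of_le_ne_top ENNReal.ofReal_ne_top hUle
  have h2k : (1:ℝ) ≤ 2 ^ k := one_le_pow₀ (by norm_num)
  have hik : (2:ℝ) ^ (i + 1) ≤ 2 ^ k := pow_le_pow_right₀ (by norm_num) (by omega)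
  have hAr : ((A:ℕ) : ℝ≥0∞) = ENNReal.ofReal (A:ℝ) := by simp
  set lamr : ℝ := ((2 ^ k : ℝ) ^ 3)⁻¹ with hlamr
  have hlam : ((2 ^ k : ℝ≥0∞) ^ 3)⁻¹ = ENNReal.ofReal lamr := by
    rw [hlamr, ENNReal.ofReal_inv_of_pos (by positivity), ENNReal.ofReal_pow (by positivity),
      ENNReal.ofReal_pow (by norm_num), show ENNReal.ofReal 2 = 2 by simp]
  rw [hlam] at hL
  have hUlam : (2:ℝ) ^ (i + 1) * lamr ≤ 1 := by
    rw [hlamr, ← div_eq_mul_inv, div_le_one (by positivity)]
    calc (2:ℝ) ^ (i + 1) ≤ 2 ^ k := hik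
      _ = (2 ^ k) * 1 * 1 := by ring
      _ ≤ (2 ^ k) * (2 ^ k) * (2 ^ k) := by gcongr
      _ = _ := by ring
  have hlam0 : 0 ≤ lamr := by positivity
  have hG : U * ENNReal.ofReal lamr + 16 * 2 * ENNReal.ofReal lamr * V +
      (16 * 2 * (V / U)) ^ 2 ≤ ENNReal.ofReal (1 + 32 * c * A + (32 * c * A) ^ 2) := by
    have a1 : U * ENNReal.ofReal lamr ≤ ENNReal.ofReal 1 := by
      calc U * ENNReal.ofReal lamr ≤ ENNReal.ofReal (2 ^ (i + 1)) * ENNReal.ofReal lamr := by
            gcongr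
        _ = ENNReal.ofReal (2 ^ (i + 1) * lamr) := by rw [ENNReal.ofReal_mul (by positivity)]
        _ ≤ _ := ENNReal.ofReal_le_ofReal hUlam
    have a2 : 16 * 2 * ENNReal.ofReal lamr * V ≤ ENNReal.ofReal (32 * c * A) := by
      calc 16 * 2 * ENNReal.ofReal lamr * V
          ≤ 16 * 2 * ENNReal.ofReal lamr * (ENNReal.ofReal c * A * U) := by gcongr
        _ = 32 * ENNReal.ofReal c * A * (U * ENNReal.ofReal lamr) := by
            rw [show (16 * 2 : ℝ≥0∞) = 32 by norm_num]; ring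
        _ ≤ 32 * ENNReal.ofReal c * A * ENNReal.ofReal 1 := by gcongr
        _ = _ := by
            rw [ENNReal.ofReal_one, mul_one, hAr, show (32 : ℝ≥0∞) = ENNReal.ofReal 32 by simp,
              ← ENNReal.ofReal_mul (by norm_num), ← ENNReal.ofReal_mul (by positivity)]
    have a3 : (16 * 2 * (V / U)) ^ 2 ≤ ENNReal.ofReal ((32 * c * A) ^ 2) := by
      have : V / U ≤ ENNReal.ofReal c * A := by
        rw [ENNReal.div_le_iff_le_mul (Or.inl hU0) (Or.inl hUt)]
        exact hV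
      rw [ENNReal.ofReal_pow (by positivity)]
      refine pow_le_pow_left' ?_ 2
      calc 16 * 2 * (V / U) ≤ 16 * 2 * (ENNReal.ofReal c * A) := by gcongr
        _ = _ := by
            rw [hAr, show (16 * 2 : ℝ≥0∞) = ENNReal.ofReal 32 by norm_num,
              ← ENNReal.ofReal_mul (by positivity), ← ENNReal.ofReal_mul (by positivity)]
            congr 1
            ring
    rw [ENNReal.ofReal_add (by positivity) (by positivity),
      ENNReal.ofReal_add (by positivity) (by positivity)]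
    exact add_le_add (add_le_add a1 a2) a3
  have hb := block (x := x) (y := y) (K := 2) (m := m) (n := n) (N := 2 ^ i) hN hu hy
    (lo_block hL hN) (by positivity) hG
  rw [show 2 ^ (i + 1) - 1 = 2 * 2 ^ i - 1 by rw [pow_succ, mul_comm]]
  refine hb.trans ?_
  rw [mul_assoc]
  refine mul_le_mul' le_rfl ?_
  have b1 : U + 16 * 2 * V ≤ ENNReal.ofReal (Real.exp (k + 1 + 32 * c * A)) := by
    calc U + 16 * 2 * V ≤ U + 16 * 2 * (ENNReal.ofReal c * A * U) := by gcongr
      _ = U * (1 + 16 * 2 * (ENNReal.ofReal c * A)) := by ring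
      _ = U * ENNReal.ofReal (1 + 32 * c * A) := by
          congr 1
          rw [ENNReal.ofReal_add (by norm_num) (by positivity), ENNReal.ofReal_one, hAr,
            show (16 * 2 : ℝ≥0∞) = ENNReal.ofReal 32 by norm_num,
              ← ENNReal.ofReal_mul (by positivity), ← ENNReal.ofReal_mul (by positivity)]
          congr 2
          ring
      _ ≤ ENNReal.ofReal (2 ^ (i + 1)) * ENNReal.ofReal (1 + 32 * c * A) := by gcongr
      _ = ENNReal.ofReal (2 ^ (i + 1) * (1 + 32 * c * A)) := by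
          rw [ENNReal.ofReal_mul (by positivity)]
      _ ≤ _ := by
          refine ENNReal.ofReal_le_ofReal ?_
          rw [Real.exp_add]
          have c1 : (2:ℝ) ^ (i + 1) ≤ Real.exp (k + 1) := by
            have d1 : (2:ℝ) ≤ Real.exp 1 := by
              have := Real.add_one_le_exp (1:ℝ)
              linarith
            calc (2:ℝ) ^ (i + 1) ≤ Real.exp 1 ^ (i + 1) := by gcongr
              _ = Real.exp ((i + 1 : ℕ) * 1) := by rw [Real.exp_nat_mul]
              _ ≤ _ := by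
                  refine Real.exp_le_exp.2 ?_
                  have : ((i + 1 : ℕ) : ℝ) ≤ k := by exact_mod_cast hi
                  linarith
          have c2 : 1 + 32 * c * A ≤ Real.exp (32 * c * A) := by
            have := Real.add_one_le_exp (32 * c * A)
            linarith
          gcongr
  calc (U + 16 * 2 * V) * ENNReal.ofReal (Real.exp (1 + 32 * c * A + (32 * c * A) ^ 2))
      ≤ ENNReal.ofReal (Real.exp (k + 1 + 32 * c * A)) *
        ENNReal.ofReal (Real.exp (1 + 32 * c * A + (32 * c * A) ^ 2)) := by gcongr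
    _ = ENNReal.ofReal (Real.exp (k + 1 + 32 * c * A + (1 + 32 * c * A + (32 * c * A) ^ 2))) := by
        rw [← ENNReal.ofReal_mul (Real.exp_pos _).le, ← Real.exp_add]
    _ ≤ _ := by
        refine ENNReal.ofReal_le_ofReal (Real.exp_le_exp.2 ?_)
        have : 0 ≤ c * A := by positivity
        nlinarith

theorem half_e (h : ℕ) (hh : 1 ≤ h) : ∃ C : ℝ, 1 ≤ C ∧ ∀ (μ : ℝ), 1 ≤ μ →
    (∀ t, uu (ENNReal.ofReal μ)⁻¹ t ≤ 1) → ∀ (m n k A : ℕ), 1 ≤ m → m ≤ 2 ^ k → 1 ≤ A →
    (2 ^ k) ^ 2 ≤ A ^ h → ∀ (y : ℝ≥0∞), (∀ l < m, y ^ l ≤ 2 * (ENNReal.ofReal μ)⁻¹ ^ l) →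
    ∑ T ∈ Finset.range n, mass y (LoB m n (T + 1)) ≤ ((2 ^ k : ℝ≥0∞) ^ 3)⁻¹ →
    mass y (fun l => Half l ∧ l.length ≤ n) ≤ ENNReal.ofReal (Real.exp (C * (A : ℝ) ^ 3)) := by
  obtain ⟨C0, hC0, hV⟩ := VV_le h hh
  set c : ℝ := C0.toReal with hc
  have hc0 : 0 ≤ c := ENNReal.toReal_nonneg
  have hcC : C0 = ENNReal.ofReal c := (ENNReal.ofReal_toReal hC0).symm
  refine ⟨2 + h * (h + 3 + 96 * c + (32 * c) ^ 2), ?_, ?_⟩
  · have : 0 ≤ (h:ℝ) * (h + 3 + 96 * c + (32 * c) ^ 2) := by positivity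
    linarith
  intro μ hμ hu m n k A hm hk hA hkA y hy hL
  have hA1 : (1:ℝ) ≤ A := by exact_mod_cast hA
  -- `k` is small
  have hkh : 2 * k ≤ A * h := by
    have h1 : 2 ^ (2 * k) ≤ 2 ^ (A * h) := by
      calc 2 ^ (2 * k) = (2 ^ k) ^ 2 := by rw [← pow_mul, mul_comm]
        _ ≤ A ^ h := hkA
        _ ≤ (2 ^ A) ^ h := Nat.pow_le_pow_left (Nat.lt_two_pow_self).le h
        _ = _ := by rw [← pow_mul]
    exact (Nat.pow_le_pow_iff_right (by norm_num)).1 h1
  have hkh' : (k:ℝ) ≤ A * h := by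
    have : ((2 * k : ℕ) : ℝ) ≤ ((A * h : ℕ) : ℝ) := by exact_mod_cast hkh
    push_cast at this
    have h0 : (0:ℝ) ≤ k := Nat.cast_nonneg k
    linarith
  set B : ℝ := k + 1 + 32 * c * A + (2 + 64 * c * A + (32 * c * A) ^ 2) with hB
  have hB0 : 0 ≤ B := by positivity
  -- the blocks
  have hblk : ∀ i ≤ k, mass y (HL n (2 ^ i - 1)) ≤ ENNReal.ofReal (Real.exp (i * B)) := by
    intro i
    induction i with
    | zero =>
      intro _
      simpa using HL_zero_le y n
    | succ i ih =>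
      intro hi
      have hNA : (2 ^ i) ^ 2 ≤ A ^ h := le_trans
        (Nat.pow_le_pow_left (Nat.pow_le_pow_right (by norm_num) (by omega)) 2) hkA
      have h1 := hV (ENNReal.ofReal μ)⁻¹ hu (2 ^ i) A Nat.one_le_two_pow hA hNA
      rw [hcC] at h1
      refine (block_num hu hc0 (show i < k by omega) hA h1 hy hL).trans ?_
      calc mass y (HL n (2 ^ i - 1)) * ENNReal.ofReal (Real.exp B)
          ≤ ENNReal.ofReal (Real.exp (i * B)) * ENNReal.ofReal (Real.exp B) := by
            gcongr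
            exact ih (by omega)
        _ = _ := by
            rw [← ENNReal.ofReal_mul (Real.exp_pos _).le, ← Real.exp_add]
            congr 2
            push_cast
            ring
  -- the long part
  have h2k : 1 ≤ 2 ^ k := Nat.one_le_two_pow
  have h3 : mass y (fun l => Half l ∧ l.length ≤ n) ≤ mass y (HL n (max (2 ^ k - 1) n)) :=
    mass_mono y fun l hl => half_HL (le_max_right _ _) hl
  have h4 := hw_long (y := y) (m := m) (n := n) (M := 2 ^ k - 1) (M' := max (2 ^ k - 1) n)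
    (by omega) (le_max_left _ _)
  have hL1 : ∑ T ∈ Finset.range n, mass y (LoB m n (T + 1)) ≤ 1 := by
    refine hL.trans (ENNReal.inv_le_one.2 ?_)
    exact one_le_pow₀ (one_le_pow₀ (by norm_num))
  have h5 : ∏ T ∈ Finset.Ico (2 ^ k - 1) (max (2 ^ k - 1) n), (1 + mass y (LoB m n (T + 1))) ≤
      ENNReal.ofReal (Real.exp 1) :=
    prod_exp zero_le_one (by
      rw [ENNReal.ofReal_one]
      exact lo_sum hL1 _)
  calc mass y (fun l => Half l ∧ l.length ≤ n)
      ≤ ENNReal.ofReal (Real.exp (k * B)) * ENNReal.ofReal (Real.exp 1) :=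
        (h3.trans h4).trans (mul_le_mul' (hblk k le_rfl) h5)
    _ = ENNReal.ofReal (Real.exp (k * B + 1)) := by
        rw [← ENNReal.ofReal_mul (Real.exp_pos _).le, ← Real.exp_add]
    _ ≤ _ := by
        refine ENNReal.ofReal_le_ofReal (Real.exp_le_exp.2 ?_)
        have e1 : B ≤ (h + 3 + 96 * c + (32 * c) ^ 2) * A ^ 2 := by
          have hAA : (A:ℝ) ≤ A ^ 2 := by nlinarith
          have hA2 : (1:ℝ) ≤ A ^ 2 := by nlinarith
          have t1 : (k:ℝ) ≤ h * A ^ 2 := by
            calc (k:ℝ) ≤ A * h := hkh'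
              _ = h * A := mul_comm _ _
              _ ≤ h * A ^ 2 := by gcongr
          have t2 : 96 * c * A ≤ 96 * c * A ^ 2 := by gcongr
          calc B = k + 3 + 96 * c * A + (32 * c) ^ 2 * A ^ 2 := by rw [hB]; ring
            _ ≤ h * A ^ 2 + 3 * A ^ 2 + 96 * c * A ^ 2 + (32 * c) ^ 2 * A ^ 2 := by
                have : (3:ℝ) ≤ 3 * A ^ 2 := by linarith
                linarith
            _ = _ := by ring
        have e2 : k * B ≤ (A * h) * ((h + 3 + 96 * c + (32 * c) ^ 2) * A ^ 2) := by gcongr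
        have e3 : (1:ℝ) ≤ A ^ 3 := one_le_pow₀ hA1
        calc k * B + 1 ≤ (A * h) * ((h + 3 + 96 * c + (32 * c) ^ 2) * A ^ 2) + 2 * A ^ 3 := by
              linarith
          _ = _ := by ring

end Pool.Agent.Work.MP_376faf_co_neps
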