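import Pool.Agent.Work.MP_376faf_co_neps.Gen

/-! Module Irr: irreducible bridges, the cut (section 6 of note 2994). -/

set_option autoImplicit false

namespace Pool.Agent.Work.MP_376faf_co_neps

open Pool.Agent.Work.MP_376faf_co_lower Pool.Agent.Work.MP_376faf_co_hw
open scoped ENNReal

namespace IrrAux

theorem sp_app {a b : List Pt} (ha : Bridge a) (hb : Bridge b) : sp (a ++ b) = sp a + sp b := by
  have h1 := sum_nonneg ha
  have h2 := sum_nonneg hb
  unfold sp
  rw [List.sum_append, Prod.fst_add]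
  omega

theorem sp_nil : sp ([] : List Pt) = 0 := by simp [sp]

theorem rr_nil : rr ([] : List Pt) = 0 := by simp [rr, Ren]

theorem wz_app (x z : ℝ≥0∞) {a b : List Pt} (ha : Bridge a) (hb : Bridge b) :
    wz x z (a ++ b) = wz x z a * wz x z b := by
  unfold wz
  rw [sp_app ha hb, List.length_append, pow_add, pow_add]
  ring

/-- first irreducible factor -/
theorem first_irr {l : List Pt} (h : Bridge l) (h0 : l ≠ []) :
    ∃ j r : List Pt, BR 1 j ∧ Bridge r ∧ l = j ++ r := by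
  by_cases h1 : rr l = 1
  · exact ⟨l, [], ⟨h, h0, h1⟩, bridge_nil, by simp⟩
  · have := rr_pos h h0
    obtain ⟨j, hj0, hjl, ht, hd, hr⟩ := bridge_decomp h (by omega)
    refine ⟨l.take j, l.drop j, ⟨ht, ?_, hr⟩, hd, (List.take_append_drop j l).symm⟩
    intro h2
    rw [h2, rr_nil] at hr
    omega

theorem irr_unique' {a b a' b' : List Pt} (ha : BR 1 a) (ha' : BR 1 a') (hb : Bridge b)
    (hb' : Bridge b') (h : a ++ b = a' ++ b') : a = a' ∧ b = b' := by
  have e : rr b = rr b' := by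
    have h1 := rr_append ha.1 hb
    have h2 := rr_append ha'.1 hb'
    rw [h, h2, ha.2.2, ha'.2.2] at h1
    omega
  by_cases hb0 : b = []
  · have hb1 : b' = [] := by
      by_contra hb1
      have := rr_pos hb' hb1
      rw [← e, hb0, rr_nil] at this
      omega
    subst hb0
    subst hb1
    simpa using h
  · have hb1 : b' ≠ [] := by
      rintro rfl
      have := rr_pos hb hb0
      rw [e, rr_nil] at this
      omega
    exact irr_unique ha.1 hb ha'.1 hb' hb0 hb1 ha.2.2 ha'.2.2 h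

theorem tsum_sum' {α β : Type*} (f : α ⊕ β → ℝ≥0∞) :
    ∑' i, f i = ∑' a, f (.inl a) + ∑' b, f (.inr b) :=
  Summable.tsum_sum ENNReal.summable ENNReal.summable

/-- generating function of the irreducible bridges -/
noncomputable def FF (x z : ℝ≥0∞) : ℝ≥0∞ := ∑' j : Ir, wz x z j.1

theorem UU_le_FF (x z : ℝ≥0∞) : UU x z ≤ 1 + FF x z * UU x z := by
  classical
  have key : ∀ b : Br, b.1 ≠ [] → ∃ p : Ir × Br, b.1 = p.1.1 ++ p.2.1 := by
    rintro ⟨b, hb⟩ h0
    obtain ⟨j, r, hj, hr, e⟩ := first_irr hb h0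
    exact ⟨(⟨j, hj⟩, ⟨r, hr⟩), e⟩
  choose g hg using key
  have h1 : UU x z ≤ ∑' i : Unit ⊕ (Ir × Br), Sum.elim (fun _ : Unit => (1 : ℝ≥0∞))
      (fun p : Ir × Br => wz x z p.1.1 * wz x z p.2.1) i := by
    refine tsum_le_inj (fun b : Br => if h : b.1 ≠ [] then Sum.inr (g b h) else Sum.inl ()) ?_ ?_
    · intro b b' h
      simp only at h
      by_cases hb : b.1 ≠ [] <;> by_cases hb' : b'.1 ≠ []
      · rw [dif_pos hb, dif_pos hb'] at h
        apply Subtype.ext
        rw [hg b hb, hg b' hb', Sum.inr.inj h]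
      · rw [dif_pos hb, dif_neg hb'] at h
        exact absurd h (by simp)
      · rw [dif_neg hb, dif_pos hb'] at h
        exact absurd h (by simp)
      · push Not at hb hb'
        exact Subtype.ext (hb.trans hb'.symm)
    · intro b
      by_cases hb : b.1 ≠ []
      · rw [dif_pos hb]
        simp only [Sum.elim_inr]
        rw [← wz_app x z (g b hb).1.2.1 (g b hb).2.2, ← hg b hb]
      · rw [dif_neg hb]
        push Not at hb
        simp only [Sum.elim_inl]
        rw [hb]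
        simp [wz, sp]
  refine h1.trans (le_of_eq ?_)
  rw [tsum_sum']
  simp only [Sum.elim_inl, Sum.elim_inr]
  congr 1
  · simp
  · exact tsum_mul (fun j : Ir => wz x z j.1) (fun b : Br => wz x z b.1)

theorem FF_mul_le (x z : ℝ≥0∞) : FF x z * UU x z ≤ UU x z := by
  unfold FF UU
  rw [← tsum_mul]
  refine tsum_le_inj (fun p : Ir × Br => (⟨p.1.1 ++ p.2.1, bridge_append p.1.2.1 p.2.2⟩ : Br)) ?_ ?_
  · intro p q h
    have h1 := congrArg Subtype.val h
    simp only at h1
    obtain ⟨e1, e2⟩ := irr_unique' p.1.2 q.1.2 p.2.2 q.2.2 h1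
    exact Prod.ext (Subtype.ext e1) (Subtype.ext e2)
  · intro p
    simp only
    rw [wz_app x z p.1.2.1 p.2.2]

theorem UU_top {x : ℝ≥0∞} (hu : ∀ t, uu x t ≤ 1) {z : ℝ≥0∞} (hz : z < 1) : UU x z ≠ ⊤ := by
  rw [UU_eq]
  have h1 : ∑' t : ℕ, uu x t * z ^ t ≤ ∑' t : ℕ, z ^ t :=
    ENNReal.tsum_le_tsum (fun t => mul_le_of_le_one_left' (hu t))
  rw [ENNReal.tsum_geometric] at h1
  refine ne_top_of_le_ne_top ?_ h1
  rw [ENNReal.inv_ne_top]
  exact (tsub_pos_of_lt hz).ne'

theorem FF_le_one {x : ℝ≥0∞} (hu : ∀ t, uu x t ≤ 1) {z : ℝ≥0∞} (hz : z < 1) : FF x z ≤ 1 := by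
  have h1 := FF_mul_le x z
  have h2 := one_le_UU x z
  have h3 := UU_top hu hz
  have h4 : UU x z ≠ 0 := fun h => by rw [h] at h2; simp at h2
  by_contra hlt
  push Not at hlt
  have h5 : 1 * UU x z < FF x z * UU x z := ENNReal.mul_lt_mul_left h4 h3 hlt
  rw [one_mul] at h5
  exact absurd h1 (not_le.2 h5)

theorem x_ne_top {x : ℝ≥0∞} (hu : ∀ t, uu x t ≤ 1) : x ≠ ⊤ := by
  have h1 := hu 1
  have h2 : x ≤ uu x 1 := by
    unfold uu mass
    refine le_trans ?_ (ENNReal.le_tsum (⟨[eE], bridge_E, by simp [eE]⟩ : {l // BridgeW 1 l}))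
    simp
  exact ne_top_of_le_ne_top ENNReal.one_ne_top (h2.trans h1)

theorem irr_mass {x : ℝ≥0∞} (hu : ∀ t, uu x t ≤ 1) : ∑' j : Ir, x ^ j.1.length ≤ 1 := by
  rw [ENNReal.tsum_eq_iSup_sum]
  refine iSup_le (fun S => ?_)
  have hx := x_ne_top hu
  have hT : Filter.Tendsto (fun z : ℝ≥0∞ => ∑ j ∈ S, x ^ j.1.length * z ^ sp j.1)
      (nhdsWithin 1 (Set.Iio 1)) (nhds (∑ j ∈ S, x ^ j.1.length * (1 : ℝ≥0∞) ^ sp j.1)) := by
    refine tendsto_finsetSum S (fun j _ => ?_)
    refine ENNReal.Tendsto.const_mul ?_ (Or.inr (ENNReal.pow_ne_top hx))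
    exact ((ENNReal.continuous_pow (sp j.1)).tendsto 1).mono_left nhdsWithin_le_nhds
  simp only [one_pow, mul_one] at hT
  have : (nhdsWithin (1 : ℝ≥0∞) (Set.Iio 1)).NeBot := by
    apply nhdsLT_neBot_of_exists_lt
    exact ⟨0, zero_lt_one⟩
  refine le_of_tendsto hT ?_
  filter_upwards [self_mem_nhdsWithin] with z hz
  exact (ENNReal.sum_le_tsum S).trans (FF_le_one hu hz)

end IrrAux

open IrrAux

/-- `U (F(1) - F(z)) ≤ 1` where `U = 1 + F U` -/
theorem UU_kap {x : ℝ≥0∞} (hu : ∀ t, uu x t ≤ 1) {z : ℝ≥0∞} (hz : z < 1) :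
    UU x z * kap x z ≤ 1 := by
  have h1 : kap x z + FF x z ≤ 1 := by
    refine le_trans (le_of_eq ?_) (irr_mass hu)
    unfold kap FF wz
    rw [← ENNReal.tsum_add]
    refine tsum_congr (fun j => ?_)
    rw [← mul_add, tsub_add_cancel_of_le (pow_le_one' hz.le _), mul_one]
  have h2 := UU_le_FF x z
  have h3 := UU_top hu hz
  have h4 : FF x z * UU x z ≠ ⊤ :=
    ENNReal.mul_ne_top (ne_top_of_le_ne_top ENNReal.one_ne_top (FF_le_one hu hz)) h3
  have h5 : UU x z * kap x z + FF x z * UU x z ≤ 1 + FF x z * UU x z := by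
    calc UU x z * kap x z + FF x z * UU x z = UU x z * (kap x z + FF x z) := by ring
      _ ≤ UU x z * 1 := mul_le_mul_right h1 _
      _ = UU x z := mul_one _
      _ ≤ _ := h2
  exact (ENNReal.add_le_add_iff_right h4).1 h5

namespace IrrAux

open Classical in
/-- telescoping over the decompositions of one bridge -/
theorem tele {z : ℝ≥0∞} (hz : z ≤ 1) : ∀ (n : ℕ) (b : List Pt), b.length ≤ n → Bridge b →
    1 - z ^ sp b ≤ ∑' q : Br × Ir × Br, if q.1.1 ++ (q.2.1.1 ++ q.2.2.1) = b then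
      z ^ sp q.1.1 * (1 - z ^ sp q.2.1.1) else 0 := by
  intro n
  induction n with
  | zero =>
    intro b hb _
    have : b = [] := List.length_eq_zero_iff.1 (by omega)
    subst this
    simp [sp_nil]
  | succ n ih =>
    intro b hbl hb
    by_cases h0 : b = []
    · subst h0
      simp [sp_nil]
    obtain ⟨j, r, hj, hr, e⟩ := first_irr hb h0
    have hjl : 1 ≤ j.length := List.length_pos_iff.2 hj.2.1
    have hrl : r.length ≤ n := by
      rw [e, List.length_append] at hbl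
      omega
    have h1 := ih r hrl hr
    have h2 : (1 - z ^ sp j) + z ^ sp j * (1 - z ^ sp r) ≤ ∑' i : Unit ⊕ (Br × Ir × Br),
        Sum.elim (fun _ : Unit => 1 - z ^ sp j) (fun q : Br × Ir × Br => z ^ sp j *
          (if q.1.1 ++ (q.2.1.1 ++ q.2.2.1) = r then z ^ sp q.1.1 * (1 - z ^ sp q.2.1.1) else 0))
          i := by
      rw [tsum_sum']
      simp only [Sum.elim_inl, Sum.elim_inr]
      rw [ENNReal.tsum_mul_left]
      refine add_le_add ?_ (mul_le_mul_right h1 _)
      simp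
    have h3 : 1 - z ^ sp b ≤ (1 - z ^ sp j) + z ^ sp j * (1 - z ^ sp r) := by
      rw [e, sp_app hj.1 hr, pow_add, tsub_le_iff_right]
      have e1 : z ^ sp j * (1 - z ^ sp r) + z ^ sp j * z ^ sp r = z ^ sp j := by
        rw [← mul_add, tsub_add_cancel_of_le (pow_le_one' hz _), mul_one]
      rw [add_assoc, e1, tsub_add_cancel_of_le (pow_le_one' hz _)]
    refine h3.trans (h2.trans ?_)
    refine tsum_le_inj (fun i : Unit ⊕ (Br × Ir × Br) => Sum.elim
      (fun _ : Unit => ((⟨[], bridge_nil⟩, ⟨j, hj⟩, ⟨r, hr⟩) : Br × Ir × Br))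
      (fun q => (⟨j ++ q.1.1, bridge_append hj.1 q.1.2⟩, q.2.1, q.2.2)) i) ?_ ?_
    · rintro (_ | q) (_ | q') h
      · rfl
      · exfalso
        simp only [Sum.elim_inl, Sum.elim_inr, Prod.mk.injEq, Subtype.mk.injEq] at h
        have := congrArg List.length h.1
        rw [List.length_append, List.length_nil] at this
        omega
      · exfalso
        simp only [Sum.elim_inl, Sum.elim_inr, Prod.mk.injEq, Subtype.mk.injEq] at h
        have := congrArg List.length h.1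
        rw [List.length_append, List.length_nil] at this
        omega
      · simp only [Sum.elim_inr, Prod.mk.injEq, Subtype.mk.injEq, List.append_cancel_left_eq] at h
        congr 1
        exact Prod.ext (Subtype.ext h.1) (Prod.ext h.2.1 h.2.2)
    · rintro (_ | q)
      · simp only [Sum.elim_inl]
        rw [if_pos (by rw [List.nil_append, e])]
        simp [sp_nil]
      · simp only [Sum.elim_inr]
        by_cases hq : q.1.1 ++ (q.2.1.1 ++ q.2.2.1) = r
        · rw [if_pos hq, if_pos (by rw [List.append_assoc, hq, e]), sp_app hj.1 q.1.2, pow_add,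
            mul_assoc]
        · rw [if_neg hq]
          simp

theorem num {N A : ℕ} (hN : 1 ≤ N) (hA : N ≤ A) (hA2 : A < 2 * N) :
    1 ≤ 16 * (zN N ^ A * (1 - zN N ^ A)) := by
  have hN' : (0:ℝ) < N := by exact_mod_cast hN
  set r : ℝ := (N:ℝ) / ((N:ℝ) + 1) with hr
  have hr0 : 0 < r := by positivity
  have hr1 : r ≤ 1 := by
    rw [hr, div_le_one (by positivity)]
    linarith
  have hz : zN N = ENNReal.ofReal r := by
    rw [hr, ENNReal.ofReal_div_of_pos (by positivity), ENNReal.ofReal_natCast,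
      ENNReal.ofReal_add hN'.le zero_le_one, ENNReal.ofReal_natCast, ENNReal.ofReal_one]
    rfl
  have hinv : r⁻¹ = 1 + 1 / (N:ℝ) := by
    rw [hr]
    field_simp
  have h1 : r ^ A ≤ 1 / 2 := by
    have h2 : r ^ A ≤ r ^ N := pow_le_pow_of_le_one hr0.le hr1 hA
    have h3 : (2:ℝ) ≤ (r⁻¹) ^ N := by
      rw [hinv]
      have := one_add_mul_le_pow (a := 1 / (N:ℝ)) (by
        have : (0:ℝ) ≤ 1 / (N:ℝ) := by positivity
        linarith) N
      refine le_trans (le_of_eq ?_) this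
      field_simp
      norm_num
    have h4 : (r⁻¹) ^ N = (r ^ N)⁻¹ := inv_pow r N
    rw [h4] at h3
    have h5 : r ^ N ≤ 2⁻¹ := by
      rw [le_inv_comm₀ (by positivity) (by norm_num)]
      exact h3
    linarith
  have h2 : 1 / 8 ≤ r ^ A := by
    have h3 : r ^ (2 * N) ≤ r ^ A := pow_le_pow_of_le_one hr0.le hr1 hA2.le
    have h4 : (r⁻¹) ^ (2 * N) ≤ 8 := by
      have h5 : r⁻¹ ≤ Real.exp (1 / (N:ℝ)) := by
        rw [hinv]
        have := Real.add_one_le_exp (1 / (N:ℝ))
        linarith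
      have h6 : (r⁻¹) ^ (2 * N) ≤ Real.exp (1 / (N:ℝ)) ^ (2 * N) :=
        pow_le_pow_left₀ (by positivity) h5 _
      have h7 : Real.exp (1 / (N:ℝ)) ^ (2 * N) = Real.exp 1 ^ 2 := by
        rw [← Real.exp_nat_mul, ← Real.exp_nat_mul]
        congr 1
        push_cast
        field_simp
      rw [h7] at h6
      have h8 := Real.exp_one_lt_d9
      have h9 := Real.exp_pos 1
      nlinarith
    rw [inv_pow] at h4
    have h5 : 8⁻¹ ≤ r ^ (2 * N) := by
      rw [inv_le_comm₀ (by norm_num) (by positivity)]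
      exact h4
    linarith
  rw [hz, ← ENNReal.ofReal_pow hr0.le]
  have e1 : (1 : ℝ≥0∞) - ENNReal.ofReal (r ^ A) = ENNReal.ofReal (1 - r ^ A) := by
    rw [ENNReal.ofReal_sub _ (by positivity), ENNReal.ofReal_one]
  have e2 : (16 : ℝ≥0∞) = ENNReal.ofReal 16 := by simp
  rw [e1, e2, ← ENNReal.ofReal_mul (by positivity), ← ENNReal.ofReal_mul (by norm_num),
    ← ENNReal.ofReal_one]
  apply ENNReal.ofReal_le_ofReal
  nlinarith

end IrrAux

/-- the cut: `1 - z ^ A = ∑ z ^ s(e) (1 - z ^ s(j))` over the decompositions `b = e j c`, `j`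
irreducible -/
theorem cut_avg (x : ℝ≥0∞) {N A : ℕ} (hN : 1 ≤ N) (hA : N ≤ A) (hA2 : A < 2 * N)
    (G : List Pt → ℝ≥0∞) :
    ∑' b : BW A, x ^ b.1.length * G b.1 ≤ 16 * ∑' q : Br × Ir × Br,
      if sp q.1.1 + sp q.2.1.1 + sp q.2.2.1 = A then
        wz x (zN N) q.1.1 * (x ^ q.2.1.1.length * (1 - zN N ^ sp q.2.1.1)) *
          wz x (zN N) q.2.2.1 * G (q.1.1 ++ (q.2.1.1 ++ q.2.2.1)) else 0 := by
  classical
  have hz := zN_le_one N
  have h1 : ∑' b : BW A, x ^ b.1.length * G b.1 ≤ ∑' b : BW A, 16 * ∑' q : Br × Ir × Br,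
      (x ^ b.1.length * G b.1 * zN N ^ A) * (if q.1.1 ++ (q.2.1.1 ++ q.2.2.1) = b.1 then
        zN N ^ sp q.1.1 * (1 - zN N ^ sp q.2.1.1) else 0) := by
    refine ENNReal.tsum_le_tsum (fun b => ?_)
    rw [ENNReal.tsum_mul_left]
    have h2 := tele hz b.1.length b.1 le_rfl b.2.1
    have h3 : sp b.1 = A := by
      unfold sp
      rw [b.2.2]
      simp
    rw [h3] at h2
    calc x ^ b.1.length * G b.1 = x ^ b.1.length * G b.1 * 1 := (mul_one _).symm
      _ ≤ x ^ b.1.length * G b.1 * (16 * (zN N ^ A * (1 - zN N ^ A))) :=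
          mul_le_mul_right (num hN hA hA2) _
      _ = 16 * (x ^ b.1.length * G b.1 * zN N ^ A * (1 - zN N ^ A)) := by ring
      _ ≤ _ := mul_le_mul_right (mul_le_mul_right h2 _) _
  refine h1.trans ?_
  rw [ENNReal.tsum_mul_left, ENNReal.tsum_comm]
  refine mul_le_mul_right (ENNReal.tsum_le_tsum (fun q => ?_)) _
  have hsp : sp (q.1.1 ++ (q.2.1.1 ++ q.2.2.1)) = sp q.1.1 + sp q.2.1.1 + sp q.2.2.1 := by
    rw [sp_app q.1.2 (bridge_append q.2.1.2.1 q.2.2.2), sp_app q.2.1.2.1 q.2.2.2]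
    ring
  by_cases hA' : sp q.1.1 + sp q.2.1.1 + sp q.2.2.1 = A
  · rw [if_pos hA']
    have hbr : Bridge (q.1.1 ++ (q.2.1.1 ++ q.2.2.1)) :=
      bridge_append q.1.2 (bridge_append q.2.1.2.1 q.2.2.2)
    have hw : BridgeW A (q.1.1 ++ (q.2.1.1 ++ q.2.2.1)) := by
      refine ⟨hbr, ?_⟩
      have h4 := sum_nonneg hbr
      rw [hA'] at hsp
      unfold sp at hsp
      omega
    rw [tsum_eq_single (⟨_, hw⟩ : BW A) (fun b hb => by
      rw [if_neg (fun h => hb (Subtype.ext h.symm)), mul_zero])]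
    rw [if_pos rfl]
    unfold wz
    simp only
    rw [List.length_append, List.length_append, pow_add, pow_add]
    calc x ^ q.1.1.length * (x ^ q.2.1.1.length * x ^ q.2.2.1.length) *
          G (q.1.1 ++ (q.2.1.1 ++ q.2.2.1)) * zN N ^ A * (zN N ^ sp q.1.1 *
            (1 - zN N ^ sp q.2.1.1))
        = x ^ q.1.1.length * zN N ^ sp q.1.1 * (x ^ q.2.1.1.length * (1 - zN N ^ sp q.2.1.1)) *
          (x ^ q.2.2.1.length * zN N ^ A) * G (q.1.1 ++ (q.2.1.1 ++ q.2.2.1)) := by ring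
      _ ≤ _ := by
          refine mul_le_mul_left (mul_le_mul_right (mul_le_mul_right ?_ _) _) _
          exact pow_le_pow_right_of_le_one' hz (by omega)
  · rw [if_neg hA']
    refine le_of_eq ?_
    rw [ENNReal.tsum_eq_zero]
    intro b
    rw [if_neg, mul_zero]
    intro h
    apply hA'
    rw [← hsp, h]
    unfold sp
    rw [b.2.2]
    simp

end Pool.Agent.Work.MP_376faf_co_neps
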